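import Mathlib

set_option autoImplicit false
set_option linter.unusedSectionVars false
set_option linter.unnecessarySimpa false

open Set Metric
open scoped ENNReal NNReal

namespace Pool.Agent.Lib.MP_8da474_gt

variable {E : Type*} [NormedAddCommGroup E] [InnerProductSpace ℝ E]

/-- intrinsic distance in a set `F` -/
noncomputable def dI (F : Set E) (x y : E) : ℝ≥0∞ :=
  ⨅ (γ : ℝ → E) (_ : ContinuousOn γ (Set.Icc (0:ℝ) 1) ∧ γ 0 = x ∧ γ 1 = y ∧
                ∀ t ∈ Set.Icc (0:ℝ) 1, γ t ∈ F), eVariationOn γ (Set.Icc (0:ℝ) 1)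

lemma dI_le_of_curve {F : Set E} {γ : ℝ → E} (hc : ContinuousOn γ (Set.Icc (0:ℝ) 1))
    (hF : ∀ t ∈ Set.Icc (0:ℝ) 1, γ t ∈ F) :
    dI F (γ 0) (γ 1) ≤ eVariationOn γ (Set.Icc (0:ℝ) 1) :=
  iInf₂_le_of_le γ ⟨hc, rfl, rfl, hF⟩ le_rfl

lemma dI_comm (F : Set E) (x y : E) : dI F x y = dI F y x := by
  have key : ∀ x y, dI F x y ≤ dI F y x := by
    intro x y
    refine le_iInf₂ ?_
    rintro γ ⟨hc, h0, h1, hF⟩
    have hm : MapsTo (fun t : ℝ => 1 - t) (Icc (0:ℝ) 1) (Icc (0:ℝ) 1) := by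
      intro t ht; constructor <;> simp [ht.1, ht.2]
    have ha : AntitoneOn (fun t : ℝ => 1 - t) (Icc (0:ℝ) 1) := by
      intro a _ b _ hab
      show 1 - b ≤ 1 - a
      linarith
    have h := dI_le_of_curve (F := F) (γ := γ ∘ (fun t : ℝ => 1 - t))
      (hc.comp (by fun_prop) hm) (fun t ht => hF _ (hm ht))
    have e0 : (γ ∘ (fun t : ℝ => 1 - t)) 0 = x := by simp [h1]
    have e1 : (γ ∘ (fun t : ℝ => 1 - t)) 1 = y := by simp [h0]
    rw [e0, e1] at h
    exact h.trans (eVariationOn.comp_le_of_antitoneOn γ _ ha hm)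
  exact le_antisymm (key x y) (key y x)

lemma dI_self {F : Set E} {x : E} (hx : x ∈ F) : dI F x x = 0 := by
  have h := dI_le_of_curve (F := F) (γ := fun _ => x) continuousOn_const (fun _ _ => hx)
  have h2 : eVariationOn (fun _ : ℝ => x) (Icc (0:ℝ) 1) = 0 := by
    apply eVariationOn.constant_on
    intro a ha b hb
    obtain ⟨_, _, rfl⟩ := ha
    obtain ⟨_, _, rfl⟩ := hb
    rfl
  simpa [h2] using h

lemma dI_triangle (F : Set E) (x y z : E) : dI F x z ≤ dI F x y + dI F y z := by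
  have key : ∀ γ₁ : ℝ → E, (ContinuousOn γ₁ (Set.Icc (0:ℝ) 1) ∧ γ₁ 0 = x ∧ γ₁ 1 = y ∧
                ∀ t ∈ Set.Icc (0:ℝ) 1, γ₁ t ∈ F) → ∀ γ₂ : ℝ → E,
      (ContinuousOn γ₂ (Set.Icc (0:ℝ) 1) ∧ γ₂ 0 = y ∧ γ₂ 1 = z ∧
                ∀ t ∈ Set.Icc (0:ℝ) 1, γ₂ t ∈ F) →
      dI F x z ≤ eVariationOn γ₁ (Set.Icc (0:ℝ) 1) + eVariationOn γ₂ (Set.Icc (0:ℝ) 1) := by
    rintro γ₁ ⟨hc1, h10, h11, hF1⟩ γ₂ ⟨hc2, h20, h21, hF2⟩
    set γ : ℝ → E := fun t => if t ≤ 1/2 then γ₁ (2*t) else γ₂ (2*t-1) with hγ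
    have hm1 : MapsTo (fun t : ℝ => 2 * t) (Icc (0:ℝ) (1/2)) (Icc (0:ℝ) 1) := by
      intro t ht
      simp only [mem_Icc] at ht ⊢
      constructor <;> linarith [ht.1, ht.2]
    have hm2 : MapsTo (fun t : ℝ => 2 * t - 1) (Icc (1/2:ℝ) 1) (Icc (0:ℝ) 1) := by
      intro t ht
      simp only [mem_Icc] at ht ⊢
      constructor <;> linarith [ht.1, ht.2]
    have e1 : EqOn γ (γ₁ ∘ fun t => 2*t) (Icc (0:ℝ) (1/2)) := by
      intro t ht
      simp only [hγ, ht.2, if_true, Function.comp]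
    have e2 : EqOn γ (γ₂ ∘ fun t => 2*t-1) (Icc (1/2:ℝ) 1) := by
      intro t ht
      rcases eq_or_lt_of_le ht.1 with h | h
      · subst h
        simp only [hγ, le_refl, if_true, Function.comp]
        norm_num [h11, h20]
      · simp only [hγ, not_le.mpr h, if_false, Function.comp]
    have hun : (Icc (0:ℝ) 1) = Icc (0:ℝ) (1/2) ∪ Icc (1/2:ℝ) 1 := by
      rw [Icc_union_Icc_eq_Icc] <;> norm_num
    have hcont : ContinuousOn γ (Icc (0:ℝ) 1) := by
      rw [hun]
      apply ContinuousOn.union_of_isClosed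
      · exact (hc1.comp (by fun_prop) hm1).congr e1
      · exact (hc2.comp (by fun_prop) hm2).congr e2
      · exact isClosed_Icc
      · exact isClosed_Icc
    have hmem : ∀ t ∈ Icc (0:ℝ) 1, γ t ∈ F := by
      intro t ht
      rw [hun] at ht
      rcases ht with ht | ht
      · rw [e1 ht]; exact hF1 _ (hm1 ht)
      · rw [e2 ht]; exact hF2 _ (hm2 ht)
    have h := dI_le_of_curve hcont hmem
    have g0 : γ 0 = x := by
      rw [e1 ⟨le_rfl, by norm_num⟩]; simp [h10]
    have g1 : γ 1 = z := by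
      rw [e2 ⟨by norm_num, le_rfl⟩]; simp only [Function.comp]; norm_num [h21]
    rw [g0, g1] at h
    refine h.trans ?_
    have hs := eVariationOn.Icc_add_Icc γ (s := univ) (a := (0:ℝ)) (b := 1/2) (c := 1)
      (by norm_num) (by norm_num) (mem_univ _)
    simp only [univ_inter] at hs
    rw [← hs]
    refine add_le_add ?_ ?_
    · rw [eVariationOn.eq_of_eqOn e1]
      exact eVariationOn.comp_le_of_monotoneOn γ₁ _ (by intro a _ b _ hab; simpa using hab) hm1
    · rw [eVariationOn.eq_of_eqOn e2]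
      exact eVariationOn.comp_le_of_monotoneOn γ₂ _ (by intro a _ b _ hab; simpa using hab) hm2
  have : dI F x z ≤ ⨅ (γ₁ : ℝ → E) (_ : ContinuousOn γ₁ (Set.Icc (0:ℝ) 1) ∧ γ₁ 0 = x ∧ γ₁ 1 = y ∧
                ∀ t ∈ Set.Icc (0:ℝ) 1, γ₁ t ∈ F), ⨅ (γ₂ : ℝ → E) (_ : ContinuousOn γ₂ (Set.Icc (0:ℝ) 1) ∧ γ₂ 0 = y ∧ γ₂ 1 = z ∧
                ∀ t ∈ Set.Icc (0:ℝ) 1, γ₂ t ∈ F),
                (eVariationOn γ₁ (Set.Icc (0:ℝ) 1) + eVariationOn γ₂ (Set.Icc (0:ℝ) 1)) :=
    le_iInf₂ fun γ₁ h₁ => le_iInf₂ fun γ₂ h₂ => key γ₁ h₁ γ₂ h₂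
  refine this.trans ?_
  simp only [dI]
  rw [ENNReal.iInf_add]
  refine iInf_mono fun γ₁ => ?_
  rw [ENNReal.iInf_add]
  refine iInf_mono fun h₁ => ?_
  rw [ENNReal.add_iInf]
  refine iInf_mono fun γ₂ => ?_
  rw [ENNReal.add_iInf]

/-- From a curve one extracts fine chains. -/
lemma exists_chain_of_dI_lt {F : Set E} {x y : E} {L : ℝ} (h : dI F x y < ENNReal.ofReal L)
    {δ : ℝ} (hδ : 0 < δ) :
    ∃ (N : ℕ) (u : ℕ → E), 0 < N ∧ u 0 = x ∧ u N = y ∧ (∀ i, u i ∈ F) ∧
      (∀ i, dist (u i) (u (i+1)) ≤ δ) ∧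
      ∑ i ∈ Finset.range N, dist (u i) (u (i+1)) ≤ L := by
  simp only [dI, iInf_lt_iff] at h
  obtain ⟨γ, ⟨hc, h0, h1, hF⟩, hv⟩ := h
  have hL : 0 < L := by
    by_contra hneg
    rw [ENNReal.ofReal_of_nonpos (not_lt.mp hneg)] at hv
    exact absurd hv (by simp)
  have huc := isCompact_Icc.uniformContinuousOn_of_continuous hc
  rw [Metric.uniformContinuousOn_iff] at huc
  obtain ⟨η, hη, hηd⟩ := huc δ hδ
  obtain ⟨N, hN⟩ := exists_nat_gt (1/η)
  have hNpos : (0:ℝ) < N := lt_trans (by positivity) hN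
  have hN0 : 0 < N := by exact_mod_cast hNpos
  set t : ℕ → ℝ := fun i => min ((i:ℝ)/N) 1 with ht
  have htmono : Monotone t := by
    intro a b hab
    apply min_le_min_right
    gcongr
  have htmem : ∀ i, t i ∈ Icc (0:ℝ) 1 := by
    intro i
    refine ⟨le_min (by positivity) zero_le_one, min_le_right _ _⟩
  have hstep : ∀ i, dist (t i) (t (i+1)) < η := by
    intro i
    have h1 : t i ≤ t (i+1) := htmono (Nat.le_succ i)
    have h2 : t (i+1) ≤ t i + 1/N := by
      simp only [ht]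
      rw [← min_add_add_right]
      apply min_le_min
      · push_cast; rw [add_div]
      · linarith [show (0:ℝ) ≤ 1/N by positivity]
    have h3 : 1/(N:ℝ) < η := by
      rw [div_lt_iff₀ hNpos]
      rw [div_lt_iff₀ hη] at hN
      linarith [mul_comm η (N:ℝ)]
    rw [Real.dist_eq, abs_sub_comm, abs_of_nonneg (by linarith)]
    linarith
  refine ⟨N, fun i => γ (t i), hN0, ?_, ?_, fun i => hF _ (htmem i), fun i => ?_, ?_⟩
  · have : t 0 = 0 := by simp [ht]
    simp only [this, h0]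
  · have : t N = 1 := by simp [ht, div_self hNpos.ne']
    simp only [this, h1]
  · exact (hηd _ (htmem i) _ (htmem (i+1)) (hstep i)).le
  · have hs := eVariationOn.sum_le (f := γ) (n := N) htmono htmem
    have h5 : ENNReal.ofReal (∑ i ∈ Finset.range N, dist (γ (t i)) (γ (t (i+1)))) ≤
        ENNReal.ofReal L := by
      rw [ENNReal.ofReal_sum_of_nonneg (fun _ _ => dist_nonneg)]
      refine le_trans (le_of_eq ?_) (hs.trans hv.le)
      refine Finset.sum_congr rfl fun i _ => ?_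
      rw [edist_comm, edist_dist]
    exact (ENNReal.ofReal_le_ofReal_iff hL.le).mp h5

section proj

variable [CompleteSpace E]

/-- nearest point in `K` -/
noncomputable def npt (K : Set E) (hne : K.Nonempty) (hcl : IsClosed K) (hcv : Convex ℝ K) (x : E) : E :=
  Classical.choose (exists_norm_eq_iInf_of_complete_convex hne hcl.isComplete hcv x)

variable {K : Set E} (hne : K.Nonempty) (hcl : IsClosed K) (hcv : Convex ℝ K)

lemma npt_mem (x : E) : npt K hne hcl hcv x ∈ K :=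
  (Classical.choose_spec (exists_norm_eq_iInf_of_complete_convex hne hcl.isComplete hcv x)).1

lemma npt_inner (x : E) : ∀ w ∈ K, inner ℝ (x - npt K hne hcl hcv x) (w - npt K hne hcl hcv x) ≤ 0 :=
  (norm_eq_iInf_iff_real_inner_le_zero hcv (npt_mem hne hcl hcv x)).1
    (Classical.choose_spec (exists_norm_eq_iInf_of_complete_convex hne hcl.isComplete hcv x)).2

lemma npt_lipschitz (x y : E) :
    ‖npt K hne hcl hcv x - npt K hne hcl hcv y‖ ≤ ‖x - y‖ := by
  set a := npt K hne hcl hcv x with ha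
  set b := npt K hne hcl hcv y with hb
  have h1 := npt_inner hne hcl hcv x b (npt_mem hne hcl hcv y)
  have h2 := npt_inner hne hcl hcv y a (npt_mem hne hcl hcv x)
  rw [← ha] at h1
  rw [← hb] at h2
  have h3 : ‖a - b‖^2 ≤ inner ℝ (x - y) (a - b) := by
    have e1 : inner ℝ (x - a) (b - a) + inner ℝ (y - b) (a - b) = ‖a-b‖^2 - inner ℝ (x - y) (a - b) := by
      rw [← real_inner_self_eq_norm_sq]
      have : b - a = -(a - b) := by abel
      rw [this, inner_neg_right]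
      simp only [inner_sub_left, inner_sub_right]
      ring
    linarith
  have h4 : inner ℝ (x - y) (a - b) ≤ ‖x - y‖ * ‖a - b‖ := real_inner_le_norm _ _
  by_cases hz : ‖a - b‖ = 0
  · rw [hz]; exact norm_nonneg _
  · have hp : 0 < ‖a - b‖ := lt_of_le_of_ne (norm_nonneg _) (Ne.symm hz)
    have : ‖a-b‖ * ‖a-b‖ ≤ ‖x-y‖ * ‖a-b‖ := by nlinarith
    exact le_of_mul_le_mul_right this hp

lemma npt_of_mem {x : E} (hx : x ∈ K) : npt K hne hcl hcv x = x := by
  have h := npt_inner hne hcl hcv x x hx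
  have : ‖x - npt K hne hcl hcv x‖^2 ≤ 0 := by
    rw [← real_inner_self_eq_norm_sq]; exact h
  have h2 : ‖x - npt K hne hcl hcv x‖ = 0 := by nlinarith [norm_nonneg (x - npt K hne hcl hcv x)]
  have := norm_eq_zero.mp h2
  exact (sub_eq_zero.mp this).symm

lemma npt_mem_frontier {x : E} (hx : x ∉ interior K) : npt K hne hcl hcv x ∈ frontier K := by
  have hm := npt_mem hne hcl hcv x
  rw [hcl.frontier_eq]
  refine ⟨hm, ?_⟩
  by_cases hxK : x ∈ K
  · rwa [npt_of_mem hne hcl hcv hxK]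
  · intro hint
    set a := npt K hne hcl hcv x with ha
    have hxa : x - a ≠ 0 := by
      intro h
      rw [sub_eq_zero] at h
      exact hxK (h ▸ hm)
    rw [mem_interior_iff_mem_nhds, Metric.mem_nhds_iff] at hint
    obtain ⟨r, hr, hball⟩ := hint
    have hnp : 0 < ‖x - a‖ := norm_pos_iff.mpr hxa
    set w := a + (r / (2*‖x-a‖)) • (x - a) with hw
    have hwK : w ∈ K := by
      apply hball
      rw [Metric.mem_ball, dist_eq_norm, hw, add_sub_cancel_left, norm_smul, Real.norm_eq_abs,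
        abs_of_pos (by positivity)]
      rw [div_mul_eq_mul_div, div_lt_iff₀ (by positivity)]
      nlinarith
    have h := npt_inner hne hcl hcv x w hwK
    rw [← ha, hw, add_sub_cancel_left, inner_smul_right, real_inner_self_eq_norm_sq] at h
    have : 0 < r / (2*‖x-a‖) * ‖x-a‖^2 := by positivity
    linarith

lemma dI_npt_le {x y : E} (h : ∀ t ∈ Icc (0:ℝ) 1, AffineMap.lineMap x y t ∉ interior K) :
    dI (frontier K) (npt K hne hcl hcv x) (npt K hne hcl hcv y) ≤ ENNReal.ofReal (dist x y) := by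
  set γ : ℝ → E := fun t => npt K hne hcl hcv (AffineMap.lineMap x y t) with hγ
  have hlip : ∀ s t : ℝ, ‖γ s - γ t‖ ≤ dist x y * |s - t| := by
    intro s t
    refine (npt_lipschitz hne hcl hcv _ _).trans ?_
    rw [← dist_eq_norm, dist_lineMap_lineMap, Real.dist_eq, mul_comm]
  have hL : LipschitzWith (Real.toNNReal (dist x y)) γ := by
    apply LipschitzWith.of_dist_le_mul
    intro s t
    rw [dist_eq_norm, Real.coe_toNNReal _ dist_nonneg, Real.dist_eq]
    exact hlip s t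
  have h1 := dI_le_of_curve (F := frontier K) (γ := γ) hL.continuous.continuousOn
    (fun t ht => npt_mem_frontier hne hcl hcv (h t ht))
  have g0 : γ 0 = npt K hne hcl hcv x := by simp [hγ]
  have g1 : γ 1 = npt K hne hcl hcv y := by simp [hγ]
  rw [g0, g1] at h1
  refine h1.trans ?_
  have h2 := (hL.lipschitzOnWith (s := univ)).comp_eVariationOn_le (g := (id : ℝ → ℝ)) (s := Icc (0:ℝ) 1)
    (mapsTo_univ _ _)
  have h3 : eVariationOn (id : ℝ → ℝ) (Icc (0:ℝ) 1) = ENNReal.ofReal 1 := by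
    have := MonotoneOn.eVariationOn_eq (f := (id : ℝ → ℝ)) (s := univ) (a := 0) (b := 1)
      (monotone_id.monotoneOn _) (mem_univ _) (mem_univ _)
    simpa using this
  rw [h3] at h2
  simpa [ENNReal.ofReal] using h2

end proj

end Pool.Agent.Lib.MP_8da474_gt
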