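import Mathlib
import Pool.Agent.Lib.MP_8da474_gt.Path

set_option autoImplicit false
set_option linter.unusedSectionVars false
set_option linter.unnecessarySimpa false

open Set Metric
open scoped ENNReal NNReal

namespace Pool.Agent.Lib.MP_8da474_gt

abbrev E3 := EuclideanSpace ℝ (Fin 3)

/-- the odd perturbation -/
noncomputable def P (x : E3) : ℝ := (x 2)^3 + (x 0)^5/4

noncomputable def Phi (ε : ℝ) (x : E3) : ℝ := ‖x‖^2 + ε * P x

def Kb (ε : ℝ) : Set E3 := {x | ‖x‖ ≤ 11/10 ∧ Phi ε x ≤ 1}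

lemma P_neg (x : E3) : P (-x) = - P x := by
  simp only [P, PiLp.neg_apply]; ring

lemma abs_coord_le (x : E3) (i : Fin 3) : |x i| ≤ ‖x‖ := by
  have := PiLp.norm_apply_le x i
  simpa [Real.norm_eq_abs] using this

lemma cube_lip {a b : ℝ} (ha : |a| ≤ 11/10) (hb : |b| ≤ 11/10) : |a^3 - b^3| ≤ 3.63 * |a - b| := by
  have e : a^3 - b^3 = (a - b) * (a^2 + a*b + b^2) := by ring
  rw [e, abs_mul, mul_comm]
  apply mul_le_mul_of_nonneg_right _ (abs_nonneg _)
  have ha2 : |a|^2 ≤ 1.21 := by nlinarith [abs_nonneg a]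
  have hb2 : |b|^2 ≤ 1.21 := by nlinarith [abs_nonneg b]
  have hab : |a| * |b| ≤ 1.21 := by nlinarith [abs_nonneg a, abs_nonneg b]
  calc |a^2+a*b+b^2| ≤ |a^2| + |a*b| + |b^2| := abs_add_three _ _ _
    _ = |a|^2 + |a| * |b| + |b|^2 := by rw [abs_mul, abs_pow, abs_pow]
    _ ≤ 3.63 := by linarith

lemma fifth_lip {a b : ℝ} (ha : |a| ≤ 11/10) (hb : |b| ≤ 11/10) : |a^5 - b^5| ≤ 7.4 * |a - b| := by
  have e : a^5 - b^5 = (a - b) * (a^4 + a^3*b + a^2*b^2 + a*b^3 + b^4) := by ring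
  rw [e, abs_mul, mul_comm]
  apply mul_le_mul_of_nonneg_right _ (abs_nonneg _)
  have h1 : |a|^2 ≤ 1.21 := by nlinarith [abs_nonneg a]
  have h2 : |b|^2 ≤ 1.21 := by nlinarith [abs_nonneg b]
  have h3 : |a| * |b| ≤ 1.21 := by nlinarith [abs_nonneg a, abs_nonneg b]
  have p1 : 0 ≤ |a|^2 := by positivity
  have p2 : 0 ≤ |b|^2 := by positivity
  have p3 : 0 ≤ |a| * |b| := by positivity
  have q1 : |a|^4 ≤ 1.4641 := by nlinarith
  have q2 : |a|^3 * |b| ≤ 1.4641 := by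
    have : |a|^3 * |b| = |a|^2*(|a| * |b|) := by ring
    rw [this]; nlinarith
  have q3 : |a|^2 * |b|^2 ≤ 1.4641 := by nlinarith
  have q4 : |a| * |b|^3 ≤ 1.4641 := by
    have : |a| * |b|^3 = |b|^2*(|a| * |b|) := by ring
    rw [this]; nlinarith
  have q5 : |b|^4 ≤ 1.4641 := by nlinarith
  calc |a^4 + a^3*b + a^2*b^2 + a*b^3 + b^4|
      ≤ |a^4| + |a^3*b| + |a^2*b^2| + |a*b^3| + |b^4| := by
        refine (abs_add_le _ _).trans ?_
        gcongr
        refine (abs_add_le _ _).trans ?_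
        gcongr
        exact abs_add_three _ _ _
    _ = |a|^4 + |a|^3 * |b| + |a|^2 * |b|^2 + |a| * |b|^3 + |b|^4 := by simp only [abs_mul, abs_pow]
    _ ≤ 7.4 := by linarith

lemma P_lip {x y : E3} (hx : ‖x‖ ≤ 11/10) (hy : ‖y‖ ≤ 11/10) : |P x - P y| ≤ 6 * ‖x - y‖ := by
  have h2 := cube_lip ((abs_coord_le x 2).trans hx) ((abs_coord_le y 2).trans hy)
  have h0 := fifth_lip ((abs_coord_le x 0).trans hx) ((abs_coord_le y 0).trans hy)
  have c2 : |x 2 - y 2| ≤ ‖x - y‖ := by simpa using abs_coord_le (x - y) 2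
  have c0 : |x 0 - y 0| ≤ ‖x - y‖ := by simpa using abs_coord_le (x - y) 0
  have e : P x - P y = ((x 2)^3 - (y 2)^3) + ((x 0)^5 - (y 0)^5)/4 := by simp only [P]; ring
  rw [e]
  refine (abs_add_le _ _).trans ?_
  rw [abs_div, abs_of_pos (show (0:ℝ) < 4 by norm_num)]
  have := norm_nonneg (x - y)
  linarith

lemma P_zero : P 0 = 0 := by simp [P]

lemma P_abs_le {x : E3} (hx : ‖x‖ ≤ 11/10) : |P x| ≤ 2 := by
  have h2 := (abs_coord_le x 2).trans hx
  have h0 := (abs_coord_le x 0).trans hx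
  have a2 : |(x 2)^3| ≤ 1.331 := by
    rw [abs_pow]
    calc |x 2|^3 ≤ (11/10)^3 := by gcongr
      _ = 1.331 := by norm_num
  have a0 : |(x 0)^5| ≤ 1.62 := by
    rw [abs_pow]
    calc |x 0|^5 ≤ (11/10)^5 := by gcongr
      _ ≤ 1.62 := by norm_num
  simp only [P]
  refine (abs_add_le _ _).trans ?_
  rw [abs_div, abs_of_pos (show (0:ℝ) < 4 by norm_num)]
  linarith

lemma continuous_P : Continuous P := by
  unfold P; fun_prop

lemma continuous_Phi (ε : ℝ) : Continuous (Phi ε) := by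
  unfold Phi
  exact (continuous_norm.pow 2).add (continuous_const.mul continuous_P)

lemma Phi_lip {ε : ℝ} (hε0 : 0 ≤ ε) (hε : ε ≤ 1/1000) {x y : E3} (hx : ‖x‖ ≤ 11/10)
    (hy : ‖y‖ ≤ 11/10) : |Phi ε x - Phi ε y| ≤ 3 * ‖x - y‖ := by
  have h := P_lip hx hy
  have e : Phi ε x - Phi ε y = (‖x‖ - ‖y‖) * (‖x‖ + ‖y‖) + ε * (P x - P y) := by
    simp only [Phi]; ring
  rw [e]
  refine (abs_add_le _ _).trans ?_
  rw [abs_mul, abs_mul, abs_of_nonneg hε0]
  have h1 := abs_norm_sub_norm_le x y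
  have h2 : |‖x‖ + ‖y‖| ≤ 2.2 := by
    rw [abs_of_nonneg (by positivity)]; linarith
  have h3 : |‖x‖ - ‖y‖| * |‖x‖ + ‖y‖| ≤ ‖x - y‖ * 2.2 := by gcongr
  have h4 : ε * |P x - P y| ≤ (1/1000) * (6 * ‖x-y‖) := by gcongr
  have := norm_nonneg (x - y)
  linarith

/-- scaling outwards increases `Phi`. -/
lemma Phi_scale {ε : ℝ} (hε0 : 0 ≤ ε) (hε : ε ≤ 1/1000) {z : E3} {l : ℝ} (hl : 0 ≤ l)
    (hz : 3/4 ≤ ‖z‖) (hz2 : (1 + l) * ‖z‖ ≤ 11/10) : Phi ε z + l ≤ Phi ε ((1 + l) • z) := by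
  have hzz : ‖z‖ ≤ 11/10 := by nlinarith [norm_nonneg z]
  have hn : ‖(1 + l) • z‖ = (1 + l) * ‖z‖ := by
    rw [norm_smul, Real.norm_eq_abs, abs_of_nonneg (by linarith)]
  have h := P_lip (x := (1 + l) • z) (y := z) (by rw [hn]; exact hz2) hzz
  have hd : ‖(1 + l) • z - z‖ = l * ‖z‖ := by
    have : (1 + l) • z - z = l • z := by rw [add_smul, one_smul]; abel
    rw [this, norm_smul, Real.norm_eq_abs, abs_of_nonneg hl]
  rw [hd] at h
  have h2 := (abs_le.mp h).1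
  simp only [Phi, hn]
  have h3 : ε * (P ((1+l) • z) - P z) ≥ - (l * (1/100)) := by
    have : -(6 * (l * ‖z‖)) ≤ P ((1+l) • z) - P z := h2
    have h5 : ε * (P ((1+l) • z) - P z) ≥ ε * (-(6 * (l * ‖z‖))) := by gcongr
    have h6 : ε * (6 * (l * ‖z‖)) ≤ (1/1000) * (6 * (l * (11/10))) := by gcongr
    nlinarith
  have h7 : ((1+l)*‖z‖)^2 ≥ ‖z‖^2 + 2 * l * ‖z‖^2 := by nlinarith [sq_nonneg (l*‖z‖)]
  have h8 : l * ‖z‖^2 ≥ l * (9/16) := by
    have : ‖z‖^2 ≥ 9/16 := by nlinarith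
    gcongr
  nlinarith

lemma isClosed_Kb (ε : ℝ) : IsClosed (Kb ε) := by
  have : Kb ε = {x | ‖x‖ ≤ 11/10} ∩ {x | Phi ε x ≤ 1} := rfl
  rw [this]
  exact (isClosed_le continuous_norm continuous_const).inter
    (isClosed_le (continuous_Phi ε) continuous_const)

lemma isCompact_Kb (ε : ℝ) : IsCompact (Kb ε) := by
  apply Metric.isCompact_of_isClosed_isBounded (isClosed_Kb ε)
  apply (Metric.isBounded_closedBall (x := (0:E3)) (r := 11/10)).subset
  intro x hx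
  simpa using hx.1

lemma norm_lt_of_mem_Kb {ε : ℝ} (hε0 : 0 ≤ ε) (hε : ε ≤ 1/1000) {x : E3} (hx : x ∈ Kb ε) :
    ‖x‖ < 11/10 := by
  by_contra hcon
  have hcon := not_lt.mp hcon
  have h1 : ‖x‖ = 11/10 := le_antisymm hx.1 hcon
  have h2 := hx.2
  have h3 := (abs_le.mp (P_abs_le hx.1)).1
  simp only [Phi, h1] at h2
  have : ε * P x ≥ ε * (-2) := by gcongr
  nlinarith

lemma not_mem_interior {ε : ℝ} (hε0 : 0 ≤ ε) (hε : ε ≤ 1/1000) {x : E3} (hx : 3/4 ≤ ‖x‖)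
    (h1 : 1 ≤ Phi ε x) : x ∉ interior (Kb ε) := by
  intro hint
  rw [mem_interior_iff_mem_nhds, Metric.mem_nhds_iff] at hint
  obtain ⟨r, hr, hball⟩ := hint
  have hpos : 0 < ‖x‖ := by linarith
  set l := r / (2 * ‖x‖) with hl
  have hlpos : 0 < l := by positivity
  have hmem : (1 + l) • x ∈ Kb ε := by
    apply hball
    rw [Metric.mem_ball, dist_eq_norm]
    have : (1 + l) • x - x = l • x := by rw [add_smul, one_smul]; abel
    rw [this, norm_smul, Real.norm_eq_abs, abs_of_pos hlpos, hl]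
    have : r / (2 * ‖x‖) * ‖x‖ = r/2 := by field_simp
    rw [this]; linarith
  have hn : ‖(1 + l) • x‖ = (1 + l) * ‖x‖ := by
    rw [norm_smul, Real.norm_eq_abs, abs_of_nonneg (by linarith)]
  have h2 := Phi_scale hε0 hε hlpos.le hx (by rw [← hn]; exact hmem.1)
  have := hmem.2
  linarith

lemma not_mem_interior' {ε : ℝ} {x : E3} (hx : 11/10 < ‖x‖) : x ∉ interior (Kb ε) := by
  intro h
  have := (interior_subset h).1
  linarith

lemma mem_frontier_iff {ε : ℝ} (hε0 : 0 ≤ ε) (hε : ε ≤ 1/1000) {x : E3} :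
    x ∈ frontier (Kb ε) ↔ ‖x‖ ≤ 11/10 ∧ Phi ε x = 1 := by
  rw [(isClosed_Kb ε).frontier_eq]
  constructor
  · rintro ⟨hK, hni⟩
    refine ⟨hK.1, le_antisymm hK.2 ?_⟩
    by_contra hlt
    have hlt := not_le.mp hlt
    apply hni
    rw [mem_interior]
    refine ⟨{y | ‖y‖ < 11/10} ∩ {y | Phi ε y < 1}, ?_, ?_, norm_lt_of_mem_Kb hε0 hε hK, hlt⟩
    · rintro y ⟨h1, h2⟩
      exact ⟨le_of_lt h1, le_of_lt h2⟩
    · exact (isOpen_lt continuous_norm continuous_const).inter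
        (isOpen_lt (continuous_Phi ε) continuous_const)
  · rintro ⟨h1, h2⟩
    refine ⟨⟨h1, h2.le⟩, not_mem_interior hε0 hε ?_ h2.ge⟩
    have h3 := (abs_le.mp (P_abs_le h1)).2
    simp only [Phi] at h2
    have : ε * P x ≤ ε * 2 := by gcongr
    by_contra hcon
    have hcon := not_le.mp hcon
    have : ‖x‖^2 < 9/16 := by nlinarith [norm_nonneg x]
    nlinarith

lemma frontier_norm {ε : ℝ} (hε0 : 0 ≤ ε) (hε : ε ≤ 1/1000) {x : E3}
    (hx : x ∈ frontier (Kb ε)) : |‖x‖ - 1| ≤ 2 * ε := by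
  rw [mem_frontier_iff hε0 hε] at hx
  obtain ⟨h1, h2⟩ := hx
  have h3 := P_abs_le h1
  simp only [Phi] at h2
  have e : (‖x‖ - 1) * (‖x‖ + 1) = - (ε * P x) := by linarith
  have h4 : |‖x‖ - 1| * (‖x‖ + 1) ≤ 2 * ε := by
    rw [← abs_of_nonneg (show (0:ℝ) ≤ ‖x‖ + 1 by positivity), ← abs_mul, e, abs_neg, abs_mul,
      abs_of_nonneg hε0]
    nlinarith
  nlinarith [abs_nonneg (‖x‖ - 1), norm_nonneg x]

lemma frontier_norm_le {ε : ℝ} (hε0 : 0 ≤ ε) (hε : ε ≤ 1/1000) {x : E3}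
    (hx : x ∈ frontier (Kb ε)) : ‖x‖ ≤ 1.01 := by
  have := (abs_le.mp (frontier_norm hε0 hε hx)).2; linarith

lemma frontier_norm_ge {ε : ℝ} (hε0 : 0 ≤ ε) (hε : ε ≤ 1/1000) {x : E3}
    (hx : x ∈ frontier (Kb ε)) : 0.99 ≤ ‖x‖ := by
  have := (abs_le.mp (frontier_norm hε0 hε hx)).1; linarith

/-- radial function to second order -/
lemma frontier_norm' {ε : ℝ} (hε0 : 0 ≤ ε) (hε : ε ≤ 1/1000) {x : E3}
    (hx : x ∈ frontier (Kb ε)) : |‖x‖ - (1 - ε/2 * P (‖x‖⁻¹ • x))| ≤ 11 * ε^2 := by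
  have hn := frontier_norm hε0 hε hx
  have hge := frontier_norm_ge hε0 hε hx
  have hpos : 0 < ‖x‖ := by linarith
  rw [mem_frontier_iff hε0 hε] at hx
  obtain ⟨h1, h2⟩ := hx
  have hP := P_abs_le h1
  set u := ‖x‖⁻¹ • x with hu
  have hun : ‖u‖ = 1 := by
    rw [hu, norm_smul, norm_inv, norm_norm, inv_mul_cancel₀ hpos.ne']
  have hxu : x - u = (‖x‖ - 1) • u := by
    rw [sub_smul, one_smul, hu, smul_smul, mul_inv_cancel₀ hpos.ne', one_smul]
  have hPl := P_lip (x := x) (y := u) h1 (by rw [hun]; norm_num)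
  rw [hxu, norm_smul, hun, mul_one, Real.norm_eq_abs] at hPl
  simp only [Phi] at h2
  set r := ‖x‖ with hr
  have e : (r - 1) * (r + 1) = - (ε * P x) := by linarith
  have e2 : (r - (1 - ε/2 * P u)) * (r + 1) = (ε/2) * (P u - P x) * (r+1) + (ε/2) * P x * (r - 1) := by
    have : (r - (1 - ε/2 * P u)) * (r + 1) = (r - 1) * (r + 1) + ε/2 * P u * (r+1) := by ring
    rw [this, e]; ring
  have h5 : |(r - (1 - ε/2 * P u)) * (r + 1)| ≤ 20 * ε^2 := by
    rw [e2]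
    refine (abs_add_le _ _).trans ?_
    rw [abs_mul, abs_mul, abs_mul, abs_mul, abs_of_nonneg (show 0 ≤ ε/2 by positivity),
      abs_sub_comm (P u) (P x), abs_of_nonneg (show 0 ≤ r + 1 by linarith)]
    have a1 : ε/2 * |P x - P u| * (r+1) ≤ ε/2 * (6 * (2*ε)) * 2.1 := by
      have : |P x - P u| ≤ 6 * (2 * ε) := by linarith
      gcongr
      linarith
    have a2 : ε/2 * |P x| * |r - 1| ≤ ε/2 * 2 * (2 * ε) := by gcongr
    nlinarith [sq_nonneg ε]
  rw [abs_mul, abs_of_nonneg (show 0 ≤ r + 1 by linarith)] at h5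
  have hr2 : 1.99 ≤ r + 1 := by linarith
  have hh := abs_nonneg (r - (1 - ε/2 * P u))
  have e4 : |r - (1 - ε/2 * P u)| * 1.99 ≤ 20 * ε^2 := by nlinarith
  nlinarith [sq_nonneg ε]

lemma frontier_norm_diff {ε : ℝ} (hε0 : 0 ≤ ε) (hε : ε ≤ 1/1000) {x y : E3}
    (hx : x ∈ frontier (Kb ε)) (hy : y ∈ frontier (Kb ε)) : |‖x‖ - ‖y‖| ≤ 4 * ε * ‖x - y‖ := by
  have hgx := frontier_norm_ge hε0 hε hx
  have hgy := frontier_norm_ge hε0 hε hy
  rw [mem_frontier_iff hε0 hε] at hx hy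
  have hPl := P_lip hx.1 hy.1
  have h1 := hx.2
  have h2 := hy.2
  simp only [Phi] at h1 h2
  have e : (‖x‖ - ‖y‖) * (‖x‖ + ‖y‖) = - (ε * (P x - P y)) := by linarith
  have h3 : |‖x‖ - ‖y‖| * (‖x‖ + ‖y‖) ≤ ε * (6 * ‖x - y‖) := by
    rw [← abs_of_nonneg (show (0:ℝ) ≤ ‖x‖ + ‖y‖ by positivity), ← abs_mul, e, abs_neg, abs_mul,
      abs_of_nonneg hε0]
    gcongr
  have hn := norm_nonneg (x - y)
  have hq : 0 ≤ ε * ‖x - y‖ := by positivity
  have h4 : |‖x‖ - ‖y‖| * 1.98 ≤ ε * (6 * ‖x - y‖) := by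
    refine le_trans ?_ h3
    gcongr
    linarith
  nlinarith

lemma exists_frontier {ε : ℝ} (hε0 : 0 ≤ ε) (hε : ε ≤ 1/1000) {u : E3} (hu : ‖u‖ = 1) :
    ∃ r : ℝ, 0 < r ∧ r • u ∈ frontier (Kb ε) := by
  have hcont : ContinuousOn (fun r : ℝ => Phi ε (r • u)) (Icc (3/4) (11/10)) :=
    ((continuous_Phi ε).comp (continuous_id.smul continuous_const)).continuousOn
  have hn : ∀ r : ℝ, 0 ≤ r → ‖r • u‖ = r := by
    intro r hr; rw [norm_smul, hu, mul_one, Real.norm_eq_abs, abs_of_nonneg hr]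
  have hlo : Phi ε ((3/4:ℝ) • u) ≤ 1 := by
    have h3 := (abs_le.mp (P_abs_le (x := (3/4:ℝ) • u) (by rw [hn _ (by norm_num)]; norm_num))).2
    simp only [Phi]
    rw [hn _ (by norm_num)]
    have : ε * P ((3/4:ℝ) • u) ≤ ε * 2 := by gcongr
    nlinarith
  have hhi : 1 ≤ Phi ε ((11/10:ℝ) • u) := by
    have h3 := (abs_le.mp (P_abs_le (x := (11/10:ℝ) • u) (by rw [hn _ (by norm_num)]))).1
    simp only [Phi]
    rw [hn _ (by norm_num)]
    have : ε * P ((11/10:ℝ) • u) ≥ ε * (-2) := by gcongr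
    nlinarith
  obtain ⟨r, hr, hr1⟩ := intermediate_value_Icc (by norm_num) hcont ⟨hlo, hhi⟩
  refine ⟨r, by linarith [hr.1], ?_⟩
  rw [mem_frontier_iff hε0 hε]
  refine ⟨?_, hr1⟩
  rw [hn _ (by linarith [hr.1])]
  exact hr.2

lemma convexOn_aux {ε : ℝ} (hε0 : 0 ≤ ε) (hε : ε ≤ 1/1000) :
    ConvexOn ℝ (Icc (-(11/10):ℝ) (11/10)) (fun a : ℝ => a^2 + ε * (a^5/4)) := by
  apply convexOn_of_deriv2_nonneg (convex_Icc _ _)
  · fun_prop
  · fun_prop
  · have : deriv (fun a : ℝ => a^2 + ε * (a^5/4)) = fun a => 2*a + ε * (5*a^4/4) := by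
      ext a
      have h : HasDerivAt (fun a : ℝ => a^2 + ε * (a^5/4)) (2*a + ε * (5*a^4/4)) a := by
        have h1 : HasDerivAt (fun a : ℝ => a^2) (2*a) a := by simpa using hasDerivAt_pow 2 a
        have h2 : HasDerivAt (fun a : ℝ => ε * (a^5/4)) (ε * (5*a^4/4)) a := by
          simpa using ((hasDerivAt_pow 5 a).div_const 4).const_mul ε
        exact h1.add h2
      exact h.deriv
    rw [this]; fun_prop
  · intro a ha
    have hd : deriv^[2] (fun a : ℝ => a^2 + ε * (a^5/4)) a = 2 + ε * (5 * a^3) := by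
      have : deriv (fun a : ℝ => a^2 + ε * (a^5/4)) = fun a => 2*a + ε * (5*a^4/4) := by
        ext a
        have h : HasDerivAt (fun a : ℝ => a^2 + ε * (a^5/4)) (2*a + ε * (5*a^4/4)) a := by
          have h1 : HasDerivAt (fun a : ℝ => a^2) (2*a) a := by simpa using hasDerivAt_pow 2 a
          have h2 : HasDerivAt (fun a : ℝ => ε * (a^5/4)) (ε * (5*a^4/4)) a := by
            simpa using ((hasDerivAt_pow 5 a).div_const 4).const_mul ε
          exact h1.add h2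
        exact h.deriv
      simp only [Function.iterate_succ, Function.iterate_zero, Function.comp, id, this]
      have h : HasDerivAt (fun a : ℝ => 2*a + ε * (5*a^4/4)) (2 + ε * (5 * a^3)) a := by
        have h1 : HasDerivAt (fun a : ℝ => 2*a) 2 a := by simpa using (hasDerivAt_id a).const_mul 2
        have h2 : HasDerivAt (fun a : ℝ => ε * (5*a^4/4)) (ε * (5*a^3)) a := by
          have := (((hasDerivAt_pow 4 a).const_mul 5).div_const 4).const_mul ε
          refine this.congr_deriv ?_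
          norm_num
          left; ring
        exact h1.add h2
      exact h.deriv
    rw [hd]
    rw [interior_Icc] at ha
    have h1 : |a| ≤ 11/10 := abs_le.mpr ⟨ha.1.le, ha.2.le⟩
    have h3 : |a^3| ≤ 2 := by
      rw [abs_pow]
      calc |a|^3 ≤ (11/10)^3 := by gcongr
        _ ≤ 2 := by norm_num
    have h4 := (abs_le.mp h3).1
    have : ε * (5 * a^3) ≥ ε * (-10) := by gcongr; linarith
    nlinarith

lemma convexOn_aux' {ε : ℝ} (hε0 : 0 ≤ ε) (hε : ε ≤ 1/1000) :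
    ConvexOn ℝ (Icc (-(11/10):ℝ) (11/10)) (fun a : ℝ => a^2 + ε * (a^3)) := by
  apply convexOn_of_deriv2_nonneg (convex_Icc _ _)
  · fun_prop
  · fun_prop
  · have : deriv (fun a : ℝ => a^2 + ε * (a^3)) = fun a => 2*a + ε * (3*a^2) := by
      ext a
      have h : HasDerivAt (fun a : ℝ => a^2 + ε * (a^3)) (2*a + ε * (3*a^2)) a := by
        have h1 : HasDerivAt (fun a : ℝ => a^2) (2*a) a := by simpa using hasDerivAt_pow 2 a
        have h2 : HasDerivAt (fun a : ℝ => ε * (a^3)) (ε * (3*a^2)) a := by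
          simpa using ((hasDerivAt_pow 3 a)).const_mul ε
        exact h1.add h2
      exact h.deriv
    rw [this]; fun_prop
  · intro a ha
    have hd : deriv^[2] (fun a : ℝ => a^2 + ε * (a^3)) a = 2 + ε * (6 * a) := by
      have : deriv (fun a : ℝ => a^2 + ε * (a^3)) = fun a => 2*a + ε * (3*a^2) := by
        ext a
        have h : HasDerivAt (fun a : ℝ => a^2 + ε * (a^3)) (2*a + ε * (3*a^2)) a := by
          have h1 : HasDerivAt (fun a : ℝ => a^2) (2*a) a := by simpa using hasDerivAt_pow 2 a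
          have h2 : HasDerivAt (fun a : ℝ => ε * (a^3)) (ε * (3*a^2)) a := by
            simpa using ((hasDerivAt_pow 3 a)).const_mul ε
          exact h1.add h2
        exact h.deriv
      simp only [Function.iterate_succ, Function.iterate_zero, Function.comp, id, this]
      have h : HasDerivAt (fun a : ℝ => 2*a + ε * (3*a^2)) (2 + ε * (6 * a)) a := by
        have h1 : HasDerivAt (fun a : ℝ => 2*a) 2 a := by simpa using (hasDerivAt_id a).const_mul 2
        have h2 : HasDerivAt (fun a : ℝ => ε * (3*a^2)) (ε * (6*a)) a := by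
          have := (((hasDerivAt_pow 2 a).const_mul 3)).const_mul ε
          refine this.congr_deriv ?_
          norm_num
          left; ring
        exact h1.add h2
      exact h.deriv
    rw [hd]
    rw [interior_Icc] at ha
    have : ε * (6 * a) ≥ ε * (-10) := by gcongr; linarith [ha.1]
    nlinarith

lemma convex_Kb {ε : ℝ} (hε0 : 0 ≤ ε) (hε : ε ≤ 1/1000) : Convex ℝ (Kb ε) := by
  intro x hx y hy a b ha hb hab
  have hnx := hx.1
  have hny := hy.1
  have hball : ‖a • x + b • y‖ ≤ 11/10 := by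
    have := (convex_closedBall (0:E3) (11/10)) (by simpa using hnx) (by simpa using hny) ha hb hab
    simpa using this
  refine ⟨hball, ?_⟩
  have mem : ∀ z : E3, ‖z‖ ≤ 11/10 → ∀ i, z i ∈ Icc (-(11/10):ℝ) (11/10) := fun z hz i =>
    abs_le.mp ((abs_coord_le z i).trans hz)
  have hPhi : ∀ z : E3, Phi ε z = ((z 0)^2 + ε * ((z 0)^5/4)) + (z 1)^2 + ((z 2)^2 + ε * (z 2)^3) := by
    intro z
    simp only [Phi, P, EuclideanSpace.norm_sq_eq, Fin.sum_univ_three, Real.norm_eq_abs, sq_abs]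
    ring
  have c0 := (convexOn_aux hε0 hε).2 (mem x hnx 0) (mem y hny 0) ha hb hab
  have c2 := (convexOn_aux' hε0 hε).2 (mem x hnx 2) (mem y hny 2) ha hb hab
  have c1 : (a * x 1 + b * y 1)^2 ≤ a * (x 1)^2 + b * (y 1)^2 := by
    have hb' : b = 1 - a := by linarith
    subst hb'
    nlinarith [mul_nonneg (mul_nonneg ha hb) (sq_nonneg (x 1 - y 1))]
  simp only [smul_eq_mul] at c0 c2
  have h1 := hx.2
  have h2 := hy.2
  rw [hPhi] at h1 h2 ⊢
  simp only [PiLp.add_apply, PiLp.smul_apply, smul_eq_mul]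
  nlinarith

lemma zero_mem_interior (ε : ℝ) : (interior (Kb ε)).Nonempty := by
  refine ⟨0, ?_⟩
  rw [mem_interior]
  refine ⟨{y | ‖y‖ < 11/10} ∩ {y | Phi ε y < 1}, ?_, ?_, by simp, by simp [Phi, P_zero]⟩
  · rintro y ⟨h1, h2⟩
    exact ⟨le_of_lt h1, le_of_lt h2⟩
  · exact (isOpen_lt continuous_norm continuous_const).inter
      (isOpen_lt (continuous_Phi ε) continuous_const)

end Pool.Agent.Lib.MP_8da474_gt
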