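import Mathlib
import Pool.Agent.Lib.MP_8da474_gt.Body

set_option autoImplicit false
set_option linter.unusedSectionVars false
set_option linter.unnecessarySimpa false

open Set Metric
open scoped ENNReal NNReal

namespace Pool.Agent.Lib.MP_8da474_gt

/-- polygons slightly inside the body can be pushed out -/
lemma dI_poly_le {ε : ℝ} (hε0 : 0 ≤ ε) (hε : ε ≤ 1/1000) {l : ℝ} (hl0 : 0 ≤ l) (hl : l ≤ 1/50)
    (y : ℕ → E3) (k : ℕ) (h0 : y 0 ∈ frontier (Kb ε)) (hk : y k ∈ frontier (Kb ε))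
    (hseg : ∀ i < k, ∀ t ∈ Icc (0:ℝ) 1, 3/4 ≤ ‖AffineMap.lineMap (y i) (y (i+1)) t‖ ∧
       ‖AffineMap.lineMap (y i) (y (i+1)) t‖ ≤ 1.05 ∧
       1 - l ≤ Phi ε (AffineMap.lineMap (y i) (y (i+1)) t)) :
    dI (frontier (Kb ε)) (y 0) (y k) ≤ ENNReal.ofReal
      ((1+l) * ∑ i ∈ Finset.range k, dist (y i) (y (i+1)) + l * (‖y 0‖+‖y k‖)) := by
  set np := npt (Kb ε) ((zero_mem_interior ε).mono interior_subset) (isClosed_Kb ε)
    (convex_Kb hε0 hε) with hnp
  have hcon : ∀ x ∈ frontier (Kb ε), np ((1+l) • x) ∈ frontier (Kb ε) ∧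
      dI (frontier (Kb ε)) x (np ((1+l) • x)) ≤ ENNReal.ofReal (l * ‖x‖) := by
    intro x hx
    have hn1 := frontier_norm_ge hε0 hε hx
    have hn2 := frontier_norm_le hε0 hε hx
    have hx' := (mem_frontier_iff hε0 hε).1 hx
    have hout : ∀ t ∈ Icc (0:ℝ) 1, (1 + t * l) • x ∉ interior (Kb ε) := by
      intro t ht
      have htl : 0 ≤ t * l := mul_nonneg ht.1 hl0
      have htl2 : t * l ≤ 1/50 := by nlinarith [ht.2]
      have h1 := Phi_scale hε0 hε (z := x) htl (by linarith) (by nlinarith)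
      apply not_mem_interior hε0 hε
      · rw [norm_smul, Real.norm_eq_abs, abs_of_nonneg (by linarith)]
        nlinarith
      · linarith [hx'.2]
    have hout1 : (1 + l) • x ∉ interior (Kb ε) := by
      simpa using hout 1 ⟨zero_le_one, le_rfl⟩
    refine ⟨npt_mem_frontier _ _ _ hout1, ?_⟩
    have hxK : x ∈ Kb ε := ⟨hx'.1, hx'.2.le⟩
    have hx2 : np x = x := npt_of_mem _ _ _ hxK
    have hd : dist x ((1+l) • x) = l * ‖x‖ := by
      rw [dist_comm, dist_eq_norm]
      have : (1 + l) • x - x = l • x := by rw [add_smul, one_smul]; abel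
      rw [this, norm_smul, Real.norm_eq_abs, abs_of_nonneg hl0]
    have := dI_npt_le ((zero_mem_interior ε).mono interior_subset) (isClosed_Kb ε)
      (convex_Kb hε0 hε) (x := x) (y := (1+l) • x) (by
        intro t ht
        have e : AffineMap.lineMap x ((1+l) • x) t = (1 + t * l) • x := by
          rw [AffineMap.lineMap_apply_module]
          module
        rw [e]
        exact hout t ht)
    rw [hd] at this
    change dI (frontier (Kb ε)) (np x) (np ((1+l) • x)) ≤ _ at this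
    rw [hx2] at this
    exact this
  have hA : ∀ j, j ≤ k → dI (frontier (Kb ε)) (np ((1+l) • y 0)) (np ((1+l) • y j)) ≤
      ENNReal.ofReal ((1+l) * ∑ i ∈ Finset.range j, dist (y i) (y (i+1))) := by
    intro j
    induction j with
    | zero =>
      intro _
      rw [dI_self (hcon _ h0).1]
      exact zero_le
    | succ j ih =>
      intro hj
      refine (dI_triangle _ _ (np ((1+l) • y j)) _).trans ?_
      rw [Finset.sum_range_succ, mul_add, ENNReal.ofReal_add (by positivity) (by positivity)]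
      refine add_le_add (ih (by omega)) ?_
      have h2 := dI_npt_le ((zero_mem_interior ε).mono interior_subset) (isClosed_Kb ε)
        (convex_Kb hε0 hε) (x := (1+l) • y j) (y := (1+l) • y (j+1)) (by
          intro t ht
          have e : AffineMap.lineMap ((1+l) • y j) ((1+l) • y (j+1)) t =
            (1+l) • AffineMap.lineMap (y j) (y (j+1)) t := by
            simp only [AffineMap.lineMap_apply_module]
            module
          rw [e]
          obtain ⟨a1, a2, a3⟩ := hseg j (by omega) t ht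
          have h3 := Phi_scale hε0 hε hl0 a1 (by nlinarith)
          apply not_mem_interior hε0 hε
          · rw [norm_smul, Real.norm_eq_abs, abs_of_nonneg (by linarith)]
            nlinarith
          · linarith)
      have hd : dist ((1+l) • y j) ((1+l) • y (j+1)) = (1+l) * dist (y j) (y (j+1)) := by
        rw [dist_eq_norm, ← smul_sub, norm_smul, Real.norm_eq_abs, abs_of_nonneg (by linarith),
          dist_eq_norm]
      rw [hd] at h2
      exact h2
  have h1 := hcon _ h0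
  have h2 := hcon _ hk
  have hs := hA k le_rfl
  have t1 := dI_triangle (frontier (Kb ε)) (y 0) (np ((1+l) • y 0)) (y k)
  have t2 := dI_triangle (frontier (Kb ε)) (np ((1+l) • y 0)) (np ((1+l) • y k)) (y k)
  have h2' := h2.2
  rw [dI_comm] at h2'
  calc dI (frontier (Kb ε)) (y 0) (y k)
      ≤ ENNReal.ofReal (l * ‖y 0‖) + (ENNReal.ofReal ((1+l) * ∑ i ∈ Finset.range k, dist (y i) (y (i+1)))
          + ENNReal.ofReal (l * ‖y k‖)) :=
        t1.trans (add_le_add h1.2 (t2.trans (add_le_add hs h2')))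
    _ = ENNReal.ofReal ((1+l) * ∑ i ∈ Finset.range k, dist (y i) (y (i+1)) + l * (‖y 0‖+‖y k‖)) := by
        rw [← ENNReal.ofReal_add (by positivity) (by positivity),
          ← ENNReal.ofReal_add (by positivity) (by positivity)]
        congr 1; ring

/-- The length of a chain. -/
noncomputable def clen (x : ℕ → E3) (k : ℕ) : ℝ := ∑ i ∈ Finset.range k, dist (x i) (x (i+1))

lemma clen_nonneg (x : ℕ → E3) (k : ℕ) : 0 ≤ clen x k := by unfold clen; positivity

lemma clen_succ (x : ℕ → E3) (k : ℕ) : clen x (k+1) = clen x k + dist (x k) (x (k+1)) := by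
  unfold clen; rw [Finset.sum_range_succ]

lemma clen_zero (x : ℕ → E3) : clen x 0 = 0 := by simp [clen]

lemma clen_mono (x : ℕ → E3) : Monotone (clen x) := by
  apply monotone_nat_of_le_succ
  intro n
  rw [clen_succ]
  linarith [dist_nonneg (x := x n) (y := x (n+1))]

lemma dist_le_clen (x : ℕ → E3) (k : ℕ) : dist (x 0) (x k) ≤ clen x k := by
  induction k with
  | zero => simp [clen_zero]
  | succ k ih =>
    rw [clen_succ]
    exact (dist_triangle _ (x k) _).trans (by linarith)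

/-- A chain on the surface. -/
def IsCh (ε δ : ℝ) (x : ℕ → E3) : Prop := (∀ i, x i ∈ frontier (Kb ε)) ∧
  ∀ i, dist (x i) (x (i+1)) ≤ δ

lemma norm_lineMap_le {a b : E3} {r t : ℝ} (ht : t ∈ Icc (0:ℝ) 1) (ha : ‖a‖ ≤ r) (hb : ‖b‖ ≤ r) :
    ‖AffineMap.lineMap a b t‖ ≤ r := by
  rw [AffineMap.lineMap_apply_module]
  refine (norm_add_le _ _).trans ?_
  rw [norm_smul, norm_smul, Real.norm_eq_abs, Real.norm_eq_abs, abs_of_nonneg ht.1,
    abs_of_nonneg (by linarith [ht.2])]
  nlinarith [ht.1, ht.2]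

lemma dist_lineMap_left' {a b : E3} {t : ℝ} (ht : t ∈ Icc (0:ℝ) 1) :
    ‖AffineMap.lineMap a b t - a‖ ≤ dist a b := by
  rw [← dist_eq_norm, dist_lineMap_left, Real.norm_eq_abs, abs_of_nonneg ht.1]
  nlinarith [ht.2, dist_nonneg (x := a) (y := b)]

/-- data along a chord -/
lemma chord_data {ε : ℝ} (hε0 : 0 ≤ ε) (hε : ε ≤ 1/1000) {a b : E3} {δ : ℝ} (hδ : δ ≤ 1/1000)
    (ha : a ∈ frontier (Kb ε)) (hb : b ∈ frontier (Kb ε)) (hab : dist a b ≤ δ)
    {t : ℝ} (ht : t ∈ Icc (0:ℝ) 1) :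
    0.98 ≤ ‖AffineMap.lineMap a b t‖ ∧ ‖AffineMap.lineMap a b t‖ ≤ 1.01 ∧
      1 - 3 * δ ≤ Phi ε (AffineMap.lineMap a b t) := by
  have hna := frontier_norm_le hε0 hε ha
  have hnb := frontier_norm_le hε0 hε hb
  have hna' := frontier_norm_ge hε0 hε ha
  have h1 := norm_lineMap_le ht hna hnb
  have h2 := dist_lineMap_left' (a := a) (b := b) ht
  have h3 : ‖AffineMap.lineMap a b t - a‖ ≤ δ := h2.trans hab
  have h4 := abs_le.mp (abs_norm_sub_norm_le (AffineMap.lineMap a b t) a)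
  have h5 := Phi_lip hε0 hε (x := AffineMap.lineMap a b t) (y := a) (by linarith) (by linarith)
  have h6 := (mem_frontier_iff hε0 hε).1 ha
  have h7 := (abs_le.mp h5).1
  rw [h6.2] at h7
  refine ⟨by linarith [h4.1], h1, by linarith⟩

/-- fine chains give upper bounds -/
lemma dI_le_chain {ε : ℝ} (hε0 : 0 ≤ ε) (hε : ε ≤ 1/1000) {δ : ℝ} (hδ0 : 0 ≤ δ) (hδ : δ ≤ 1/1000)
    {x : ℕ → E3} (hx : IsCh ε δ x) (k : ℕ) :
    dI (frontier (Kb ε)) (x 0) (x k) ≤ ENNReal.ofReal (clen x k + 3 * δ * (clen x k + 3)) := by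
  have h := dI_poly_le hε0 hε (l := 3 * δ) (by positivity) (by linarith) x k (hx.1 0) (hx.1 k) (by
    intro i _ t ht
    obtain ⟨a, b, c⟩ := chord_data hε0 hε hδ (hx.1 i) (hx.1 (i+1)) (hx.2 i) ht
    exact ⟨by linarith, by linarith, c⟩)
  refine h.trans (ENNReal.ofReal_le_ofReal ?_)
  have h1 := frontier_norm_le hε0 hε (hx.1 0)
  have h2 := frontier_norm_le hε0 hε (hx.1 k)
  have h3 := clen_nonneg x k
  change (1 + 3 * δ) * clen x k + 3 * δ * (‖x 0‖ + ‖x k‖) ≤ _
  nlinarith

/-- one step of the moved polygon -/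
lemma step_aux {w v : E3} {s : ℝ} (hs : 1/2 ≤ s) (hv : ‖v‖ ≤ 1/1000) :
    ‖w - (‖w‖ / s) • v‖ ≤ ‖w‖ - inner ℝ w v / s + ‖w‖ * (‖v‖^2 / s^2) := by
  have hspos : 0 < s := by linarith
  have hvn := norm_nonneg v
  set d := ‖w‖ with hd
  have hd0 : 0 ≤ d := norm_nonneg _
  have hsq : ‖w - (d / s) • v‖^2 = d^2 - 2 * (d/s) * inner ℝ w v
      + (d/s)^2 * ‖v‖^2 := by
    rw [norm_sub_sq_real, inner_smul_right, norm_smul, Real.norm_eq_abs,
      abs_of_nonneg (by positivity), ← hd]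
    ring
  set I := inner ℝ w v with hI
  have hIle : |I| ≤ d * ‖v‖ := by
    rw [hI, hd]; exact abs_real_inner_le_norm _ _
  have hR0 : 0 ≤ d - I / s + d * (‖v‖^2/s^2) := by
    have h1 : I / s ≤ d * ‖v‖ / s := by
      apply div_le_div_of_nonneg_right _ hspos.le
      exact (le_abs_self _).trans hIle
    have h2 : d * ‖v‖ / s ≤ d * (1/100) := by
      rw [div_le_iff₀ hspos]
      have : ‖v‖ ≤ 1/100 * s := by linarith
      nlinarith
    have : 0 ≤ d * (‖v‖^2/s^2) := by positivity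
    nlinarith
  apply le_of_sq_le_sq _ hR0
  rw [hsq]
  have e2 : (d - I / s + d * (‖v‖^2/s^2))^2 - (d^2 - 2 * (d/s) * I + (d/s)^2 * ‖v‖^2) =
      (I/s - d * (‖v‖^2/s^2))^2 + d^2*(‖v‖^2/s^2) := by
    field_simp
    ring
  have h3 : (0:ℝ) ≤ d^2*(‖v‖^2/s^2) := by positivity
  have h4 := sq_nonneg (I/s - d * (‖v‖^2/s^2))
  linarith

/-- Moving the initial point of a chain. -/
lemma shorten {ε : ℝ} (hε0 : 0 ≤ ε) (hε : ε ≤ 1/1000) {δ : ℝ} (hδ0 : 0 ≤ δ) (hδ : δ ≤ 1/1000)
    {x : ℕ → E3} (hx : IsCh ε δ x) (k : ℕ) {q : E3} (hq : q ∈ frontier (Kb ε)) {κ : ℝ}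
    (hκ0 : 0 ≤ κ) (hκ : κ ≤ 1/1000)
    (hv : ‖q - x 0‖ ≤ 1/1000) (hs1 : 1/2 ≤ clen x k) (hs2 : clen x k ≤ 4)
    (hpos : ∀ i ≤ k, - (κ * ‖q - x 0‖) ≤ inner ℝ (x i) (q - x 0)) :
    dI (frontier (Kb ε)) q (x k) ≤ ENNReal.ofReal
      (clen x k - inner ℝ (x k - x 0) (q - x 0) / clen x k + 2 * ‖q - x 0‖^2
        + 20 * ((2 * κ + 6 * ε) * ‖q - x 0‖ + 3 * δ)) := by
  set s := clen x k with hs
  have hspos : 0 < s := by linarith
  set v := q - x 0 with hvdef
  set f : ℕ → ℝ := fun i => 1 - clen x i / s with hf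
  have hf0 : f 0 = 1 := by simp [hf, clen_zero]
  have hfk : f k = 0 := by simp only [hf]; rw [← hs, div_self hspos.ne']; ring
  have hfmem : ∀ i ≤ k, 0 ≤ f i ∧ f i ≤ 1 := by
    intro i hi
    have h1 := clen_mono x hi
    have h2 := clen_nonneg x i
    simp only [hf]
    constructor
    · have : clen x i / s ≤ 1 := by rw [div_le_one hspos]; exact h1
      linarith
    · have : 0 ≤ clen x i / s := by positivity
      linarith
  set y : ℕ → E3 := fun i => x i + f i • v with hy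
  have hy0 : y 0 = q := by simp [hy, hf0, hvdef]
  have hyk : y k = x k := by simp [hy, hfk]
  set l := (2 * κ + 6 * ε) * ‖v‖ + 3 * δ with hl
  have hvn := norm_nonneg v
  have hl0 : 0 ≤ l := by positivity
  have hl1 : l ≤ 1/50 := by
    have : (2 * κ + 6 * ε) * ‖v‖ ≤ (2 * (1/1000) + 6 * (1/1000)) * (1/1000) := by gcongr
    linarith
  have hmain := dI_poly_le hε0 hε hl0 hl1 y k (by rw [hy0]; exact hq) (by rw [hyk]; exact hx.1 k) (by
    intro i hi t ht
    obtain ⟨a, b, c⟩ := chord_data hε0 hε hδ (hx.1 i) (hx.1 (i+1)) (hx.2 i) ht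
    set w := AffineMap.lineMap (x i) (x (i+1)) t with hw
    set g := (1-t) * f i + t * f (i+1) with hg
    have e : AffineMap.lineMap (y i) (y (i+1)) t = w + g • v := by
      simp only [hw, hg, hy, AffineMap.lineMap_apply_module]
      module
    rw [e]
    have hfi := hfmem i hi.le
    have hfi1 := hfmem (i+1) hi
    have hg0 : 0 ≤ g := by
      have := mul_nonneg (sub_nonneg.mpr ht.2) hfi.1
      have := mul_nonneg ht.1 hfi1.1
      linarith
    have hg1 : g ≤ 1 := by
      have : (1-t) * f i ≤ (1 - t) * 1 := by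
        apply mul_le_mul_of_nonneg_left hfi.2; linarith [ht.2]
      have : t * f (i+1) ≤ t * 1 := mul_le_mul_of_nonneg_left hfi1.2 ht.1
      linarith
    have hgv : ‖g • v‖ ≤ ‖v‖ := by
      rw [norm_smul, Real.norm_eq_abs, abs_of_nonneg hg0]
      nlinarith
    have hn := abs_le.mp (abs_norm_sub_norm_le (w + g • v) w)
    rw [add_sub_cancel_left] at hn
    have hinner : - (κ * ‖v‖) ≤ inner ℝ w v := by
      rw [hw, AffineMap.lineMap_apply_module, inner_add_left, inner_smul_left, inner_smul_left]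
      simp only [conj_trivial]
      have h1 := hpos i hi.le
      have h2 := hpos (i+1) hi
      have h3 := mul_le_mul_of_nonneg_left h1 (sub_nonneg.mpr ht.2)
      have h4 := mul_le_mul_of_nonneg_left h2 ht.1
      nlinarith
    refine ⟨by linarith [hn.1], by linarith [hn.2], ?_⟩
    have hP := P_lip (x := w + g • v) (y := w) (by linarith [hn.2]) (by linarith)
    rw [add_sub_cancel_left] at hP
    have hP1 := (abs_le.mp hP).1
    have hsq : ‖w + g • v‖^2 = ‖w‖^2 + 2 * (g * inner ℝ w v) + ‖g • v‖^2 := by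
      rw [norm_add_sq_real, inner_smul_right]
    have hgi : - (κ * ‖v‖) ≤ g * inner ℝ w v := by
      have h5 := mul_le_mul_of_nonneg_left hinner hg0
      have h6 : g * (κ * ‖v‖) ≤ 1 * (κ * ‖v‖) := mul_le_mul_of_nonneg_right hg1 (by positivity)
      linarith
    have hPε : ε * (P (w + g • v) - P w) ≥ - (6 * ε * ‖v‖) := by
      have : -(6 * ‖v‖) ≤ P (w + g • v) - P w := by linarith
      have h8 := mul_le_mul_of_nonneg_left this hε0
      linarith
    simp only [Phi] at c ⊢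
    rw [hsq]
    have := sq_nonneg ‖g • v‖
    rw [hl]
    nlinarith)
  rw [hy0, hyk] at hmain
  refine hmain.trans (ENNReal.ofReal_le_ofReal ?_)
  -- length of the new polygon
  have hstep : ∀ i ∈ Finset.range k, dist (y i) (y (i+1)) ≤ dist (x i) (x (i+1))
      - inner ℝ (x (i+1) - x i) v / s + dist (x i) (x (i+1)) * (‖v‖^2 / s^2) := by
    intro i _
    have hdn : dist (x i) (x (i+1)) = ‖x (i+1) - x i‖ := by rw [dist_comm, dist_eq_norm]
    have e : y (i+1) - y i = (x (i+1) - x i) - (‖x (i+1) - x i‖ / s) • v := by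
      simp only [hy, hf, clen_succ]
      rw [hdn, add_div]
      module
    rw [dist_comm (y i), dist_eq_norm, e, hdn]
    exact step_aux hs1 hv
  have hsum := Finset.sum_le_sum hstep
  have htel : ∑ i ∈ Finset.range k, (dist (x i) (x (i+1))
      - inner ℝ (x (i+1) - x i) v / s + dist (x i) (x (i+1)) * (‖v‖^2 / s^2)) =
      s - inner ℝ (x k - x 0) v / s + s * (‖v‖^2/s^2) := by
    rw [Finset.sum_add_distrib, Finset.sum_sub_distrib, ← Finset.sum_mul, ← Finset.sum_div]
    have : ∑ i ∈ Finset.range k, inner ℝ (x (i+1) - x i) v = inner ℝ (x k - x 0) v := by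
      rw [← sum_inner, Finset.sum_range_sub]
    rw [this, hs]
    rfl
  rw [htel] at hsum
  have h1 : s * (‖v‖^2/s^2) ≤ 2 * ‖v‖^2 := by
    have : s * (‖v‖^2/s^2) = ‖v‖^2 / s := by field_simp
    rw [this, div_le_iff₀ hspos]
    nlinarith [sq_nonneg ‖v‖]
  have hnq := frontier_norm_le hε0 hε hq
  have hnk := frontier_norm_le hε0 hε (hx.1 k)
  have hn0 := frontier_norm_le hε0 hε (hx.1 0)
  have hIk : |inner ℝ (x k - x 0) v| ≤ 3 * (1/1000) := by
    refine (abs_real_inner_le_norm _ _).trans ?_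
    have : ‖x k - x 0‖ ≤ 3 := (norm_sub_le _ _).trans (by linarith)
    gcongr
  have hIk2 : |inner ℝ (x k - x 0) v / s| ≤ 1/100 := by
    rw [abs_div, abs_of_pos hspos, div_le_iff₀ hspos]
    linarith
  have hIk3 := abs_le.mp hIk2
  have hv2 : ‖v‖^2 ≤ 1 := by nlinarith
  set I := inner ℝ (x k - x 0) v / s with hI
  set Y := ∑ i ∈ Finset.range k, dist (y i) (y (i + 1)) with hY
  have hY1 : Y ≤ s - I + 2 * ‖v‖^2 := by linarith
  have hY2 : Y ≤ 10 := by linarith [hIk3.1]
  have hlY : l * Y ≤ l * 10 := mul_le_mul_of_nonneg_left hY2 hl0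
  have hl3 : l * (‖q‖ + ‖x k‖) ≤ l * 3 := by
    apply mul_le_mul_of_nonneg_left _ hl0
    linarith
  have e : (1 + l) * Y = Y + l * Y := by ring
  rw [e]
  linarith

end Pool.Agent.Lib.MP_8da474_gt
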