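import Mathlib
import Pool.Agent.Lib.MP_8da474_gt.Shorten

set_option autoImplicit false
set_option linter.unusedSectionVars false
set_option linter.unnecessarySimpa false

open Set Metric
open scoped ENNReal NNReal

namespace Pool.Agent.Lib.MP_8da474_gt

/-- great circle -/
noncomputable def gc (a b : E3) (t : ℝ) : E3 := Real.cos t • a + Real.sin t • b

/-- orthonormal pair -/
def ON (a b : E3) : Prop := ‖a‖ = 1 ∧ ‖b‖ = 1 ∧ inner ℝ a b = (0:ℝ)

lemma continuous_gc (a b : E3) : Continuous (gc a b) := by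
  unfold gc; fun_prop

lemma inner_gc {a b : E3} (h : ON a b) (s t : ℝ) : inner ℝ (gc a b s) (gc a b t) = Real.cos (s - t) := by
  obtain ⟨ha, hb, hab⟩ := h
  have hba : inner ℝ b a = (0:ℝ) := by rw [real_inner_comm]; exact hab
  simp only [gc, inner_add_left, inner_add_right, inner_smul_left, inner_smul_right, conj_trivial,
    hab, hba, real_inner_self_eq_norm_sq, ha, hb]
  rw [Real.cos_sub]; ring

lemma norm_gc {a b : E3} (h : ON a b) (t : ℝ) : ‖gc a b t‖ = 1 := by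
  have h1 := inner_gc h t t
  rw [real_inner_self_eq_norm_sq, sub_self, Real.cos_zero] at h1
  nlinarith [norm_nonneg (gc a b t)]

lemma gc_lip {a b : E3} (h : ON a b) (s t : ℝ) : ‖gc a b s - gc a b t‖ ≤ |s - t| := by
  apply le_of_sq_le_sq _ (abs_nonneg _)
  rw [norm_sub_sq_real, norm_gc h, norm_gc h, inner_gc h, sq_abs]
  have := Real.one_sub_sq_div_two_le_cos (x := s - t)
  linarith

lemma P_gc_lip {a b : E3} (h : ON a b) (s t : ℝ) : |P (gc a b s) - P (gc a b t)| ≤ 6 * |s - t| := by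
  refine (P_lip (by rw [norm_gc h]; norm_num) (by rw [norm_gc h]; norm_num)).trans ?_
  have := gc_lip h s t
  linarith

noncomputable def Iint (a b : E3) (φ : ℝ) : ℝ := ∫ t in (0:ℝ)..φ, P (gc a b t)

lemma continuous_P_gc (a b : E3) : Continuous (fun t => P (gc a b t)) :=
  continuous_P.comp (continuous_gc a b)

lemma Iint_sub (a b : E3) (s t : ℝ) : Iint a b t - Iint a b s = ∫ τ in s..t, P (gc a b τ) := by
  unfold Iint
  exact intervalIntegral.integral_interval_sub_left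
    ((continuous_P_gc a b).intervalIntegrable _ _) ((continuous_P_gc a b).intervalIntegrable _ _)

lemma Iint_step {a b : E3} (h : ON a b) {s t : ℝ} (hst : s ≤ t) :
    |Iint a b t - Iint a b s - (t - s) * P (gc a b s)| ≤ 6 * (t - s)^2 := by
  rw [Iint_sub]
  have e : (t - s) * P (gc a b s) = ∫ _τ in s..t, P (gc a b s) := by
    rw [intervalIntegral.integral_const, smul_eq_mul]
  rw [e, ← intervalIntegral.integral_sub ((continuous_P_gc a b).intervalIntegrable _ _)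
    (by simp)]
  have := intervalIntegral.norm_integral_le_of_norm_le_const (a := s) (b := t)
    (f := fun τ => P (gc a b τ) - P (gc a b s)) (C := 6 * (t - s)) (by
      intro x hx
      rw [uIoc_of_le hst] at hx
      rw [Real.norm_eq_abs]
      refine (P_gc_lip h x s).trans ?_
      rw [abs_of_nonneg (by linarith [hx.1])]
      linarith [hx.2])
  rw [Real.norm_eq_abs, abs_of_nonneg (by linarith : 0 ≤ t - s)] at this
  nlinarith

lemma Iint_diff {a b : E3} (h : ON a b) (s t : ℝ) : |Iint a b t - Iint a b s| ≤ 2 * |t - s| := by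
  rw [Iint_sub]
  have := intervalIntegral.norm_integral_le_of_norm_le_const (a := s) (b := t)
    (f := fun τ => P (gc a b τ)) (C := 2) (by
      intro x _
      rw [Real.norm_eq_abs]
      exact P_abs_le (by rw [norm_gc h]; norm_num))
  rwa [Real.norm_eq_abs] at this

lemma Iint_zero (a b : E3) : Iint a b 0 = 0 := by simp [Iint]

lemma Iint_abs_le {a b : E3} (h : ON a b) (t : ℝ) : |Iint a b t| ≤ 2 * |t| := by
  have := Iint_diff h 0 t
  rwa [Iint_zero, sub_zero, sub_zero] at this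

lemma Iint_lip {a b a' b' : E3} (h : ON a b) (h' : ON a' b') {φ : ℝ} (hφ : 0 ≤ φ) :
    |Iint a b φ - Iint a' b' φ| ≤ 6 * (‖a - a'‖ + ‖b - b'‖) * φ := by
  unfold Iint
  rw [← intervalIntegral.integral_sub ((continuous_P_gc a b).intervalIntegrable _ _)
    ((continuous_P_gc a' b').intervalIntegrable _ _)]
  have := intervalIntegral.norm_integral_le_of_norm_le_const (a := 0) (b := φ)
    (f := fun τ => P (gc a b τ) - P (gc a' b' τ)) (C := 6 * (‖a - a'‖ + ‖b - b'‖)) (by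
      intro x _
      rw [Real.norm_eq_abs]
      refine (P_lip (by rw [norm_gc h]; norm_num) (by rw [norm_gc h']; norm_num)).trans ?_
      have e : gc a b x - gc a' b' x = Real.cos x • (a - a') + Real.sin x • (b - b') := by
        unfold gc; module
      rw [e]
      have h1 : ‖Real.cos x • (a - a') + Real.sin x • (b - b')‖ ≤ ‖a - a'‖ + ‖b - b'‖ := by
        refine (norm_add_le _ _).trans ?_
        rw [norm_smul, norm_smul, Real.norm_eq_abs, Real.norm_eq_abs]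
        have c1 := Real.abs_cos_le_one x
        have c2 := Real.abs_sin_le_one x
        have := norm_nonneg (a - a')
        have := norm_nonneg (b - b')
        nlinarith
      linarith)
  rw [Real.norm_eq_abs, sub_zero, abs_of_nonneg hφ] at this
  exact this

/-- the closed form of the half-circle integral -/
noncomputable def AA (a b : E3) : ℝ := 4/3 * (b 2)^3 + 2 * (a 2)^2 * (b 2) +
  1/4 * (16/15 * (b 0)^5 + 8/3 * (a 0)^2 * (b 0)^3 + 2 * (a 0)^4 * (b 0))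

lemma Iint_pi (a b : E3) : Iint a b Real.pi = AA a b := by
  unfold Iint
  set Q : ℝ → ℝ := fun t =>
    ((a 2)^3 * (Real.sin t - (Real.sin t)^3/3) + 3 * (a 2)^2 * (b 2) * (-(Real.cos t)^3/3)
      + 3 * (a 2) * (b 2)^2 * ((Real.sin t)^3/3) + (b 2)^3 * (-(Real.cos t) + (Real.cos t)^3/3))
    + 1/4 * ((a 0)^5 * (Real.sin t - 2 * (Real.sin t)^3/3 + (Real.sin t)^5/5)
      + 5 * (a 0)^4 * (b 0) * (-(Real.cos t)^5/5)
      + 10 * (a 0)^3 * (b 0)^2 * ((Real.sin t)^3/3 - (Real.sin t)^5/5)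
      + 10 * (a 0)^2 * (b 0)^3 * (-(Real.cos t)^3/3 + (Real.cos t)^5/5)
      + 5 * (a 0) * (b 0)^4 * ((Real.sin t)^5/5)
      + (b 0)^5 * (-(Real.cos t) + 2 * (Real.cos t)^3/3 - (Real.cos t)^5/5)) with hQ
  have hd : ∀ t, HasDerivAt Q (P (gc a b t)) t := by
    intro t
    have hs := Real.hasDerivAt_sin t
    have hc := Real.hasDerivAt_cos t
    have hs3 := hs.pow 3
    have hs5 := hs.pow 5
    have hc3 := hc.pow 3
    have hc5 := hc.pow 5
    have H := ((((hs.sub (hs3.div_const 3)).const_mul ((a 2)^3)).add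
      ((hc3.neg.div_const 3).const_mul (3 * (a 2)^2 * (b 2)))).add
      ((hs3.div_const 3).const_mul (3 * (a 2) * (b 2)^2))).add
      ((hc.neg.add (hc3.div_const 3)).const_mul ((b 2)^3))
    have H2 := (((((((hs.sub ((hs3.const_mul 2).div_const 3)).add (hs5.div_const 5)).const_mul ((a 0)^5)).add
      ((hc5.neg.div_const 5).const_mul (5 * (a 0)^4 * (b 0)))).add
      (((hs3.div_const 3).sub (hs5.div_const 5)).const_mul (10 * (a 0)^3 * (b 0)^2))).add
      (((hc3.neg.div_const 3).add (hc5.div_const 5)).const_mul (10 * (a 0)^2 * (b 0)^3))).add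
      ((hs5.div_const 5).const_mul (5 * (a 0) * (b 0)^4))).add
      (((hc.neg.add ((hc3.const_mul 2).div_const 3)).sub (hc5.div_const 5)).const_mul ((b 0)^5))
    have H3 := H.add (H2.const_mul (1/4))
    refine H3.congr_deriv ?_
    have hsc : Real.sin t ^ 2 = 1 - Real.cos t ^ 2 := by
      have := Real.sin_sq_add_cos_sq t; linarith
    simp only [P, gc, PiLp.add_apply, PiLp.smul_apply, smul_eq_mul]
    have hs4 : Real.sin t ^ 4 = (1 - Real.cos t ^ 2)^2 := by rw [← hsc]; ring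
    have e3 : Real.sin t ^ 3 = Real.sin t * (1 - Real.cos t ^ 2) := by rw [← hsc]; ring
    have e5 : Real.sin t ^ 5 = Real.sin t * (1 - Real.cos t ^ 2)^2 := by rw [← hs4]; ring
    norm_num
    ring_nf
    simp only [hsc, hs4, e3, e5]
    ring
  rw [intervalIntegral.integral_eq_sub_of_hasDerivAt (fun t _ => hd t)
    ((continuous_P_gc a b).intervalIntegrable _ _)]
  simp only [hQ, Real.sin_pi, Real.cos_pi, Real.sin_zero, Real.cos_zero, AA]
  ring

lemma Iint_split (a b : E3) : Iint a b (Real.pi/2) + Iint b (-a) (Real.pi/2) = AA a b := by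
  rw [← Iint_pi]
  have h1 : Iint b (-a) (Real.pi/2) = ∫ t in (Real.pi/2)..Real.pi, P (gc a b t) := by
    unfold Iint
    have := intervalIntegral.integral_comp_add_right (a := 0) (b := Real.pi/2)
      (fun t => P (gc a b t)) (Real.pi/2)
    rw [zero_add, add_halves] at this
    rw [← this]
    congr 1
    ext t
    congr 1
    simp only [gc, Real.cos_add_pi_div_two, Real.sin_add_pi_div_two]
    module
  rw [h1, ← Iint_sub]
  ring

/-- radial projection to the surface -/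
noncomputable def sig (ε : ℝ) (u : E3) : E3 :=
  Classical.epsilon (fun x => x ∈ frontier (Kb ε) ∧ ∃ r : ℝ, 0 < r ∧ x = r • u)

lemma sig_spec {ε : ℝ} (hε0 : 0 ≤ ε) (hε : ε ≤ 1/1000) {u : E3} (hu : ‖u‖ = 1) :
    sig ε u ∈ frontier (Kb ε) ∧ ∃ r : ℝ, 0 < r ∧ sig ε u = r • u := by
  obtain ⟨r, hr, hf⟩ := exists_frontier hε0 hε hu
  exact Classical.epsilon_spec (p := fun x => x ∈ frontier (Kb ε) ∧ ∃ r : ℝ, 0 < r ∧ x = r • u)
    ⟨r • u, hf, r, hr, rfl⟩

lemma sig_mem {ε : ℝ} (hε0 : 0 ≤ ε) (hε : ε ≤ 1/1000) {u : E3} (hu : ‖u‖ = 1) :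
    sig ε u ∈ frontier (Kb ε) := (sig_spec hε0 hε hu).1

lemma sig_eq {ε : ℝ} (hε0 : 0 ≤ ε) (hε : ε ≤ 1/1000) {u : E3} (hu : ‖u‖ = 1) :
    sig ε u = ‖sig ε u‖ • u := by
  obtain ⟨r, hr, h⟩ := (sig_spec hε0 hε hu).2
  rw [h, norm_smul, hu, mul_one, Real.norm_eq_abs, abs_of_pos hr]

lemma sig_unique {ε : ℝ} (hε0 : 0 ≤ ε) (hε : ε ≤ 1/1000) {u x : E3} (hu : ‖u‖ = 1)
    (hx : x ∈ frontier (Kb ε)) {r : ℝ} (hr : 0 < r) (hxr : x = r • u) : sig ε u = x := by
  obtain ⟨hs, r', hr', h⟩ := sig_spec hε0 hε hu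
  have h1 := frontier_norm_diff hε0 hε hs hx
  rw [h, hxr, ← sub_smul, norm_smul, norm_smul, norm_smul, hu, Real.norm_eq_abs, Real.norm_eq_abs,
    Real.norm_eq_abs, abs_of_pos hr, abs_of_pos hr', mul_one, mul_one, mul_one] at h1
  have h2 := abs_nonneg (r' - r)
  have h3 : |r' - r| = 0 := by nlinarith
  have h4 : r' = r := by
    have := abs_eq_zero.mp h3; linarith
  rw [h, hxr, h4]

/-- unit direction -/
noncomputable def dir (x : E3) : E3 := ‖x‖⁻¹ • x

lemma norm_dir {x : E3} (hx : x ≠ 0) : ‖dir x‖ = 1 := by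
  rw [dir, norm_smul, norm_inv, norm_norm, inv_mul_cancel₀ (norm_ne_zero_iff.mpr hx)]

lemma smul_dir {x : E3} (hx : x ≠ 0) : ‖x‖ • dir x = x := by
  rw [dir, smul_smul, mul_inv_cancel₀ (norm_ne_zero_iff.mpr hx), one_smul]

lemma ne_zero_of_frontier {ε : ℝ} (hε0 : 0 ≤ ε) (hε : ε ≤ 1/1000) {x : E3}
    (hx : x ∈ frontier (Kb ε)) : x ≠ 0 := by
  intro h
  have := frontier_norm_ge hε0 hε hx
  rw [h, norm_zero] at this
  norm_num at this

lemma sig_dir {ε : ℝ} (hε0 : 0 ≤ ε) (hε : ε ≤ 1/1000) {x : E3} (hx : x ∈ frontier (Kb ε)) :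
    sig ε (dir x) = x := by
  have h0 := ne_zero_of_frontier hε0 hε hx
  exact sig_unique hε0 hε (norm_dir h0) hx (norm_pos_iff.mpr h0) (smul_dir h0).symm

/-- distance between points of the surface at a small angle -/
lemma step_upper {ε : ℝ} (hε0 : 0 ≤ ε) (hε : ε ≤ 1/1000) {u w : E3} (hu : ‖u‖ = 1) (hw : ‖w‖ = 1)
    {Δ : ℝ} (hΔ0 : 0 ≤ Δ) (hΔ : Δ ≤ ε^2) (huw : Real.cos Δ ≤ inner ℝ u w) :
    ‖sig ε u - sig ε w‖ ≤ (1 - ε/2 * P u + 30 * ε^2) * Δ ∧ ‖sig ε u - sig ε w‖ ≤ 2 * Δ := by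
  have hsu := sig_mem hε0 hε hu
  have hsw := sig_mem hε0 hε hw
  have eu := sig_eq hε0 hε hu
  have ew := sig_eq hε0 hε hw
  have nu := frontier_norm_le hε0 hε hsu
  have nw := frontier_norm_le hε0 hε hsw
  have nu' := frontier_norm_ge hε0 hε hsu
  have nw' := frontier_norm_ge hε0 hε hsw
  have hd := frontier_norm_diff hε0 hε hsu hsw
  have hP := (abs_le.mp (frontier_norm' hε0 hε hsu)).2
  have hu0 : ‖sig ε u‖⁻¹ • sig ε u = u := by
    conv_lhs => rw [eu]
    rw [norm_smul, norm_norm, hu, mul_one, smul_smul, inv_mul_cancel₀ (by linarith), one_smul]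
  rw [hu0] at hP
  set X := ‖sig ε u - sig ε w‖ with hX
  set r := ‖sig ε u‖ with hr
  set r' := ‖sig ε w‖ with hr'
  have hX0 : 0 ≤ X := norm_nonneg _
  have hsq : X^2 = (r - r')^2 + 2 * (r * r') * (1 - inner ℝ u w) := by
    rw [hX, eu, ew, norm_sub_sq_real, norm_smul, norm_smul, inner_smul_left, inner_smul_right,
      hu, hw, norm_norm, norm_norm]
    simp only [conj_trivial]
    rw [← hr, ← hr']
    ring
  have hcos := Real.one_sub_sq_div_two_le_cos (x := Δ)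
  have h1 : X^2 ≤ (4 * ε * X)^2 + r * r' * Δ^2 := by
    rw [hsq]
    have a1 : (r - r')^2 ≤ (4 * ε * X)^2 := by
      rw [← sq_abs (r - r')]
      have := abs_nonneg (r - r')
      gcongr
    have a2 : 2 * (r * r') * (1 - inner ℝ u w) ≤ 2 * (r * r') * (Δ^2/2) := by
      apply mul_le_mul_of_nonneg_left _ (by positivity)
      linarith
    linarith
  have hε2 : ε^2 ≤ 1/1000000 := by nlinarith
  have h2Δ : X ≤ 2 * Δ := by
    apply le_of_sq_le_sq _ (by positivity)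
    have : r * r' ≤ 1.01 * 1.01 := by gcongr
    have h3 : r * r' * Δ^2 ≤ 1.01 * 1.01 * Δ^2 := by gcongr
    have h4 : (4 * ε * X)^2 = 16 * ε^2 * X^2 := by ring
    rw [h4] at h1
    have h5 : 16 * ε^2 * X^2 ≤ 16 * (1/1000000) * X^2 := by gcongr
    nlinarith [sq_nonneg Δ, sq_nonneg X]
  refine ⟨?_, h2Δ⟩
  -- r' ≤ r + 8 ε Δ
  have h6 : r' ≤ r + 8 * ε * Δ := by
    have := (abs_le.mp hd).1
    have h7 : 4 * ε * X ≤ 4 * ε * (2 * Δ) := by gcongr
    linarith
  have h8 : r * r' ≤ (r + 8 * ε * Δ)^2 := by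
    have h9 : r * r' ≤ r * (r + 8 * ε * Δ) := by
      apply mul_le_mul_of_nonneg_left h6 (by linarith)
    have h10 : 0 ≤ 8 * ε * Δ := by positivity
    nlinarith
  have h11 : ((1 - 16 * ε^2) * X)^2 ≤ ((r + 8 * ε * Δ) * Δ)^2 := by
    have h12 : r * r' * Δ^2 ≤ (r + 8 * ε * Δ)^2 * Δ^2 := by gcongr
    have h13 : ((r + 8 * ε * Δ) * Δ)^2 = (r + 8 * ε * Δ)^2 * Δ^2 := by ring
    rw [h13]
    have h14 : (1 - 16 * ε^2)^2 * X^2 ≤ (1 - 16 * ε^2) * X^2 := by
      apply mul_le_mul_of_nonneg_right _ (sq_nonneg _)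
      nlinarith [sq_nonneg ε]
    nlinarith
  have h15 : (1 - 16 * ε^2) * X ≤ (r + 8 * ε * Δ) * Δ :=
    le_of_sq_le_sq h11 (by positivity)
  have hε2' : 0 ≤ ε^2 := sq_nonneg _
  have h16 : r + 8 * ε * Δ ≤ 1 - ε/2 * P u + 12 * ε^2 := by
    have h17 : 8 * ε * Δ ≤ 8 * (1/1000) * ε^2 := by gcongr
    nlinarith
  have h18 : (1 - 16 * ε^2) * X ≤ (1 - ε/2 * P u + 12 * ε^2) * Δ := by
    refine h15.trans ?_
    gcongr
  have hPu := abs_le.mp (P_abs_le (x := u) (by rw [hu]; norm_num))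
  have h19 : (1 - ε/2 * P u + 12 * ε^2) ≤ (1 - 16 * ε^2) * (1 - ε/2 * P u + 30 * ε^2) := by
    have h20 : - ε ≤ ε/2 * P u := by nlinarith [hPu.1]
    have h21 : ε^2 * (ε/2 * P u) ≥ ε^2 * (-ε) := by gcongr
    have h22 : ε^2 * ε ≤ ε^2 * (1/1000) := by gcongr
    have h23 : ε^2 * ε^2 ≤ ε^2 * (1/1000000) := by gcongr
    nlinarith
  have h24 : (1 - 16 * ε^2) * X ≤ (1 - 16 * ε^2) * ((1 - ε/2 * P u + 30 * ε^2) * Δ) := by
    refine h18.trans ?_
    rw [← mul_assoc]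
    gcongr
  exact le_of_mul_le_mul_left h24 (by nlinarith)

lemma arc_upper {ε : ℝ} (hε0 : 0 < ε) (hε : ε ≤ 1/1000) {a b : E3} (h : ON a b) {φ : ℝ}
    (hφ0 : 0 ≤ φ) (hφ : φ ≤ 4) :
    dI (frontier (Kb ε)) (sig ε a) (sig ε (gc a b φ)) ≤
      ENNReal.ofReal (φ - ε/2 * Iint a b φ + 200 * ε^2) := by
  obtain ⟨N, hN⟩ := exists_nat_gt (φ/ε^2)
  have hN0 : (0:ℝ) < N := lt_of_le_of_lt (by positivity) hN
  set Δ := φ / N with hΔ
  have hΔ0 : 0 ≤ Δ := by positivity
  have hΔ1 : Δ ≤ ε^2 := by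
    rw [hΔ, div_le_iff₀ hN0]
    rw [div_lt_iff₀ (by positivity)] at hN
    linarith [mul_comm (N:ℝ) (ε^2)]
  have hε2 : ε^2 ≤ 1/1000000 := by nlinarith
  set x : ℕ → E3 := fun i => sig ε (gc a b (min (i:ℝ) N * Δ)) with hx
  have hmem : ∀ i, x i ∈ frontier (Kb ε) := fun i => sig_mem hε0.le hε (norm_gc h _)
  have hstep : ∀ i, ∃ D : ℝ, 0 ≤ D ∧ D ≤ Δ ∧ min ((i+1:ℕ):ℝ) N * Δ - min (i:ℝ) N * Δ = D := by
    intro i
    have h1 : min (i:ℝ) N ≤ min ((i+1:ℕ):ℝ) N := min_le_min_right _ (by push_cast; linarith)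
    have h2 : min ((i+1:ℕ):ℝ) N ≤ min (i:ℝ) N + 1 := by
      rw [← min_add_add_right]
      apply min_le_min
      · push_cast; exact le_rfl
      · linarith
    refine ⟨_, ?_, ?_, rfl⟩ <;> nlinarith
  have hch : IsCh ε (2 * Δ) x := by
    refine ⟨hmem, fun i => ?_⟩
    obtain ⟨D, hD0, hD1, hDe⟩ := hstep i
    have := (step_upper hε0.le hε (norm_gc h (min (i:ℝ) N * Δ)) (norm_gc h (min ((i+1:ℕ):ℝ) N * Δ)) hD0
      (hD1.trans hΔ1) (by
        rw [inner_gc h, show min (i:ℝ) N * Δ - min ((i+1:ℕ):ℝ) N * Δ = -D by linarith,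
          Real.cos_neg])).2
    rw [dist_eq_norm]
    exact this.trans (by linarith)
  have hx0 : x 0 = sig ε a := by simp [hx, gc]
  have hxN : x N = sig ε (gc a b φ) := by
    simp only [hx, min_self]
    rw [hΔ, mul_div_cancel₀ _ hN0.ne']
  have hlen : ∀ j, j ≤ N → clen x j ≤ (1 + 30 * ε^2) * (j * Δ) - ε/2 * Iint a b (j * Δ) + 3 * ε * Δ^2 * j := by
    intro j
    induction j with
    | zero => intro _; simp [clen_zero, Iint_zero]
    | succ j ih =>
      intro hj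
      have ihj := ih (by omega)
      rw [clen_succ]
      have hm1 : min (j:ℝ) N = j := min_eq_left (by exact_mod_cast (by omega : j ≤ N))
      have hm2 : min ((j+1:ℕ):ℝ) N = ((j+1:ℕ):ℝ) := min_eq_left (by exact_mod_cast hj)
      have hsu := (step_upper hε0.le hε (norm_gc h (min (j:ℝ) N * Δ)) (norm_gc h (min ((j+1:ℕ):ℝ) N * Δ)) hΔ0
        hΔ1 (by
          rw [inner_gc h, hm1, hm2, show (j:ℝ) * Δ - ((j+1:ℕ):ℝ) * Δ = -Δ by push_cast; ring,
            Real.cos_neg])).1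
      rw [← dist_eq_norm] at hsu
      have hI := Iint_step h (s := j * Δ) (t := ((j+1:ℕ):ℝ) * Δ) (by push_cast; nlinarith)
      have hI1 := (abs_le.mp hI).2
      rw [hm1] at hsu
      have e1 : ((j+1:ℕ):ℝ) * Δ - j * Δ = Δ := by push_cast; ring
      rw [e1] at hI1
      have e2 : ((j+1:ℕ):ℝ) * Δ = j * Δ + Δ := by push_cast; ring
      have e3 : ((j+1:ℕ):ℝ) = (j:ℝ) + 1 := by push_cast; ring
      change clen x j + dist (x j) (x (j+1)) ≤ _
      have hsu' : dist (x j) (x (j+1)) ≤ (1 - ε/2 * P (gc a b (j * Δ)) + 30 * ε^2) * Δ := by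
        simpa only [hx, hm1] using hsu
      have h9 : ε/2 * (Iint a b (((j+1:ℕ):ℝ) * Δ) - Iint a b (j * Δ) - Δ * P (gc a b (j * Δ))) ≤
        ε/2 * (6 * Δ^2) := by gcongr
      rw [e2] at h9 ⊢
      rw [e3]
      nlinarith
  have hc := dI_le_chain hε0.le hε (δ := 2 * Δ) (by positivity) (by linarith) hch N
  rw [hx0, hxN] at hc
  refine hc.trans (ENNReal.ofReal_le_ofReal ?_)
  have hl := hlen N le_rfl
  have e : (N:ℝ) * Δ = φ := by rw [hΔ, mul_div_cancel₀ _ hN0.ne']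
  rw [e] at hl
  have e2 : 3 * ε * Δ^2 * N = 3 * ε * Δ * φ := by rw [← e]; ring
  rw [e2] at hl
  have hI := abs_le.mp (Iint_abs_le h φ)
  rw [abs_of_nonneg hφ0] at hI
  have h1 : 3 * ε * Δ * φ ≤ 3 * (1/1000) * ε^2 * 4 := by gcongr
  have h2 : 30 * ε^2 * φ ≤ 30 * ε^2 * 4 := by gcongr
  have h3 : clen x N ≤ φ - ε/2 * Iint a b φ + 121 * ε^2 := by nlinarith
  have h4 : clen x N ≤ 5 := by
    have : ε/2 * Iint a b φ ≥ ε/2 * (-(2 * φ)) := by
      apply mul_le_mul_of_nonneg_left hI.1 (by positivity)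
    nlinarith
  have h5 : 3 * (2 * Δ) * (clen x N + 3) ≤ 3 * (2 * ε^2) * (5 + 3) := by
    have := clen_nonneg x N
    gcongr
  linarith

end Pool.Agent.Lib.MP_8da474_gt
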