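import Mathlib
import Pool.Agent.Lib.MP_8da474_gt.Arc

set_option autoImplicit false
set_option linter.unusedSectionVars false
set_option linter.unnecessarySimpa false

open Set Metric
open scoped ENNReal NNReal

namespace Pool.Agent.Lib.MP_8da474_gt

lemma arcsin_bound_pos {t : ℝ} (h0 : 0 ≤ t) (h1 : t ≤ 1/2) : t ≤ Real.arcsin t ∧ Real.arcsin t ≤ t + t^3 := by
  have hpi := Real.pi_gt_three
  constructor
  · rw [Real.le_arcsin_iff_sin_le ⟨by linarith, by linarith⟩ ⟨by linarith, by linarith⟩]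
    exact Real.sin_le h0
  · have ht3 : t^3 ≤ 1/8 := by
      calc t^3 ≤ (1/2)^3 := by gcongr
        _ = 1/8 := by norm_num
    have ht3' : 0 ≤ t^3 := by positivity
    rw [Real.arcsin_le_iff_le_sin ⟨by linarith, by linarith⟩ ⟨by linarith, by linarith⟩]
    rcases eq_or_lt_of_le h0 with h | h
    · rw [← h]; simp
    · have hs := Real.sin_gt_sub_cube (x := t + t^3) (by positivity)
      have h2 : (t + t^3)^3 ≤ 4 * t^3 := by
        have e : t + t^3 = t * (1 + t^2) := by ring
        rw [e, mul_pow]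
        have ht2 : t^2 ≤ 1/4 := by nlinarith
        have : (1 + t^2)^3 ≤ (1 + 1/4)^3 := by gcongr
        have h3 : (1 + t^2)^3 ≤ 4 := this.trans (by norm_num)
        nlinarith
      linarith

lemma arcsin_bound {t : ℝ} (h : |t| ≤ 1/2) : |Real.arcsin t - t| ≤ |t|^3 := by
  rcases le_total 0 t with h0 | h0
  · rw [abs_of_nonneg h0] at h ⊢
    have := arcsin_bound_pos h0 h
    rw [abs_le]; constructor <;> nlinarith [this.1, this.2, pow_nonneg h0 3]
  · rw [abs_of_nonpos h0] at h ⊢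
    have := arcsin_bound_pos (t := -t) (by linarith) h
    rw [Real.arcsin_neg] at this
    have h3 : 0 ≤ (-t)^3 := by
      have : 0 ≤ -t := by linarith
      positivity
    rw [abs_le]; constructor <;> linarith [this.1, this.2]

lemma arccos_bound {t : ℝ} (h : |t| ≤ 1/2) : |Real.arccos t - (Real.pi/2 - t)| ≤ |t|^3 := by
  have := arcsin_bound h
  rw [Real.arccos]
  rw [show Real.pi/2 - Real.arcsin t - (Real.pi/2 - t) = -(Real.arcsin t - t) by ring, abs_neg]
  exact this

/-- extension of a unit vector / orthonormal pair -/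
lemma exists_perp {a : E3} (ha : ‖a‖ = 1) : ∃ b, ON a b := by
  have hv : Orthonormal ℝ (Set.domRestrict {(0 : Fin 3)} (fun _ : Fin 3 => a)) := by
    rw [orthonormal_iff_ite]
    rintro ⟨i, hi⟩ ⟨j, hj⟩
    simp only [mem_singleton_iff] at hi hj
    subst hi; subst hj
    simp only [Set.domRestrict_apply, real_inner_self_eq_norm_sq, ha]
    norm_num
  obtain ⟨b, hb⟩ := hv.exists_orthonormalBasis_extension_of_card_eq (by simp)
  have h0 := hb 0 (by simp)
  have ho := b.orthonormal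
  refine ⟨b 1, ha, ho.1 1, ?_⟩
  rw [← h0]
  exact ho.2 (by decide)

lemma exists_frame {a b : E3} (h : ON a b) : ∃ f, ON a f ∧ ON b f ∧
    ∀ x : E3, ‖x‖^2 = (inner ℝ a x)^2 + (inner ℝ b x)^2 + (inner ℝ f x)^2 := by
  obtain ⟨ha, hb, hab⟩ := h
  have hba : inner ℝ b a = (0:ℝ) := by rw [real_inner_comm]; exact hab
  have hv : Orthonormal ℝ (Set.domRestrict {(0 : Fin 3), 1} (fun i : Fin 3 => if i = 0 then a else b)) := by
    rw [orthonormal_iff_ite]
    rintro ⟨i, hi⟩ ⟨j, hj⟩
    simp only [mem_insert_iff, mem_singleton_iff] at hi hj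
    rcases hi with rfl | rfl <;> rcases hj with rfl | rfl <;>
      simp only [Set.domRestrict_apply] <;>
      norm_num [real_inner_self_eq_norm_sq, ha, hb, hab, hba]
  obtain ⟨e, he⟩ := hv.exists_orthonormalBasis_extension_of_card_eq (by simp)
  have h0 : e 0 = a := by simpa using he 0 (by simp)
  have h1 : e 1 = b := by simpa using he 1 (by simp)
  have ho := e.orthonormal
  refine ⟨e 2, ⟨ha, ho.1 2, ?_⟩, ⟨hb, ho.1 2, ?_⟩, ?_⟩
  · rw [← h0]; exact ho.2 (by decide)
  · rw [← h1]; exact ho.2 (by decide)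
  · intro x
    have := e.sum_sq_norm_inner_right x
    rw [Fin.sum_univ_three, h0, h1] at this
    simp only [Real.norm_eq_abs, sq_abs] at this
    exact this.symm

lemma cos_angle_unit {a c : E3} (ha : ‖a‖ = 1) (hc : ‖c‖ = 1) :
    Real.cos (InnerProductGeometry.angle a c) = inner ℝ a c := by
  have := InnerProductGeometry.cos_angle_mul_norm_mul_norm a c
  rw [ha, hc, mul_one, mul_one] at this
  exact this

lemma exists_gc {a c : E3} (ha : ‖a‖ = 1) (hc : ‖c‖ = 1) :
    ∃ b, ON a b ∧ c = gc a b (InnerProductGeometry.angle a c) := by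
  set φ := InnerProductGeometry.angle a c with hφ
  have hcos : Real.cos φ = inner ℝ a c := cos_angle_unit ha hc
  have hsin0 : 0 ≤ Real.sin φ := Real.sin_nonneg_of_nonneg_of_le_pi
    (InnerProductGeometry.angle_nonneg _ _) (InnerProductGeometry.angle_le_pi _ _)
  set w := c - Real.cos φ • a with hw
  have hw2 : ‖w‖^2 = (Real.sin φ)^2 := by
    rw [hw, norm_sub_sq_real, inner_smul_right, norm_smul, ha, hc, real_inner_comm, ← hcos,
      Real.norm_eq_abs, mul_one, sq_abs]
    have := Real.sin_sq_add_cos_sq φ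
    linarith
  have hwn : ‖w‖ = Real.sin φ := by
    rw [sq_eq_sq₀ (norm_nonneg _) hsin0] at hw2
    exact hw2
  by_cases hz : Real.sin φ = 0
  · obtain ⟨b, hb⟩ := exists_perp ha
    refine ⟨b, hb, ?_⟩
    have hw0 : w = 0 := by rw [← norm_eq_zero, hwn, hz]
    rw [gc, hz, zero_smul, add_zero]
    rw [hw, sub_eq_zero] at hw0
    exact hw0
  · refine ⟨(Real.sin φ)⁻¹ • w, ⟨ha, ?_, ?_⟩, ?_⟩
    · rw [norm_smul, hwn, norm_inv, Real.norm_eq_abs, abs_of_nonneg hsin0, inv_mul_cancel₀ hz]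
    · rw [inner_smul_right, hw, inner_sub_right, inner_smul_right, real_inner_self_eq_norm_sq, ha,
        ← hcos]
      ring
    · rw [gc, smul_smul, mul_inv_cancel₀ hz, one_smul, hw]
      abel

/-- crude upper bound -/
lemma upper_far {ε : ℝ} (hε0 : 0 < ε) (hε : ε ≤ 1/1000) {a c : E3} (ha : ‖a‖ = 1) (hc : ‖c‖ = 1) :
    dI (frontier (Kb ε)) (sig ε a) (sig ε c) ≤
      ENNReal.ofReal ((1 + ε) * InnerProductGeometry.angle a c + 200 * ε^2) := by
  obtain ⟨b, hb, hcb⟩ := exists_gc ha hc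
  have h0 := InnerProductGeometry.angle_nonneg a c
  have h1 := InnerProductGeometry.angle_le_pi a c
  have hpi := Real.pi_le_four
  have h := arc_upper hε0 hε hb h0 (h1.trans hpi)
  rw [← hcb] at h
  refine h.trans (ENNReal.ofReal_le_ofReal ?_)
  have hI := (abs_le.mp (Iint_abs_le hb (InnerProductGeometry.angle a c))).1
  rw [abs_of_nonneg h0] at hI
  nlinarith

/-- precise upper bound near the antipode -/
lemma upper_near {ε : ℝ} (hε0 : 0 < ε) (hε : ε ≤ 1/1000) {a m c : E3} (h : ON a m) (hc : ‖c‖ = 1)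
    (hac : ‖c + a‖ ≤ 20 * ε) :
    dI (frontier (Kb ε)) (sig ε a) (sig ε c) ≤
      ENNReal.ofReal (Real.pi - inner ℝ m c - ε/2 * AA a m + 700 * ε^2) := by
  obtain ⟨ha, hm, ham⟩ := h
  have hε2 : 0 ≤ ε^2 := sq_nonneg _
  set τ := inner ℝ m c with hτ
  have hτ2 : τ = inner ℝ m (c + a) := by
    rw [inner_add_right, real_inner_comm a m, ham, add_zero]
  have hτa : |τ| ≤ 20 * ε := by
    rw [hτ2]
    refine (abs_real_inner_le_norm _ _).trans ?_
    rw [hm, one_mul]; exact hac
  have hτh : |τ| ≤ 1/2 := by linarith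
  have hτ1 := abs_le.mp hτa
  have hτsq : τ^2 ≤ 400 * ε^2 := by
    rw [← sq_abs]
    calc |τ|^2 ≤ (20*ε)^2 := by gcongr
      _ = 400 * ε^2 := by ring
  have hτsq1 : τ^2 ≤ 1/1000 := by nlinarith
  set φ := Real.arccos τ with hφ
  have hcos : Real.cos φ = τ := Real.cos_arccos (by linarith [hτ1.1]) (by linarith [hτ1.2])
  have hφ0 : 0 ≤ φ := Real.arccos_nonneg _
  have hφpi : φ ≤ Real.pi := Real.arccos_le_pi _
  have hpi4 := Real.pi_le_four
  have hpi3 := Real.pi_gt_three
  set s := Real.sin φ with hs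
  have hs0 : 0 ≤ s := Real.sin_nonneg_of_nonneg_of_le_pi hφ0 hφpi
  have hssq : s^2 = 1 - τ^2 := by
    have := Real.sin_sq_add_cos_sq φ
    rw [hcos] at this
    rw [hs]; linarith
  have hs1 : 1 - τ^2 ≤ s := by
    have : s ≤ 1 := Real.sin_le_one _
    nlinarith
  have hsle : s ≤ 1 := Real.sin_le_one _
  have hspos : 0.99 < s := by linarith
  set n := s⁻¹ • (c - τ • m) with hn
  have hnm : s • n = c - τ • m := by rw [hn, smul_smul, mul_inv_cancel₀ (by linarith), one_smul]
  have hw2 : ‖c - τ • m‖^2 = s^2 := by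
    rw [norm_sub_sq_real, inner_smul_right, norm_smul, hm, hc, real_inner_comm, ← hτ,
      Real.norm_eq_abs, mul_one, sq_abs, hssq]
    ring
  have hw3 : ‖c - τ • m‖ = s := by
    rw [sq_eq_sq₀ (norm_nonneg _) hs0] at hw2
    exact hw2
  have hnn : ‖n‖ = 1 := by
    rw [hn, norm_smul, hw3, norm_inv, Real.norm_eq_abs, abs_of_nonneg hs0,
      inv_mul_cancel₀ (by linarith)]
  have hmn : inner ℝ m n = (0:ℝ) := by
    rw [hn, inner_smul_right, inner_sub_right, inner_smul_right, real_inner_self_eq_norm_sq, hm,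
      ← hτ]
    ring
  have honm : ON m n := ⟨hm, hnn, hmn⟩
  have hcgc : c = gc m n φ := by
    rw [gc, hcos, ← hs, hnm]; abel
  have hna : ‖n - (-a)‖ ≤ 41 * ε := by
    have e : s • (n - (-a)) = (c + a) - τ • m - (1 - s) • a := by
      rw [smul_sub, hnm]; module
    have h1 : s * ‖n - (-a)‖ ≤ 20 * ε + 20 * ε + 400 * ε^2 := by
      have : s * ‖n - (-a)‖ = ‖s • (n - (-a))‖ := by
        rw [norm_smul, Real.norm_eq_abs, abs_of_nonneg hs0]
      rw [this, e]
      refine (norm_sub_le _ _).trans ?_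
      have h2 : ‖c + a - τ • m‖ ≤ 20 * ε + 20 * ε := by
        refine (norm_sub_le _ _).trans ?_
        rw [norm_smul, hm, mul_one, Real.norm_eq_abs]
        linarith
      have h3 : ‖(1 - s) • a‖ ≤ 400 * ε^2 := by
        rw [norm_smul, ha, mul_one, Real.norm_eq_abs, abs_of_nonneg (by linarith)]
        linarith
      linarith
    have h4 : 0.999 ≤ s := by linarith
    have h5 : 0.999 * ‖n - (-a)‖ ≤ s * ‖n - (-a)‖ := by gcongr
    have h6 : 400 * ε^2 ≤ 0.4 * ε := by nlinarith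
    linarith
  have hna' : ON m (-a) := by
    refine ⟨hm, by rw [norm_neg]; exact ha, ?_⟩
    rw [inner_neg_right, real_inner_comm, ham, neg_zero]
  have A1 := arc_upper hε0 hε ⟨ha, hm, ham⟩ (φ := Real.pi/2) (by linarith) (by linarith)
  have hgc1 : gc a m (Real.pi/2) = m := by simp [gc]
  rw [hgc1] at A1
  have A2 := arc_upper hε0 hε honm hφ0 (hφpi.trans hpi4)
  rw [← hcgc] at A2
  have I1 := (abs_le.mp (Iint_diff honm (Real.pi/2) φ)).1
  have I2 := (abs_le.mp (Iint_lip honm hna' (φ := Real.pi/2) (by linarith))).1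
  have I3 := Iint_split a m
  rw [sub_self, norm_zero, zero_add] at I2
  have hac2 := arccos_bound hτh
  rw [← hφ] at hac2
  have hτ3 : |τ|^3 ≤ 8 * ε^2 := by
    calc |τ|^3 = |τ|^2 * |τ| := by ring
      _ ≤ (20 * ε)^2 * (20 * ε) := by gcongr
      _ = 8000 * ε^2 * ε := by ring
      _ ≤ 8000 * ε^2 * (1/1000) := by gcongr
      _ = 8 * ε^2 := by ring
  have hφd : |φ - Real.pi/2| ≤ 21 * ε := by
    have h1 : |φ - Real.pi/2| ≤ |φ - (Real.pi/2 - τ)| + |τ| := by
      have : φ - Real.pi/2 = (φ - (Real.pi/2 - τ)) + (-τ) := by ring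
      rw [this]
      refine (abs_add_le _ _).trans ?_
      rw [abs_neg]
    nlinarith
  refine (dI_triangle _ _ (sig ε m) _).trans ?_
  have hI1 := (abs_le.mp (Iint_abs_le (⟨ha, hm, ham⟩ : ON a m) (Real.pi/2))).2
  rw [abs_of_nonneg (by linarith)] at hI1
  have hI2 := (abs_le.mp (Iint_abs_le honm φ)).2
  rw [abs_of_nonneg hφ0] at hI2
  have hφl := (abs_le.mp hφd).1
  refine (add_le_add A1 A2).trans ?_
  rw [← ENNReal.ofReal_add]
  · apply ENNReal.ofReal_le_ofReal
    have h1 : Iint m n φ ≥ Iint m (-a) (Real.pi/2) - 6 * (41 * ε) * 2 - 2 * (21 * ε) := by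
      have : 6 * ‖n - (-a)‖ * (Real.pi/2) ≤ 6 * (41 * ε) * 2 := by gcongr; linarith
      linarith
    have h2 : Iint a m (Real.pi/2) + Iint m n φ ≥ AA a m - 540 * ε := by linarith
    have h3 : ε/2 * (Iint a m (Real.pi/2) + Iint m n φ) ≥ ε/2 * (AA a m - 540 * ε) := by gcongr
    have h4 := (abs_le.mp hac2).2
    nlinarith
  · nlinarith
  · nlinarith

end Pool.Agent.Lib.MP_8da474_gt
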