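import Mathlib
import Pool.Agent.Lib.MP_8da474_gt.Upper

set_option autoImplicit false
set_option linter.unusedSectionVars false
set_option linter.unnecessarySimpa false

open Set Metric
open scoped ENNReal NNReal

namespace Pool.Agent.Lib.MP_8da474_gt

lemma AA_neg (a b : E3) : AA a (-b) = - AA a b := by
  simp only [AA, PiLp.neg_apply]; ring

lemma ON.neg {a b : E3} (h : ON a b) : ON a (-b) := by
  obtain ⟨ha, hb, hab⟩ := h
  exact ⟨ha, by rw [norm_neg]; exact hb, by rw [inner_neg_right, hab, neg_zero]⟩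

/-- combination of orthonormal vectors -/
lemma ON.comb {p e f : E3} (h1 : ON p e) (h2 : ON p f) (h3 : ON e f) {x y : ℝ} (hxy : x^2 + y^2 = 1) :
    ON p (x • e + y • f) := by
  obtain ⟨hp, he, hpe⟩ := h1
  obtain ⟨_, hf, hpf⟩ := h2
  obtain ⟨_, _, hef⟩ := h3
  refine ⟨hp, ?_, ?_⟩
  · have : ‖x • e + y • f‖^2 = 1 := by
      rw [norm_add_sq_real, inner_smul_left, inner_smul_right, hef, norm_smul, norm_smul, he, hf,
        Real.norm_eq_abs, Real.norm_eq_abs, mul_one, mul_one, sq_abs, sq_abs]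
      simp only [conj_trivial]; linarith
    nlinarith [norm_nonneg (x • e + y • f)]
  · rw [inner_add_right, inner_smul_right, inner_smul_right, hpe, hpf]; ring

lemma norm_sq3 (x : E3) : ‖x‖^2 = (x 0)^2 + (x 1)^2 + (x 2)^2 := by
  simp only [EuclideanSpace.norm_sq_eq, Fin.sum_univ_three, Real.norm_eq_abs, sq_abs]

lemma inner3 (x y : E3) : inner ℝ x y = x 0 * y 0 + x 1 * y 1 + x 2 * y 2 := by
  simp only [PiLp.inner_apply, Fin.sum_univ_three, RCLike.inner_apply, conj_trivial]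
  ring

lemma ON_of_coords {x y : E3} (h1 : (x 0)^2 + (x 1)^2 + (x 2)^2 = 1)
    (h2 : (y 0)^2 + (y 1)^2 + (y 2)^2 = 1) (h3 : x 0 * y 0 + x 1 * y 1 + x 2 * y 2 = 0) : ON x y := by
  refine ⟨?_, ?_, ?_⟩
  · have := norm_sq3 x; rw [h1] at this; nlinarith [norm_nonneg x]
  · have := norm_sq3 y; rw [h2] at this; nlinarith [norm_nonneg y]
  · rw [inner3]; exact h3

/-- the functional minimised in the upper bound -/
noncomputable def FF (p z m : E3) : ℝ := inner ℝ m z + 1/2 * AA p m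

lemma FF_neg (p z m : E3) : FF p z (-m) = - FF p z m := by
  simp only [FF, AA_neg, inner_neg_left]; ring

lemma FF_abs {p z : E3} {c : ℝ} (hcon : ∀ m, ON p m → FF p z m < c) {m : E3} (hm : ON p m) :
    |FF p z m| < c := by
  rw [abs_lt]
  have h1 := hcon m hm
  have h2 := hcon (-m) hm.neg
  rw [FF_neg] at h2
  constructor <;> linarith

lemma weights_case1 {p : E3} (hp : ‖p‖ = 1) (hr : (p 0)^2 ≤ 3/4) (z : E3) :
    ∃ m, ON p m ∧ 15/100000 ≤ FF p z m := by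
  by_contra hcon
  push Not at hcon
  have hp2 : (p 0)^2 + (p 1)^2 + (p 2)^2 = 1 := by rw [← norm_sq3, hp]; norm_num
  set r := Real.sqrt (1 - (p 0)^2) with hrdef
  have hr2 : r^2 = 1 - (p 0)^2 := Real.sq_sqrt (by linarith)
  have hr0 : 1/2 ≤ r := by
    apply Real.le_sqrt_of_sq_le
    norm_num; linarith
  have hrne : r ≠ 0 := by linarith
  set e : E3 := !₂[r, -(p 0 * p 1)/r, -(p 0 * p 2)/r] with he
  set f : E3 := !₂[0, p 2/r, -(p 1)/r] with hf
  have e0 : e 0 = r := by simp [he]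
  have e1 : e 1 = -(p 0 * p 1)/r := by simp [he]
  have e2 : e 2 = -(p 0 * p 2)/r := by simp [he]
  have f0 : f 0 = 0 := by simp [hf]
  have f1 : f 1 = p 2/r := by simp [hf]
  have f2 : f 2 = -(p 1)/r := by simp [hf]
  have hp12 : (p 1)^2 + (p 2)^2 = r^2 := by linarith
  have hee : (e 0)^2 + (e 1)^2 + (e 2)^2 = 1 := by
    rw [e0, e1, e2]
    field_simp
    nlinarith
  have hff : (f 0)^2 + (f 1)^2 + (f 2)^2 = 1 := by
    rw [f0, f1, f2]
    field_simp
    nlinarith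
  have hpe : p 0 * e 0 + p 1 * e 1 + p 2 * e 2 = 0 := by
    rw [e0, e1, e2]
    field_simp
    linear_combination (-(p 0)) * hp12
  have hpf : p 0 * f 0 + p 1 * f 1 + p 2 * f 2 = 0 := by
    rw [f0, f1, f2]
    field_simp
    ring
  have hef : e 0 * f 0 + e 1 * f 1 + e 2 * f 2 = 0 := by
    rw [e0, e1, e2, f0, f1, f2]
    field_simp
    ring
  have one : ON p e := ON_of_coords hp2 hee hpe
  have opf : ON p f := ON_of_coords hp2 hff hpf
  have oef : ON e f := ON_of_coords hee hff hef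
  have b1 := abs_lt.mp (FF_abs hcon one)
  have b2 := abs_lt.mp (FF_abs hcon (one.comb opf oef (x := 4/5) (y := 3/5) (by norm_num)))
  have b3 := abs_lt.mp (FF_abs hcon (one.comb opf oef (x := 4/5) (y := -3/5) (by norm_num)))
  have b4 := abs_lt.mp (FF_abs hcon (one.comb opf oef (x := 3/5) (y := 4/5) (by norm_num)))
  have b5 := abs_lt.mp (FF_abs hcon (one.comb opf oef (x := 3/5) (y := -4/5) (by norm_num)))
  have key : -14/5 * FF p z e + 4 * FF p z ((4/5:ℝ) • e + (3/5:ℝ) • f)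
      + 4 * FF p z ((4/5:ℝ) • e + (-3/5:ℝ) • f) - 3 * FF p z ((3/5:ℝ) • e + (4/5:ℝ) • f)
      - 3 * FF p z ((3/5:ℝ) • e + (-4/5:ℝ) • f) = -(2/15) * (2016/3125) * r^5 := by
    simp only [FF, AA, inner_add_left, inner_smul_left, conj_trivial, PiLp.add_apply,
      PiLp.smul_apply, smul_eq_mul, e0, f0]
    ring
  have hr5 : (1/32:ℝ) ≤ r^5 := by
    calc (1/32:ℝ) = (1/2)^5 := by norm_num
      _ ≤ r^5 := by gcongr
  linarith [b1.1, b1.2, b2.1, b2.2, b3.1, b3.2, b4.1, b4.2, b5.1, b5.2]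

lemma weights_case2 {p : E3} (hp : ‖p‖ = 1) (hr : 3/4 ≤ (p 0)^2) (z : E3) :
    ∃ m, ON p m ∧ 15/100000 ≤ FF p z m := by
  by_contra hcon
  push Not at hcon
  have hp2 : (p 0)^2 + (p 1)^2 + (p 2)^2 = 1 := by rw [← norm_sq3, hp]; norm_num
  set r := Real.sqrt (1 - (p 2)^2) with hrdef
  have hr2 : r^2 = 1 - (p 2)^2 := Real.sq_sqrt (by nlinarith [sq_nonneg (p 1), sq_nonneg (p 0)])
  have hr2' : 3/4 ≤ r^2 := by nlinarith [sq_nonneg (p 1)]
  have hr00 : 0 ≤ r := Real.sqrt_nonneg _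
  have hr0 : 0.866 ≤ r := by nlinarith
  have hrne : r ≠ 0 := by linarith
  set e : E3 := !₂[-(p 0 * p 2)/r, -(p 1 * p 2)/r, r] with he
  set f : E3 := !₂[p 1/r, -(p 0)/r, 0] with hf
  have e0 : e 0 = -(p 0 * p 2)/r := by simp [he]
  have e1 : e 1 = -(p 1 * p 2)/r := by simp [he]
  have e2 : e 2 = r := by simp [he]
  have f0 : f 0 = p 1/r := by simp [hf]
  have f1 : f 1 = -(p 0)/r := by simp [hf]
  have f2 : f 2 = 0 := by simp [hf]
  have hp12 : (p 0)^2 + (p 1)^2 = r^2 := by linarith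
  have hee : (e 0)^2 + (e 1)^2 + (e 2)^2 = 1 := by
    rw [e0, e1, e2]
    field_simp
    nlinarith
  have hff : (f 0)^2 + (f 1)^2 + (f 2)^2 = 1 := by
    rw [f0, f1, f2]
    field_simp
    nlinarith
  have hpe : p 0 * e 0 + p 1 * e 1 + p 2 * e 2 = 0 := by
    rw [e0, e1, e2]
    field_simp
    linear_combination (-(p 2)) * hp12
  have hpf : p 0 * f 0 + p 1 * f 1 + p 2 * f 2 = 0 := by
    rw [f0, f1, f2]
    field_simp
    ring
  have hef : e 0 * f 0 + e 1 * f 1 + e 2 * f 2 = 0 := by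
    rw [e0, e1, e2, f0, f1, f2]
    field_simp
    ring
  have one : ON p e := ON_of_coords hp2 hee hpe
  have opf : ON p f := ON_of_coords hp2 hff hpf
  have oef : ON e f := ON_of_coords hee hff hef
  have hef0 : (e 0)^2 + (f 0)^2 ≤ 1/4 := by
    have : (e 0)^2 + (f 0)^2 = 1 - (p 0)^2 := by
      rw [e0, f0]
      have h1 : (-(p 0 * p 2) / r) ^ 2 + (p 1 / r) ^ 2 = ((p 0)^2*(p 2)^2 + (p 1)^2)/r^2 := by
        field_simp
      rw [h1, div_eq_iff (by positivity)]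
      have h2 : (p 2)^2 = 1 - r^2 := by linarith
      have h3 : (p 1)^2 = r^2 - (p 0)^2 := by linarith
      rw [h2, h3]; ring
    linarith
  have b1 := abs_lt.mp (FF_abs hcon one)
  have b2 := abs_lt.mp (FF_abs hcon (one.comb opf oef (x := 3/5) (y := 4/5) (by norm_num)))
  have b3 := abs_lt.mp (FF_abs hcon (one.comb opf oef (x := 3/5) (y := -4/5) (by norm_num)))
  set α := e 0 with hα
  set β := 3/5 * e 0 + 4/5 * f 0 with hβ
  set γ := 3/5 * e 0 + -4/5 * f 0 with hγ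
  have key : -6/5 * FF p z e + FF p z ((3/5:ℝ) • e + (4/5:ℝ) • f)
      + FF p z ((3/5:ℝ) • e + (-4/5:ℝ) • f) = -(2/3) * (96/125) * r^3
        + 1/8 * (16/15 * (-6/5 * α^5 + β^5 + γ^5) + 8/3 * (p 0)^2 * (-6/5 * α^3 + β^3 + γ^3)) := by
    simp only [FF, AA, inner_add_left, inner_smul_left, conj_trivial, PiLp.add_apply,
      PiLp.smul_apply, smul_eq_mul, e2, f2, hα, hβ, hγ]
    ring
  have habs : ∀ t : ℝ, t^2 ≤ 1/4 → |t|^3 ≤ 1/8 ∧ |t|^5 ≤ 1/32 := by
    intro t ht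
    have h1 : |t| ≤ 1/2 := by
      apply le_of_sq_le_sq _ (by norm_num)
      rw [sq_abs]; norm_num; linarith
    constructor
    · calc |t|^3 ≤ (1/2)^3 := by gcongr
        _ = 1/8 := by norm_num
    · calc |t|^5 ≤ (1/2)^5 := by gcongr
        _ = 1/32 := by norm_num
  have hα2 : α^2 ≤ 1/4 := by nlinarith [sq_nonneg (f 0)]
  have hβ2 : β^2 ≤ 1/4 := by
    have : β^2 + (4/5 * e 0 - 3/5 * f 0)^2 = (e 0)^2 + (f 0)^2 := by rw [hβ]; ring
    nlinarith [sq_nonneg (4/5 * e 0 - 3/5 * f 0)]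
  have hγ2 : γ^2 ≤ 1/4 := by
    have : γ^2 + (4/5 * e 0 + 3/5 * f 0)^2 = (e 0)^2 + (f 0)^2 := by rw [hγ]; ring
    nlinarith [sq_nonneg (4/5 * e 0 + 3/5 * f 0)]
  have p0le : (p 0)^2 ≤ 1 := by nlinarith [sq_nonneg (p 1), sq_nonneg (p 2)]
  have A := habs α hα2
  have B := habs β hβ2
  have C := habs γ hγ2
  rw [← abs_pow, ← abs_pow] at A B C
  have A3 := abs_le.mp A.1
  have A5 := abs_le.mp A.2
  have B3 := abs_le.mp B.1
  have B5 := abs_le.mp B.2
  have C3 := abs_le.mp C.1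
  have C5 := abs_le.mp C.2
  have T3 : -6/5 * α^3 + β^3 + γ^3 ≤ 0.4 := by linarith [A3.1, B3.2, C3.2]
  have T5 : -6/5 * α^5 + β^5 + γ^5 ≤ 0.1 := by linarith [A5.1, B5.2, C5.2]
  have T3' : (p 0)^2 * (-6/5 * α^3 + β^3 + γ^3) ≤ 0.4 := by
    rcases le_total (-6/5 * α^3 + β^3 + γ^3) 0 with h | h
    · nlinarith [sq_nonneg (p 0)]
    · nlinarith [sq_nonneg (p 0)]
  have hr3 : (0.649:ℝ) ≤ r^3 := by
    calc (0.649:ℝ) ≤ 0.866^3 := by norm_num
      _ ≤ r^3 := by gcongr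
  linarith [b1.1, b1.2, b2.1, b2.2, b3.1, b3.2]

lemma weights {p : E3} (hp : ‖p‖ = 1) (z : E3) : ∃ m, ON p m ∧ 15/100000 ≤ FF p z m := by
  rcases le_total ((p 0)^2) (3/4) with h | h
  · exact weights_case1 hp h z
  · exact weights_case2 hp h z

/-- first coordinate vector -/
noncomputable def ax0 : E3 := !₂[1, 0, 0]
/-- third coordinate vector -/
noncomputable def ax2 : E3 := !₂[0, 0, 1]

lemma norm_ax0 : ‖ax0‖ = 1 := by
  have := norm_sq3 ax0
  have h2 : (ax0 0)^2 + (ax0 1)^2 + (ax0 2)^2 = 1 := by simp [ax0]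
  rw [h2] at this
  nlinarith [norm_nonneg ax0]

lemma norm_ax2 : ‖ax2‖ = 1 := by
  have := norm_sq3 ax2
  have h2 : (ax2 0)^2 + (ax2 1)^2 + (ax2 2)^2 = 1 := by simp [ax2]
  rw [h2] at this
  nlinarith [norm_nonneg ax2]

lemma weights_ax0 (z : E3) : ∃ m, ON ax0 m ∧ 16/100 ≤ FF ax0 z m := by
  by_contra hcon
  push Not at hcon
  set e : E3 := !₂[0, 0, 1] with he
  set f : E3 := !₂[0, 1, 0] with hf
  have one : ON ax0 e := ON_of_coords (by simp [ax0]) (by simp [he]) (by simp [ax0, he])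
  have opf : ON ax0 f := ON_of_coords (by simp [ax0]) (by simp [hf]) (by simp [ax0, hf])
  have oef : ON e f := ON_of_coords (by simp [he]) (by simp [hf]) (by simp [he, hf])
  have b1 := abs_lt.mp (FF_abs hcon one)
  have b2 := abs_lt.mp (FF_abs hcon (one.comb opf oef (x := 3/5) (y := 4/5) (by norm_num)))
  have b3 := abs_lt.mp (FF_abs hcon (one.comb opf oef (x := 3/5) (y := -4/5) (by norm_num)))
  have key : -6/5 * FF ax0 z e + FF ax0 z ((3/5:ℝ) • e + (4/5:ℝ) • f)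
      + FF ax0 z ((3/5:ℝ) • e + (-4/5:ℝ) • f) = -(2/3) * (96/125) := by
    have a2 : ax0 2 = 0 := by simp [ax0]
    have e2 : e 2 = 1 := by simp [he]
    have f2 : f 2 = 0 := by simp [hf]
    have e0 : e 0 = 0 := by simp [he]
    have f0 : f 0 = 0 := by simp [hf]
    simp only [FF, AA, inner_add_left, inner_smul_left, conj_trivial, PiLp.add_apply,
      PiLp.smul_apply, smul_eq_mul, e2, f2, e0, f0, a2]
    ring
  linarith [b1.1, b1.2, b2.1, b2.2, b3.1, b3.2]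

lemma AA_ax2_le {m : E3} (hm : ON ax2 m) : AA ax2 m ≤ 4/15 := by
  have h1 : m 2 = 0 := by
    have := hm.2.2
    rw [inner3] at this
    simpa [ax2] using this
  have h2 : ax2 0 = 0 := by simp [ax2]
  have h3 : |m 0| ≤ 1 := by
    have := abs_coord_le m 0
    rwa [hm.2.1] at this
  have h4 : (m 0)^5 ≤ 1 := by
    have : |(m 0)^5| ≤ 1 := by
      rw [abs_pow]; exact pow_le_one₀ (abs_nonneg _) h3
    exact (le_abs_self _).trans this
  simp only [AA, h1, h2]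
  nlinarith

/-- uniform upper bound for the distance -/
lemma dI_upper {ε : ℝ} (hε0 : 0 < ε) (hε : ε ≤ 1/1000) {a c : E3} {κ : ℝ} (hκ : κ ≤ 1)
    (ha : ‖a‖ = 1) (hc : ‖c‖ = 1) (hW : ∀ z, ∃ m, ON a m ∧ κ ≤ FF a z m) :
    dI (frontier (Kb ε)) (sig ε a) (sig ε c) ≤ ENNReal.ofReal (Real.pi - κ * ε + 700 * ε^2) := by
  by_cases hac : ‖c + a‖ ≤ 20 * ε
  · obtain ⟨m, hm, hF⟩ := hW (ε⁻¹ • c)
    refine (upper_near hε0 hε hm hc hac).trans (ENNReal.ofReal_le_ofReal ?_)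
    simp only [FF, inner_smul_right] at hF
    have h1 : ε * κ ≤ ε * (ε⁻¹ * inner ℝ m c + 1/2 * AA a m) := by gcongr
    have h2 : ε * (ε⁻¹ * inner ℝ m c + 1/2 * AA a m) = inner ℝ m c + ε/2 * AA a m := by
      field_simp
    linarith
  · push Not at hac
    refine (upper_far hε0 hε ha hc).trans (ENNReal.ofReal_le_ofReal ?_)
    set φ := InnerProductGeometry.angle a c with hφ
    have hφpi : φ ≤ Real.pi := InnerProductGeometry.angle_le_pi _ _
    have hφ0 : 0 ≤ φ := InnerProductGeometry.angle_nonneg _ _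
    have hcos := cos_angle_unit ha hc
    rw [← hφ] at hcos
    have h1 : ‖c + a‖^2 = 2 - 2 * Real.cos (Real.pi - φ) := by
      rw [norm_add_sq_real, ha, hc, real_inner_comm, ← hcos, Real.cos_pi_sub]; ring
    have h2 := Real.one_sub_sq_div_two_le_cos (x := Real.pi - φ)
    have h3 : ‖c + a‖^2 ≤ (Real.pi - φ)^2 := by linarith
    have h4 : ‖c + a‖ ≤ Real.pi - φ := le_of_sq_le_sq h3 (by linarith)
    have hpi4 := Real.pi_le_four
    nlinarith

end Pool.Agent.Lib.MP_8da474_gt
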