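import Mathlib
import Pool.Agent.Lib.MP_8da474_gt.Weights

set_option autoImplicit false
set_option linter.unusedSectionVars false
set_option linter.unnecessarySimpa false

open Set Metric InnerProductGeometry
open scoped ENNReal NNReal

namespace Pool.Agent.Lib.MP_8da474_gt

lemma angle_dir {x y : E3} (hx : x ≠ 0) (hy : y ≠ 0) : angle (dir x) (dir y) = angle x y := by
  unfold dir
  rw [angle_smul_left_of_pos _ _ (inv_pos.mpr (norm_pos_iff.mpr hx)),
    angle_smul_right_of_pos _ _ (inv_pos.mpr (norm_pos_iff.mpr hy))]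

lemma inner_dir {x y : E3} (hx : x ≠ 0) (hy : y ≠ 0) :
    inner ℝ (dir x) (dir y) = Real.cos (angle x y) := by
  rw [← cos_angle_unit (norm_dir hx) (norm_dir hy), angle_dir hx hy]

/-- lower bound for one step in terms of the angle -/
lemma step_lower {ε : ℝ} (hε0 : 0 ≤ ε) (hε : ε ≤ 1/1000) {δ : ℝ} (hδ0 : 0 ≤ δ) (hδ : δ ≤ ε^2)
    {x y : E3} (hx : x ∈ frontier (Kb ε)) (hy : y ∈ frontier (Kb ε)) (hxy : dist x y ≤ δ) :
    angle x y ≤ 2 * δ ∧ (1 - ε/2 * P (dir x) - 12 * ε^2) * angle x y ≤ dist x y := by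
  have hx0 := ne_zero_of_frontier hε0 hε hx
  have hy0 := ne_zero_of_frontier hε0 hε hy
  have nx := frontier_norm_le hε0 hε hx
  have ny := frontier_norm_le hε0 hε hy
  have nx' := frontier_norm_ge hε0 hε hx
  have ny' := frontier_norm_ge hε0 hε hy
  have hd := (abs_le.mp (frontier_norm_diff hε0 hε hx hy))
  have hP := (abs_le.mp (frontier_norm' hε0 hε hx)).1
  set a := angle x y with ha
  have ha0 : 0 ≤ a := angle_nonneg _ _
  have hapi : a ≤ Real.pi := angle_le_pi _ _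
  have hin : inner ℝ x y = ‖x‖ * ‖y‖ * Real.cos a := by
    rw [ha, ← cos_angle_mul_norm_mul_norm x y]; ring
  rw [← dist_eq_norm] at hd
  set d := dist x y with hdd
  have hd0 : 0 ≤ d := dist_nonneg
  have hsq : d^2 = (‖x‖ - ‖y‖)^2 + 4 * (‖x‖ * ‖y‖) * (Real.sin (a/2))^2 := by
    have h1 : Real.cos a = 1 - 2 * (Real.sin (a/2))^2 := by
      have h2 := Real.cos_sq (a/2)
      rw [mul_div_cancel₀ _ (two_ne_zero)] at h2
      have h3 := Real.sin_sq_add_cos_sq (a/2)
      linarith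
    rw [hdd, dist_eq_norm, norm_sub_sq_real, hin, h1]; ring
  have hsin0 : 0 ≤ Real.sin (a/2) := Real.sin_nonneg_of_nonneg_of_le_pi (by linarith) (by linarith)
  have hmul := Real.mul_le_sin (x := a/2) (by linarith) (by linarith)
  set m := ‖x‖ - 4 * ε * d with hm
  have hmle : m ≤ ‖x‖ := by have : 0 ≤ 4 * ε * d := by positivity
                            linarith
  have hmle2 : m ≤ ‖y‖ := by linarith [hd.2]
  have hε2 : ε^2 ≤ 1/1000000 := by nlinarith
  have hm98 : 0.98 ≤ m := by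
    have : 4 * ε * d ≤ 4 * (1/1000) * (1/1000000) := by
      have : d ≤ 1/1000000 := by linarith
      gcongr
    linarith
  have hlow : 2 * m * Real.sin (a/2) ≤ d := by
    apply le_of_sq_le_sq _ hd0
    rw [hsq]
    have h1 : m^2 ≤ ‖x‖ * ‖y‖ := by nlinarith
    have h2 : m^2 * (Real.sin (a/2))^2 ≤ (‖x‖ * ‖y‖) * (Real.sin (a/2))^2 := by gcongr
    nlinarith [sq_nonneg (‖x‖ - ‖y‖)]
  have hpi : Real.pi ≤ 3.15 := by have := Real.pi_lt_d2; linarith
  have hpi0 := Real.pi_pos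
  have ha2 : a ≤ 2 * d := by
    have h1 : 2/Real.pi * (a/2) = a / Real.pi := by ring
    rw [h1] at hmul
    have h2 : a ≤ Real.pi * Real.sin (a/2) := by
      rw [div_le_iff₀ hpi0] at hmul; linarith
    have h3 : Real.pi * Real.sin (a/2) ≤ 3.15 * Real.sin (a/2) := by gcongr
    have h4 : 2 * 0.98 * Real.sin (a/2) ≤ 2 * m * Real.sin (a/2) := by gcongr
    linarith
  refine ⟨by linarith, ?_⟩
  have hsin : a - a^3/24 ≤ 2 * Real.sin (a/2) := by
    rcases eq_or_lt_of_le ha0 with h | h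
    · rw [← h]; simp
    · have := Real.sin_gt_sub_cube (x := a/2) (by linarith)
      have e : (a/2)^3 = a^3/8 := by ring
      rw [e] at this
      linarith
  have hε20 : 0 ≤ ε^2 := sq_nonneg _
  have hasq : a^2/24 ≤ ε^2 := by
    have h1 : a ≤ 2 * ε^2 := by linarith
    have h2 : a^2 ≤ (2 * ε^2)^2 := by gcongr
    nlinarith
  have h5 : a * (1 - ε^2/10) ≤ 2 * Real.sin (a/2) := by
    have h1 : a ≤ 2 * ε^2 := by linarith
    have h2 : a^2 ≤ (2 * ε^2)^2 := by gcongr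
    have h3 : a^2/24 ≤ ε^2/10 := by nlinarith
    have h4 : a * (a^2/24) ≤ a * (ε^2/10) := by gcongr
    have e : a^3/24 = a * (a^2/24) := by ring
    rw [e] at hsin
    linarith
  have h6 : m * (a * (1 - ε^2/10)) ≤ d := by
    have : m * (a * (1 - ε^2/10)) ≤ m * (2 * Real.sin (a/2)) := by gcongr
    linarith
  have h7 : 1 - ε/2 * P (dir x) - 12 * ε^2 ≤ m * (1 - ε^2/10) := by
    have h8 : 4 * ε * d ≤ ε^2/10 := by
      have : 4 * ε * d ≤ 4 * (1/1000) * ε^2 := by
        have : d ≤ ε^2 := by linarith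
        gcongr
      linarith
    have h9 : m * (ε^2/10) ≤ 1.01 * (ε^2/10) := by
      have : m ≤ 1.01 := by linarith
      gcongr
    have hP' : -(11 * ε^2) ≤ ‖x‖ - (1 - ε/2 * P (dir x)) := hP
    have h10 : m * (1 - ε^2/10) = ‖x‖ - 4 * ε * d - m * (ε^2/10) := by rw [hm]; ring
    rw [h10]
    linarith
  calc (1 - ε/2 * P (dir x) - 12 * ε^2) * a ≤ (m * (1 - ε^2/10)) * a := by gcongr
    _ = m * (a * (1 - ε^2/10)) := by ring
    _ ≤ d := h6

/-- accumulated angle -/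
noncomputable def Ts (x : ℕ → E3) (i : ℕ) : ℝ := ∑ j ∈ Finset.range i, angle (x j) (x (j+1))

lemma Ts_succ (x : ℕ → E3) (i : ℕ) : Ts x (i+1) = Ts x i + angle (x i) (x (i+1)) := by
  unfold Ts; rw [Finset.sum_range_succ]

lemma Ts_zero (x : ℕ → E3) : Ts x 0 = 0 := by simp [Ts]

lemma angle_le_Ts {x : ℕ → E3} (hx : ∀ i, x i ≠ 0) {i j : ℕ} (hij : i ≤ j) :
    angle (x i) (x j) ≤ Ts x j - Ts x i := by
  induction j, hij using Nat.le_induction with
  | base => rw [angle_self (hx i)]; simp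
  | succ j hj ih =>
    rw [Ts_succ]
    have := angle_le_angle_add_angle (x i) (x j) (x (j+1))
    linarith

lemma dist_le_clen' (x : ℕ → E3) {i j : ℕ} (hij : i ≤ j) :
    dist (x i) (x j) ≤ clen x j - clen x i := by
  induction j, hij using Nat.le_induction with
  | base => simp
  | succ j hj ih =>
    rw [clen_succ]
    have := dist_triangle (x i) (x j) (x (j+1))
    linarith

lemma Ts_le {ε : ℝ} (hε0 : 0 ≤ ε) (hε : ε ≤ 1/1000) {δ : ℝ} (hδ0 : 0 ≤ δ) (hδ : δ ≤ ε^2)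
    {x : ℕ → E3} (hx : IsCh ε δ x) (n : ℕ) : (1 - 1.1 * ε) * Ts x n ≤ clen x n := by
  induction n with
  | zero => simp [Ts_zero, clen_zero]
  | succ n ih =>
    rw [Ts_succ, clen_succ]
    have h := (step_lower hε0 hε hδ0 hδ (hx.1 n) (hx.1 (n+1)) (hx.2 n)).2
    have h0 := angle_nonneg (x n) (x (n+1))
    have hne := ne_zero_of_frontier hε0 hε (hx.1 n)
    have hP := (abs_le.mp (P_abs_le (x := dir (x n)) (by rw [norm_dir hne]; norm_num))).2
    have h1 : (1 - 1.1 * ε) ≤ (1 - ε/2 * P (dir (x n)) - 12 * ε^2) := by nlinarith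
    have h2 := mul_le_mul_of_nonneg_right h1 h0
    linarith

lemma angle_near_pi {ε : ℝ} (hε0 : 0 ≤ ε) {a c : E3} (ha : ‖a‖ = 1) (hc : ‖c‖ = 1)
    (hac : ‖c + a‖ ≤ 10 * ε) : Real.pi - 16 * ε ≤ angle a c := by
  set φ := angle a c with hφ
  have hφ0 : 0 ≤ φ := angle_nonneg _ _
  have hφpi : φ ≤ Real.pi := angle_le_pi _ _
  have hcos := cos_angle_unit ha hc
  rw [← hφ] at hcos
  set ψ := (Real.pi - φ)/2 with hψ
  have h1 : ‖c + a‖^2 = 4 * (Real.sin ψ)^2 := by
    have h2 : Real.cos (2 * ψ) = - Real.cos φ := by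
      rw [hψ, mul_div_cancel₀ _ (two_ne_zero), Real.cos_pi_sub]
    have h3 := Real.cos_two_mul ψ
    have h4 := Real.sin_sq_add_cos_sq ψ
    rw [norm_add_sq_real, ha, hc, real_inner_comm, ← hcos]
    nlinarith
  have hs0 : 0 ≤ Real.sin ψ := Real.sin_nonneg_of_nonneg_of_le_pi (by linarith) (by linarith)
  have h5 : 2 * Real.sin ψ ≤ 10 * ε := by
    have : (2 * Real.sin ψ)^2 ≤ (10 * ε)^2 := by
      have h6 : ‖c + a‖^2 ≤ (10 * ε)^2 := by gcongr
      nlinarith
    exact le_of_sq_le_sq this (by linarith)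
  have hmul := Real.mul_le_sin (x := ψ) (by linarith) (by linarith)
  have hpi0 := Real.pi_pos
  have hpi : Real.pi ≤ 3.15 := by have := Real.pi_lt_d2; linarith
  have h7 : ψ ≤ Real.pi/2 * Real.sin ψ := by
    have e : 2/Real.pi * ψ = ψ / (Real.pi/2) := by field_simp
    rw [e, div_le_iff₀ (by linarith)] at hmul
    linarith
  have h8 : Real.pi/2 * Real.sin ψ ≤ 3.15/2 * (5 * ε) := by
    have : Real.sin ψ ≤ 5 * ε := by linarith
    gcongr
  linarith

end Pool.Agent.Lib.MP_8da474_gt
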