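import Mathlib
import Pool.Agent.Lib.MP_8da474_gt.Angles

set_option autoImplicit false
set_option linter.unusedSectionVars false
set_option linter.unnecessarySimpa false

open Set Metric InnerProductGeometry
open scoped ENNReal NNReal

namespace Pool.Agent.Lib.MP_8da474_gt

/-- An almost minimal chain to an almost antipodal point is close to a great half circle. -/
lemma chain_geom {h ε δ : ℝ} (hh : 0 < h) (hh1 : h ≤ 1/10^6) (hεh : ε = h^2) (hδ0 : 0 ≤ δ)
    (hδ : δ ≤ ε^2) {x : ℕ → E3} (hx : IsCh ε δ x) {N : ℕ} (hL : clen x N ≤ Real.pi + ε)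
    (hend : ‖dir (x N) + dir (x 0)‖ ≤ 10 * ε) :
    ∃ k m, k ≤ N ∧ ON (dir (x 0)) m ∧ Real.pi/2 ≤ angle (x 0) (x k) ∧
      angle (x 0) (x k) ≤ Real.pi/2 + 2 * δ ∧
      dir (x k) = gc (dir (x 0)) m (angle (x 0) (x k)) ∧
      Real.pi - 16 * ε ≤ angle (x 0) (x N) ∧ Ts x N ≤ Real.pi + 5 * ε ∧
      ∀ i ≤ N, |Ts x i - angle (x 0) (x i)| ≤ 21 * ε ∧
        ‖dir (x i) - gc (dir (x 0)) m (angle (x 0) (x i))‖ ≤ 7 * h := by
  have hε0 : 0 < ε := by rw [hεh]; positivity
  have hεs : ε ≤ 1/10^12 := by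
    rw [hεh]
    calc h^2 ≤ (1/10^6)^2 := by gcongr
      _ = 1/10^12 := by norm_num
  have hε : ε ≤ 1/1000 := hεs.trans (by norm_num)
  have hne : ∀ i, x i ≠ 0 := fun i => ne_zero_of_frontier hε0.le hε (hx.1 i)
  have hδs : δ ≤ 1/10^12 := by nlinarith
  set θ : ℕ → ℝ := fun i => angle (x 0) (x i) with hθ
  have hθN : Real.pi - 16 * ε ≤ θ N := by
    have := angle_near_pi hε0.le (norm_dir (hne 0)) (norm_dir (hne N)) hend
    rwa [angle_dir (hne 0) (hne N)] at this
  have hpi4 := Real.pi_le_four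
  have hpi3 := Real.pi_gt_three
  have hpi : Real.pi ≤ 3.15 := by have := Real.pi_lt_d2; linarith
  have hTN : Ts x N ≤ Real.pi + 5 * ε := by
    have h1 := Ts_le hε0.le hε hδ0 hδ hx N
    by_contra hcon
    push Not at hcon
    have h2 : (1 - 1.1 * ε) * (Real.pi + 5 * ε) ≤ Real.pi + ε := by
      have : (1 - 1.1 * ε) * (Real.pi + 5 * ε) ≤ (1 - 1.1 * ε) * Ts x N := by
        apply mul_le_mul_of_nonneg_left hcon.le; linarith
      linarith
    nlinarith
  have hθT : ∀ i, θ i ≤ Ts x i := by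
    intro i
    have := angle_le_Ts hne (Nat.zero_le i)
    rw [Ts_zero, sub_zero] at this
    exact this
  have hTθ : ∀ i ≤ N, Ts x i ≤ θ i + 21 * ε := by
    intro i hi
    have h1 := angle_le_angle_add_angle (x 0) (x i) (x N)
    have h2 := angle_le_Ts hne hi
    change θ N ≤ θ i + _ at h1
    linarith
  -- crossing index
  have hex : ∃ i, Real.pi/2 ≤ θ i := ⟨N, by linarith⟩
  classical
  set k := Nat.find hex with hk
  have hk1 : Real.pi/2 ≤ θ k := Nat.find_spec hex
  have hkN : k ≤ N := Nat.find_min' hex (by linarith)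
  have hθ0 : θ 0 = 0 := angle_self (hne 0)
  have hk0 : k ≠ 0 := by
    intro h0
    rw [h0, hθ0] at hk1
    linarith
  obtain ⟨j, hj⟩ := Nat.exists_eq_succ_of_ne_zero hk0
  have hk2 : θ k ≤ Real.pi/2 + 2 * δ := by
    have h1 : ¬ Real.pi/2 ≤ θ j := Nat.find_min hex (by omega)
    push Not at h1
    have h2 := angle_le_angle_add_angle (x 0) (x j) (x (j+1))
    have h3 := (step_lower hε0.le hε hδ0 hδ (hx.1 j) (hx.1 (j+1)) (hx.2 j)).1
    have h4 : θ k = angle (x 0) (x (j+1)) := by rw [hj]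
    rw [h4]
    change angle (x 0) (x (j+1)) ≤ θ j + _ at h2
    linarith
  obtain ⟨m, hm, hgc⟩ := exists_gc (norm_dir (hne 0)) (norm_dir (hne k))
  rw [angle_dir (hne 0) (hne k)] at hgc
  change dir (x k) = gc (dir (x 0)) m (θ k) at hgc
  refine ⟨k, m, hkN, hm, hk1, hk2, hgc, hθN, hTN, fun i hi => ⟨?_, ?_⟩⟩
  · rw [abs_le]; constructor <;> linarith [hθT i, hTθ i hi]
  -- closeness to the great circle
  have hθi0 : 0 ≤ θ i := angle_nonneg _ _
  have hθipi : θ i ≤ Real.pi := angle_le_pi _ _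
  have hAik : angle (x i) (x k) ≤ |θ i - θ k| + 21 * ε := by
    rcases le_total i k with hik | hik
    · have h1 := angle_le_Ts hne hik
      have h2 := hTθ k hkN
      have h3 := hθT i
      have h4 := neg_abs_le (θ i - θ k)
      linarith
    · have h1 := angle_le_Ts hne hik
      rw [angle_comm] at h1
      have h2 := hTθ i hi
      have h3 := hθT k
      have h4 := le_abs_self (θ i - θ k)
      linarith
  have hAbs : |θ i - θ k| + 21 * ε ≤ Real.pi := by
    have : |θ i - θ k| ≤ Real.pi/2 + 2 * δ := by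
      rw [abs_le]; constructor <;> linarith
    linarith
  have hcosle : Real.cos (θ i - θ k) - 21 * ε ≤ Real.cos (angle (x i) (x k)) := by
    have h1 := Real.cos_le_cos_of_nonneg_of_le_pi (angle_nonneg (x i) (x k)) hAbs hAik
    have h2 : Real.cos (θ i - θ k) - 21 * ε ≤ Real.cos (|θ i - θ k| + 21 * ε) := by
      rw [← Real.cos_abs (θ i - θ k)]
      have := Real.abs_cos_sub_cos_le (|θ i - θ k|) (|θ i - θ k| + 21 * ε)
      have h3 : |(|θ i - θ k|) - (|θ i - θ k| + 21 * ε)| = 21 * ε := by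
        rw [show (|θ i - θ k|) - (|θ i - θ k| + 21 * ε) = -(21 * ε) by ring, abs_neg,
          abs_of_nonneg (by positivity)]
      rw [h3] at this
      linarith [(abs_le.mp this).2]
    linarith
  rw [← inner_dir (hne i) (hne k), hgc] at hcosle
  set u := dir (x i) with hu
  set p := dir (x 0) with hp
  have hun : ‖u‖ = 1 := norm_dir (hne i)
  have hup : inner ℝ u p = Real.cos (θ i) := by
    rw [hu, hp, inner_dir (hne i) (hne 0), angle_comm]
  have hin : inner ℝ u (gc p m (θ k)) = Real.cos (θ k) * Real.cos (θ i) + Real.sin (θ k) * inner ℝ u m := by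
    rw [gc, inner_add_right, inner_smul_right, inner_smul_right, hup]
  rw [hin, Real.cos_sub] at hcosle
  have hsk : 0.99 ≤ Real.sin (θ k) := by
    have h1 := Real.one_sub_sq_div_two_le_cos (x := θ k - Real.pi/2)
    rw [Real.cos_sub_pi_div_two] at h1
    nlinarith
  have hsk1 := Real.sin_le_one (θ k)
  have hsi0 : 0 ≤ Real.sin (θ i) := Real.sin_nonneg_of_nonneg_of_le_pi hθi0 hθipi
  have hsi1 := Real.sin_le_one (θ i)
  -- sin θk * ⟪u,m⟫ ≥ sin θi sin θk - 21 ε
  have h5 : Real.sin (θ i) * Real.sin (θ k) - 21 * ε ≤ Real.sin (θ k) * inner ℝ u m := by linarith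
  have h6 : Real.sin (θ i) - 22 * ε ≤ inner ℝ u m := by
    by_contra hcon
    push Not at hcon
    have : Real.sin (θ k) * inner ℝ u m ≤ Real.sin (θ k) * (Real.sin (θ i) - 22 * ε) := by
      apply mul_le_mul_of_nonneg_left hcon.le; linarith
    nlinarith
  have h7 : (Real.sin (θ i))^2 - 22 * ε ≤ Real.sin (θ i) * inner ℝ u m := by
    have := mul_le_mul_of_nonneg_left h6 hsi0
    nlinarith
  have h8 : ‖u - gc p m (θ i)‖^2 ≤ 44 * ε := by
    rw [norm_sub_sq_real, hun, norm_gc hm]
    have hin2 : inner ℝ u (gc p m (θ i)) = Real.cos (θ i) * Real.cos (θ i) + Real.sin (θ i) * inner ℝ u m := by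
      rw [gc, inner_add_right, inner_smul_right, inner_smul_right, hup]
    rw [hin2]
    have := Real.sin_sq_add_cos_sq (θ i)
    nlinarith
  apply le_of_sq_le_sq _ (by positivity)
  change ‖u - gc p m (θ i)‖^2 ≤ _
  rw [hεh] at h8
  nlinarith

/-- Data extracted from an almost minimal chain `x 0, …, x N`: crossing index `k`, direction `m`. -/
structure GoodCh (h ε : ℝ) (x : ℕ → E3) (N k : ℕ) (m : E3) : Prop where
  hkN : k ≤ N
  hm : ON (dir (x 0)) m
  hlen : Real.pi - inner ℝ m (dir (x N)) - ε/2 * AA (dir (x 0)) m - 100 * (ε * h) ≤ clen x N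
  hxk : ‖x k - m‖ ≤ 3 * ε
  hpos : ∀ i ≤ N, ∀ v : E3, 0 ≤ inner ℝ m v →
    - (1.01 * (|inner ℝ (dir (x 0)) v| + 7 * h * ‖v‖)) ≤ inner ℝ (x i) v
  hs1 : 1/2 ≤ clen x k
  hs2 : clen x k ≤ 3
  hs3 : 1/2 ≤ clen x N - clen x k
  hs4 : clen x N - clen x k ≤ 3

lemma chain_main {h ε δ : ℝ} (hh : 0 < h) (hh1 : h ≤ 1/10^6) (hεh : ε = h^2) (hδ0 : 0 ≤ δ)
    (hδ : δ ≤ ε^2) {x : ℕ → E3} (hx : IsCh ε δ x) {N : ℕ} (hL : clen x N ≤ Real.pi + ε)
    (hend : ‖dir (x N) + dir (x 0)‖ ≤ 10 * ε) :
    ∃ k m, GoodCh h ε x N k m := by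
  obtain ⟨k, m, hkN, hm, hk1, hk2, hgc, hθN, hTN, hall⟩ := chain_geom hh hh1 hεh hδ0 hδ hx hL hend
  have hε0 : 0 < ε := by rw [hεh]; positivity
  have hεs : ε ≤ 1/10^12 := by
    rw [hεh]
    calc h^2 ≤ (1/10^6)^2 := by gcongr
      _ = 1/10^12 := by norm_num
  have hε : ε ≤ 1/1000 := hεs.trans (by norm_num)
  have hne : ∀ i, x i ≠ 0 := fun i => ne_zero_of_frontier hε0.le hε (hx.1 i)
  have hδs : δ ≤ 1/10^12 := by nlinarith
  have hεh1 : ε * ε ≤ ε * h * (1/10^6) := by
    have : ε ≤ h * (1/10^6) := by rw [hεh]; nlinarith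
    nlinarith
  have hεhh : 0 ≤ ε * h := by positivity
  have hpi4 := Real.pi_le_four
  have hpi3 := Real.pi_gt_three
  have hpi : Real.pi ≤ 3.15 := by have := Real.pi_lt_d2; linarith
  set p := dir (x 0) with hp
  have hpn : ‖p‖ = 1 := norm_dir (hne 0)
  -- the length estimate
  have hsum : ∀ n ≤ N, Ts x n - ε/2 * Iint p m (Ts x n) - 22 * (ε * h) * Ts x n ≤ clen x n := by
    intro n
    induction n with
    | zero => intro _; simp [Ts_zero, clen_zero, Iint_zero]
    | succ n ih =>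
      intro hn
      have ihn := ih (by omega)
      obtain ⟨hT1, hT2⟩ := hall n (by omega)
      rw [Ts_succ, clen_succ]
      obtain ⟨ha2, hst⟩ := step_lower hε0.le hε hδ0 hδ (hx.1 n) (hx.1 (n+1)) (hx.2 n)
      set a := angle (x n) (x (n+1)) with ha
      have ha0 : 0 ≤ a := angle_nonneg _ _
      have hI := Iint_step hm (s := Ts x n) (t := Ts x n + a) (by linarith)
      rw [add_sub_cancel_left] at hI
      have hI1 := (abs_le.mp hI).1
      have hP1 := P_lip (x := dir (x n)) (y := gc p m (angle (x 0) (x n)))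
        (by rw [norm_dir (hne n)]; norm_num) (by rw [norm_gc hm]; norm_num)
      have hP2 := P_gc_lip hm (angle (x 0) (x n)) (Ts x n)
      rw [abs_sub_comm (angle (x 0) (x n))] at hP2
      have hP3 : P (dir (x n)) ≤ P (gc p m (Ts x n)) + 43 * h := by
        have e1 := (abs_le.mp hP1).2
        have e2 := (abs_le.mp hP2).2
        have e3 : 6 * ‖dir (x n) - gc p m (angle (x 0) (x n))‖ ≤ 6 * (7 * h) := by gcongr
        have e4 : 6 * |Ts x n - angle (x 0) (x n)| ≤ 6 * (21 * ε) := by gcongr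
        have e5 : 126 * ε ≤ h := by rw [hεh]; nlinarith
        linarith
      have h1 : ε/2 * P (dir (x n)) ≤ ε/2 * (P (gc p m (Ts x n)) + 43 * h) := by gcongr
      have h2 : (1 - ε/2 * (P (gc p m (Ts x n)) + 43 * h) - 12 * ε^2) * a ≤ dist (x n) (x (n+1)) := by
        refine le_trans ?_ hst
        gcongr
      have h3 : ε/2 * (a * P (gc p m (Ts x n))) ≤ ε/2 * (Iint p m (Ts x n + a) - Iint p m (Ts x n) + 6 * a^2) := by
        gcongr
        linarith
      have h4 : ε/2 * (6 * a^2) ≤ (1/10) * (ε * h) * a := by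
        have : 6 * a ≤ h/10 := by
          have h5 : a ≤ 2 * ε^2 := by linarith
          have h6 : ε^2 ≤ ε := by nlinarith
          have h7 : 120 * ε ≤ h := by rw [hεh]; nlinarith
          linarith
        have h8 : ε/2 * (6 * a^2) = ε/2 * a * (6 * a) := by ring
        rw [h8]
        have h11 : ε/2 * a * (6 * a) ≤ ε/2 * a * (h/10) := by gcongr
        have h12 : 0 ≤ (ε * h) * a := by positivity
        linarith
      have h9 : 12 * ε^2 * a ≤ (1/10) * (ε * h) * a := by
        have : 12 * ε^2 ≤ (1/10) * (ε * h) := by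
          have e : ε^2 = ε * ε := by ring
          rw [e]; linarith
        exact mul_le_mul_of_nonneg_right this ha0
      have h10 : 0 ≤ (ε * h) * a := by positivity
      linarith
  have hlen := hsum N le_rfl
  have hTN0 : Real.pi - 16 * ε ≤ Ts x N := by
    have := angle_le_Ts hne (Nat.zero_le N)
    rw [Ts_zero, sub_zero] at this
    linarith
  have hTN4 : Ts x N ≤ 4 := by linarith
  have hI : Iint p m (Ts x N) ≤ AA p m + 32 * ε := by
    have h1 := (abs_le.mp (Iint_diff hm Real.pi (Ts x N))).2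
    have h2 : |Ts x N - Real.pi| ≤ 16 * ε := by rw [abs_le]; constructor <;> linarith
    rw [Iint_pi] at h1
    linarith
  -- positions
  have hck : |Real.cos (angle (x 0) (x k))| ≤ 2 * δ := by
    have : Real.cos (angle (x 0) (x k)) = - Real.sin (angle (x 0) (x k) - Real.pi/2) := by
      rw [Real.sin_sub_pi_div_two]; ring
    rw [this, abs_neg]
    refine (Real.abs_sin_le_abs).trans ?_
    rw [abs_of_nonneg (by linarith)]
    linarith
  have hsk : 1 - 2 * δ ≤ Real.sin (angle (x 0) (x k)) := by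
    have h1 := Real.one_sub_sq_div_two_le_cos (x := angle (x 0) (x k) - Real.pi/2)
    rw [Real.cos_sub_pi_div_two] at h1
    nlinarith
  have hsk1 := Real.sin_le_one (angle (x 0) (x k))
  set ck := Real.cos (angle (x 0) (x k)) with hckdef
  set sk := Real.sin (angle (x 0) (x k)) with hskdef
  have hmn : ‖m‖ = 1 := hm.2.1
  have hpm : inner ℝ m p = (0:ℝ) := by rw [real_inner_comm]; exact hm.2.2
  have hτ : |inner ℝ m (dir (x N))| ≤ 10 * ε := by
    have e : inner ℝ m (dir (x N)) = inner ℝ m (dir (x N) + p) := by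
      rw [inner_add_right, hpm, add_zero]
    rw [e]
    refine (abs_real_inner_le_norm _ _).trans ?_
    rw [hmn, one_mul]; exact hend
  have hdk : dir (x k) = ck • p + sk • m := hgc
  have hinkN : |inner ℝ (dir (x k)) (dir (x N)) - inner ℝ m (dir (x N))| ≤ 3 * ε^2 := by
    rw [hdk, inner_add_left, inner_smul_left, inner_smul_left]
    simp only [conj_trivial]
    have e : ck * inner ℝ p (dir (x N)) + sk * inner ℝ m (dir (x N)) - inner ℝ m (dir (x N)) =
      ck * inner ℝ p (dir (x N)) + (sk - 1) * inner ℝ m (dir (x N)) := by ring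
    rw [e]
    refine (abs_add_le _ _).trans ?_
    rw [abs_mul, abs_mul]
    have h1 : |inner ℝ p (dir (x N))| ≤ 1 := by
      refine (abs_real_inner_le_norm _ _).trans ?_
      rw [hpn, norm_dir (hne N)]; norm_num
    have h2 : |sk - 1| ≤ 2 * δ := by rw [abs_le]; constructor <;> linarith
    have h3 : |ck| * |inner ℝ p (dir (x N))| ≤ 2 * δ * 1 := by gcongr
    have h4 : |sk - 1| * |inner ℝ m (dir (x N))| ≤ 2 * δ * (10 * ε) := by gcongr
    nlinarith
  set τ := inner ℝ (dir (x k)) (dir (x N)) with hτdef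
  have hτ' : |τ| ≤ 11 * ε := by
    have : |τ| ≤ |τ - inner ℝ m (dir (x N))| + |inner ℝ m (dir (x N))| := by
      have := abs_add_le (τ - inner ℝ m (dir (x N))) (inner ℝ m (dir (x N)))
      rwa [sub_add_cancel] at this
    nlinarith
  have hang : Real.pi/2 - inner ℝ m (dir (x N)) - 4 * ε^2 ≤ angle (x k) (x N) := by
    have e : angle (x k) (x N) = Real.arccos τ := by
      rw [hτdef, inner_dir (hne k) (hne N), Real.arccos_cos (angle_nonneg _ _) (angle_le_pi _ _)]
    rw [e]
    have h1 := (abs_le.mp (arccos_bound (t := τ) (by linarith))).1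
    have h2 : |τ|^3 ≤ ε^2 := by
      calc |τ|^3 ≤ (11 * ε)^3 := by gcongr
        _ = 1331 * ε * ε^2 := by ring
        _ ≤ 1 * ε^2 := by gcongr; linarith
        _ = ε^2 := one_mul _
    have h3 := (abs_le.mp hinkN).2
    linarith
  have hTlow : Real.pi - inner ℝ m (dir (x N)) - 4 * ε^2 ≤ Ts x N := by
    have h1 := angle_le_Ts hne (Nat.zero_le k)
    rw [Ts_zero, sub_zero] at h1
    have h2 := angle_le_Ts hne hkN
    linarith
  have hnk := abs_le.mp (frontier_norm hε0.le hε (hx.1 k))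
  have hnk1 := frontier_norm_ge hε0.le hε (hx.1 k)
  have hn01 := frontier_norm_ge hε0.le hε (hx.1 0)
  have hnN1 := frontier_norm_ge hε0.le hε (hx.1 N)
  have hdist0k : 1/2 ≤ dist (x 0) (x k) := by
    rw [dist_eq_norm]
    apply le_of_sq_le_sq _ (norm_nonneg _)
    rw [norm_sub_sq_real]
    have h1 : inner ℝ (x 0) (x k) ≤ 0 := by
      rw [← cos_angle_mul_norm_mul_norm]
      have : Real.cos (angle (x 0) (x k)) ≤ 0 :=
        Real.cos_nonpos_of_pi_div_two_le_of_le hk1 (by linarith)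
      have h2 := norm_nonneg (x 0)
      have h3 := norm_nonneg (x k)
      nlinarith [mul_nonneg h2 h3]
    nlinarith
  have hdistkN : 1/2 ≤ dist (x k) (x N) := by
    rw [dist_eq_norm]
    apply le_of_sq_le_sq _ (norm_nonneg _)
    rw [norm_sub_sq_real]
    have h1 : inner ℝ (x k) (x N) ≤ 1/4 := by
      rw [← cos_angle_mul_norm_mul_norm, ← inner_dir (hne k) (hne N), ← hτdef]
      have h2 := frontier_norm_le hε0.le hε (hx.1 k)
      have h3 := frontier_norm_le hε0.le hε (hx.1 N)
      have h4 := (abs_le.mp hτ').2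
      have h5 : ‖x k‖ * ‖x N‖ ≤ 2 := by nlinarith [norm_nonneg (x k), norm_nonneg (x N)]
      have h6 : 0 ≤ ‖x k‖ * ‖x N‖ := by positivity
      nlinarith
    nlinarith
  have hc1 := dist_le_clen x k
  have hc2 := dist_le_clen' x hkN
  have hdist0k' : 1 ≤ dist (x 0) (x k) := by
    rw [dist_eq_norm]
    apply le_of_sq_le_sq _ (norm_nonneg _)
    rw [norm_sub_sq_real]
    have h1 : inner ℝ (x 0) (x k) ≤ 0 := by
      rw [← cos_angle_mul_norm_mul_norm]
      have : Real.cos (angle (x 0) (x k)) ≤ 0 :=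
        Real.cos_nonpos_of_pi_div_two_le_of_le hk1 (by linarith)
      have h2 := norm_nonneg (x 0)
      have h3 := norm_nonneg (x k)
      nlinarith [mul_nonneg h2 h3]
    nlinarith
  refine ⟨k, m, hkN, hm, ?_, ?_, ?_, by linarith, by linarith, by linarith, by linarith⟩
  · have h1 : ε/2 * Iint p m (Ts x N) ≤ ε/2 * (AA p m + 32 * ε) := by gcongr
    have h2 : 22 * (ε * h) * Ts x N ≤ 22 * (ε * h) * 4 := by gcongr
    nlinarith
  · have e : x k - m = (‖x k‖ - 1) • dir (x k) + (ck • p + (sk - 1) • m) := by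
      have h1 : x k = ‖x k‖ • dir (x k) := (smul_dir (hne k)).symm
      have h2 : (‖x k‖ - 1) • dir (x k) + (ck • p + (sk - 1) • m) =
        ‖x k‖ • dir (x k) - (dir (x k) - (ck • p + sk • m)) - m := by module
      rw [h2, ← hdk, ← h1]; simp
    rw [e]
    refine (norm_add_le _ _).trans ?_
    have h1 : ‖(‖x k‖ - 1) • dir (x k)‖ ≤ 2 * ε := by
      rw [norm_smul, norm_dir (hne k), mul_one, Real.norm_eq_abs, abs_le]
      constructor <;> linarith
    have h2 : ‖ck • p + (sk - 1) • m‖ ≤ 2 * δ + 2 * δ := by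
      refine (norm_add_le _ _).trans ?_
      rw [norm_smul, norm_smul, hpn, hmn, mul_one, mul_one, Real.norm_eq_abs, Real.norm_eq_abs]
      have : |sk - 1| ≤ 2 * δ := by rw [abs_le]; constructor <;> linarith
      linarith
    nlinarith
  · intro i hi v hv
    obtain ⟨_, hT2⟩ := hall i hi
    have e : x i = ‖x i‖ • dir (x i) := (smul_dir (hne i)).symm
    have hni := frontier_norm_le hε0.le hε (hx.1 i)
    rw [e, inner_smul_left]
    simp only [conj_trivial]
    set c := gc p m (angle (x 0) (x i)) with hc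
    have h1 : inner ℝ (dir (x i)) v = inner ℝ c v + inner ℝ (dir (x i) - c) v := by
      rw [inner_sub_left]; ring
    have h2 : |inner ℝ (dir (x i) - c) v| ≤ 7 * h * ‖v‖ := by
      refine (abs_real_inner_le_norm _ _).trans ?_
      gcongr
    have h3 : - |inner ℝ p v| ≤ inner ℝ c v := by
      rw [hc, gc, inner_add_left, inner_smul_left, inner_smul_left]
      simp only [conj_trivial]
      have h4 : 0 ≤ Real.sin (angle (x 0) (x i)) * inner ℝ m v :=
        mul_nonneg (Real.sin_nonneg_of_nonneg_of_le_pi (angle_nonneg _ _) (angle_le_pi _ _)) hv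
      have h5 : |Real.cos (angle (x 0) (x i)) * inner ℝ p v| ≤ |inner ℝ p v| := by
        rw [abs_mul]
        have := Real.abs_cos_le_one (angle (x 0) (x i))
        have := abs_nonneg (inner ℝ p v)
        nlinarith
      have h6 := (abs_le.mp h5).1
      linarith
    have h4 : - (|inner ℝ p v| + 7 * h * ‖v‖) ≤ inner ℝ (dir (x i)) v := by
      rw [h1]
      have := (abs_le.mp h2).1
      linarith
    set B := |inner ℝ p v| + 7 * h * ‖v‖ with hB
    have hB0 : 0 ≤ B := by positivity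
    have hn0 := norm_nonneg (x i)
    have h5 := mul_le_mul_of_nonneg_left h4 hn0
    have h6 : ‖x i‖ * B ≤ 1.01 * B := by gcongr
    linarith

end Pool.Agent.Lib.MP_8da474_gt
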