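import Mathlib
import Pool.Agent.Lib.MP_8da474_gt.ChainLower

set_option autoImplicit false
set_option linter.unusedSectionVars false
set_option linter.unnecessarySimpa false

open Set Metric InnerProductGeometry
open scoped ENNReal NNReal

namespace Pool.Agent.Lib.MP_8da474_gt

/-- chords are almost tangent -/
lemma tangent {ε : ℝ} (hε0 : 0 ≤ ε) (hε : ε ≤ 1/1000) {x y : E3}
    (hx : x ∈ frontier (Kb ε)) (hy : y ∈ frontier (Kb ε)) :
    |inner ℝ x (y - x)| ≤ 4.04 * ε * ‖y - x‖ + ‖y - x‖^2 / 2 ∧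
    |inner ℝ (dir x) (y - x)| ≤ 5 * ε * ‖y - x‖ + 0.6 * ‖y - x‖^2 := by
  have nx := frontier_norm_le hε0 hε hx
  have ny := frontier_norm_le hε0 hε hy
  have nx' := frontier_norm_ge hε0 hε hx
  have ny' := frontier_norm_ge hε0 hε hy
  have hd := frontier_norm_diff hε0 hε hy hx
  set v := y - x with hv
  have hvn := norm_nonneg v
  have e : inner ℝ x v = ((‖y‖ - ‖x‖) * (‖y‖ + ‖x‖) - ‖v‖^2) / 2 := by
    have h1 : y = x + v := by rw [hv]; abel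
    have h2 : ‖y‖^2 = ‖x‖^2 + 2 * inner ℝ x v + ‖v‖^2 := by
      conv_lhs => rw [h1]
      rw [norm_add_sq_real]
    nlinarith
  have h1 : |inner ℝ x v| ≤ 4.04 * ε * ‖v‖ + ‖v‖^2 / 2 := by
    rw [e, abs_div, abs_of_pos (show (0:ℝ) < 2 by norm_num)]
    have h2 : |(‖y‖ - ‖x‖) * (‖y‖ + ‖x‖) - ‖v‖^2| ≤ 4 * ε * ‖v‖ * 2.02 + ‖v‖^2 := by
      refine (abs_sub _ _).trans ?_
      rw [abs_mul, abs_of_nonneg (show 0 ≤ ‖y‖ + ‖x‖ by positivity), abs_of_nonneg (sq_nonneg ‖v‖)]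
      gcongr
      linarith
    linarith
  refine ⟨h1, ?_⟩
  rw [dir, inner_smul_left]
  simp only [conj_trivial]
  rw [abs_mul, abs_inv, abs_norm, inv_mul_le_iff₀ (by linarith)]
  have h3 : 0 ≤ ε * ‖v‖ := by positivity
  have h4 : 0.99 * (5 * ε * ‖v‖ + 0.6 * ‖v‖^2) ≤ ‖x‖ * (5 * ε * ‖v‖ + 0.6 * ‖v‖^2) := by gcongr
  have := sq_nonneg ‖v‖
  linarith

lemma clen_shift (x : ℕ → E3) (k j : ℕ) : clen (fun i => x (k + i)) j = clen x (k + j) - clen x k := by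
  induction j with
  | zero => simp [clen_zero]
  | succ j ih =>
    rw [clen_succ, ih, ← Nat.add_assoc, clen_succ]
    ring

lemma clen_rev (x : ℕ → E3) (N j : ℕ) (hj : j ≤ N) :
    clen (fun i => x (N - i)) j = clen x N - clen x (N - j) := by
  induction j with
  | zero => simp [clen_zero]
  | succ j ih =>
    rw [clen_succ, ih (by omega)]
    have h1 : N - j = (N - (j+1)) + 1 := by omega
    have h2 := clen_succ x (N - (j+1))
    rw [← h1] at h2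
    rw [h2, dist_comm (x (N - j))]
    ring

lemma IsCh.shift {ε δ : ℝ} {x : ℕ → E3} (hx : IsCh ε δ x) (k : ℕ) : IsCh ε δ (fun i => x (k + i)) :=
  ⟨fun i => hx.1 _, fun i => hx.2 (k + i)⟩

lemma IsCh.rev {ε δ : ℝ} {x : ℕ → E3} (hx : IsCh ε δ x) (hδ : 0 ≤ δ) (N : ℕ) :
    IsCh ε δ (fun i => x (N - i)) := by
  refine ⟨fun _ => hx.1 _, fun i => ?_⟩
  by_cases h : i + 1 ≤ N
  · have h1 : N - i = (N - (i+1)) + 1 := by omega
    have := hx.2 (N - (i+1))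
    rw [← h1, dist_comm] at this
    exact this
  · have h1 : N - i = N - (i+1) := by omega
    simp only [h1, dist_self]
    exact hδ

/-- The core estimate for moving an endpoint. -/
lemma move_core {h ε δ : ℝ} (hh : 0 < h) (hh1 : h ≤ 1/10^6) (hεh : ε = h^2) (hδ0 : 0 ≤ δ)
    (hδ : δ ≤ ε^2) {y : ℕ → E3} (hy : IsCh ε δ y) {j : ℕ} {a : E3} (ha : a ∈ frontier (Kb ε))
    (hv : ‖a - y 0‖ ≤ 1/10^4) {m : E3} (hyk : ‖y j - m‖ ≤ 3 * ε) (hm0 : 0 ≤ inner ℝ m (a - y 0))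
    (hs1 : 1/2 ≤ clen y j) (hs2 : clen y j ≤ 3) {β : ℝ}
    (hβ : β ≤ 15 * ε * ‖a - y 0‖ + 0.6 * ‖a - y 0‖^2)
    (hpos : ∀ i ≤ j, - (1.01 * (β + 7 * h * ‖a - y 0‖)) ≤ inner ℝ (y i) (a - y 0)) :
    dI (frontier (Kb ε)) a (y j) ≤ ENNReal.ofReal
      (clen y j - inner ℝ m (a - y 0) / 3 + 43 * ‖a - y 0‖^2 + 362 * h * ‖a - y 0‖ + 60 * δ) ∧
    0 ≤ clen y j - inner ℝ m (a - y 0) / 3 + 43 * ‖a - y 0‖^2 + 362 * h * ‖a - y 0‖ + 60 * δ := by
  have hε0 : 0 < ε := by rw [hεh]; positivity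
  have hεs : ε ≤ 1/10^12 := by
    rw [hεh]
    calc h^2 ≤ (1/10^6)^2 := by gcongr
      _ = 1/10^12 := by norm_num
  have hε : ε ≤ 1/1000 := hεs.trans (by norm_num)
  have hεle : ε ≤ h * (1/10^6) := by rw [hεh]; nlinarith
  have hδs : δ ≤ 1/10^12 := by nlinarith
  obtain ⟨ht1, _⟩ := tangent hε0.le hε (hy.1 0) ha
  set v := a - y 0 with hvdef
  have hvn := norm_nonneg v
  have hκ : ∀ i ≤ j, - ((9 * h + ‖v‖) * ‖v‖) ≤ inner ℝ (y i) v := by
    intro i hi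
    refine le_trans ?_ (hpos i hi)
    have h1 : ε * ‖v‖ ≤ h * (1/10^6) * ‖v‖ := by gcongr
    have h2 : 0 ≤ h * ‖v‖ := by positivity
    have := sq_nonneg ‖v‖
    nlinarith
  have hS := shorten hε0.le hε hδ0 (by linarith) hy j ha (κ := 9 * h + ‖v‖) (by positivity)
    (by linarith) (by linarith) hs1 (by linarith) hκ
  rw [← hvdef] at hS
  set s := clen y j with hs
  have hspos : 0 < s := by linarith
  have hI : inner ℝ m v / 3 - 16 * ε * ‖v‖ - ‖v‖^2 ≤ inner ℝ (y j - y 0) v / s := by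
    have e : inner ℝ (y j - y 0) v = inner ℝ m v + (inner ℝ (y j - m) v - inner ℝ (y 0) v) := by
      simp only [inner_sub_left]; ring
    have h1 : |inner ℝ (y j - m) v| ≤ 3 * ε * ‖v‖ := by
      refine (abs_real_inner_le_norm _ _).trans ?_
      gcongr
    have h2 : inner ℝ m v - (7.04 * ε * ‖v‖ + ‖v‖^2/2) ≤ inner ℝ (y j - y 0) v := by
      rw [e]
      have := (abs_le.mp h1).1
      have := (abs_le.mp ht1).2
      linarith
    rw [le_div_iff₀ hspos]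
    have h3 : 0 ≤ ε * ‖v‖ := by positivity
    have h4 : inner ℝ m v / 3 * s ≤ inner ℝ m v := by nlinarith
    have h5 : (16 * ε * ‖v‖ + ‖v‖^2) * (1/2) ≤ (16 * ε * ‖v‖ + ‖v‖^2) * s := by gcongr
    have h6 : (inner ℝ m v / 3 - 16 * ε * ‖v‖ - ‖v‖^2) * s = inner ℝ m v / 3 * s - (16 * ε * ‖v‖ + ‖v‖^2) * s := by
      ring
    rw [h6]
    linarith
  have hle : s - inner ℝ (y j - y 0) v / s + 2 * ‖v‖^2
        + 20 * ((2 * (9 * h + ‖v‖) + 6 * ε) * ‖v‖ + 3 * δ) ≤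
        s - inner ℝ m v / 3 + 43 * ‖v‖^2 + 362 * h * ‖v‖ + 60 * δ := by
    have h1 : ε * ‖v‖ ≤ h * (1/10^6) * ‖v‖ := by gcongr
    have h2 : 0 ≤ h * ‖v‖ := by positivity
    have e : 20 * ((2 * (9 * h + ‖v‖) + 6 * ε) * ‖v‖ + 3 * δ) =
      360 * (h * ‖v‖) + 40 * ‖v‖^2 + 120 * (ε * ‖v‖) + 60 * δ := by ring
    rw [e]
    linarith
  refine ⟨hS.trans (ENNReal.ofReal_le_ofReal hle), ?_⟩
  have hmn : ‖m‖ ≤ 2 := by
    have h1 := frontier_norm_le hε0.le hε (hy.1 j)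
    have h2 : ‖m‖ ≤ ‖y j‖ + ‖y j - m‖ := by
      have := norm_sub_le (y j) (y j - m)
      rwa [sub_sub_cancel] at this
    linarith
  have h1 : inner ℝ m v ≤ 2 * (1/10^4) := by
    refine (real_inner_le_norm _ _).trans ?_
    gcongr
  have h2 : 0 ≤ 43 * ‖v‖^2 + 362 * h * ‖v‖ + 60 * δ := by positivity
  linarith

lemma move_start {h ε δ : ℝ} (hh : 0 < h) (hh1 : h ≤ 1/10^6) (hεh : ε = h^2) (hδ0 : 0 ≤ δ)
    (hδ : δ ≤ ε^2) {x : ℕ → E3} (hx : IsCh ε δ x) {N k : ℕ} {m : E3}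
    (hG : GoodCh h ε x N k m) {a : E3} (ha : a ∈ frontier (Kb ε))
    (hv : ‖a - x 0‖ ≤ 1/10^4) (hm0 : 0 ≤ inner ℝ m (a - x 0)) :
    dI (frontier (Kb ε)) a (x N) ≤ ENNReal.ofReal
      (clen x N - inner ℝ m (a - x 0) / 3 + 43 * ‖a - x 0‖^2 + 362 * h * ‖a - x 0‖ + 78 * δ) := by
  have hε0 : 0 < ε := by rw [hεh]; positivity
  have hεs : ε ≤ 1/10^12 := by
    rw [hεh]
    calc h^2 ≤ (1/10^6)^2 := by gcongr
      _ = 1/10^12 := by norm_num
  have hε : ε ≤ 1/1000 := hεs.trans (by norm_num)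
  have hδs : δ ≤ 1/10^12 := by nlinarith
  obtain ⟨_, ht2⟩ := tangent hε0.le hε (hx.1 0) ha
  have hvn := norm_nonneg (a - x 0)
  have hc := move_core hh hh1 hεh hδ0 hδ hx ha hv hG.hxk hm0 hG.hs1 hG.hs2
    (β := |inner ℝ (dir (x 0)) (a - x 0)|) (by
      have : 0 ≤ ε * ‖a - x 0‖ := by positivity
      linarith) (fun i hi => hG.hpos i (hi.trans hG.hkN) _ hm0)
  have hN : k + (N - k) = N := by have := hG.hkN; omega
  have h2 := dI_le_chain hε0.le hε hδ0 (by linarith) (hx.shift k) (N - k)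
  rw [clen_shift, hN] at h2
  simp only [add_zero] at h2
  refine (dI_triangle _ _ (x k) _).trans ((add_le_add hc.1 h2).trans ?_)
  have hs3 := hG.hs3
  have hs4 := hG.hs4
  rw [← ENNReal.ofReal_add hc.2 (by nlinarith)]
  apply ENNReal.ofReal_le_ofReal
  nlinarith

lemma move_end {h ε δ : ℝ} (hh : 0 < h) (hh1 : h ≤ 1/10^6) (hεh : ε = h^2) (hδ0 : 0 ≤ δ)
    (hδ : δ ≤ ε^2) {x : ℕ → E3} (hx : IsCh ε δ x) {N k : ℕ} {m : E3}
    (hend : ‖dir (x N) + dir (x 0)‖ ≤ 10 * ε)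
    (hG : GoodCh h ε x N k m) {a : E3} (ha : a ∈ frontier (Kb ε))
    (hv : ‖a - x N‖ ≤ 1/10^4) (hm0 : 0 ≤ inner ℝ m (a - x N)) :
    dI (frontier (Kb ε)) (x 0) a ≤ ENNReal.ofReal
      (clen x N - inner ℝ m (a - x N) / 3 + 43 * ‖a - x N‖^2 + 362 * h * ‖a - x N‖ + 78 * δ) := by
  have hε0 : 0 < ε := by rw [hεh]; positivity
  have hεs : ε ≤ 1/10^12 := by
    rw [hεh]
    calc h^2 ≤ (1/10^6)^2 := by gcongr
      _ = 1/10^12 := by norm_num
  have hε : ε ≤ 1/1000 := hεs.trans (by norm_num)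
  have hδs : δ ≤ 1/10^12 := by nlinarith
  obtain ⟨_, ht2⟩ := tangent hε0.le hε (hx.1 N) ha
  have hvn := norm_nonneg (a - x N)
  have hkN := hG.hkN
  have hNk : N - (N - k) = k := by omega
  obtain ⟨y, hy⟩ : ∃ y : ℕ → E3, y = fun i => x (N - i) := ⟨_, rfl⟩
  have hrev := hx.rev hδ0 N
  rw [← hy] at hrev
  have hyi : ∀ i, y i = x (N - i) := fun i => by rw [hy]
  have e0 : y 0 = x N := by rw [hyi]; simp
  have ek : y (N - k) = x k := by rw [hyi, hNk]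
  have hcl := clen_rev x N (N - k) (by omega)
  rw [hNk, ← hy] at hcl
  have hβ : |inner ℝ (dir (x 0)) (a - x N)| ≤ 15 * ε * ‖a - x N‖ + 0.6 * ‖a - x N‖^2 := by
    have e : inner ℝ (dir (x 0)) (a - x N) = inner ℝ (dir (x N) + dir (x 0)) (a - x N)
      - inner ℝ (dir (x N)) (a - x N) := by rw [inner_add_left]; ring
    rw [e]
    refine (abs_sub _ _).trans ?_
    have h1 : |inner ℝ (dir (x N) + dir (x 0)) (a - x N)| ≤ 10 * ε * ‖a - x N‖ := by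
      refine (abs_real_inner_le_norm _ _).trans ?_
      gcongr
    linarith
  have hc := move_core hh hh1 hεh hδ0 hδ hrev (j := N - k) ha (by rw [e0]; exact hv)
    (m := m) (by rw [ek]; exact hG.hxk) (by rw [e0]; exact hm0) (by rw [hcl]; exact hG.hs3)
    (by rw [hcl]; exact hG.hs4)
    (β := |inner ℝ (dir (x 0)) (a - x N)|) (by rw [e0]; exact hβ) (fun i hi => by
      rw [e0, hyi]
      exact hG.hpos (N - i) (by omega) _ hm0)
  rw [e0, ek, hcl] at hc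
  have h2 := dI_le_chain hε0.le hε hδ0 (by linarith) hx k
  have h3 := hc.1
  rw [dI_comm] at h3
  refine (dI_triangle _ _ (x k) _).trans ((add_le_add h2 h3).trans ?_)
  have hs1 := hG.hs1
  have hs2 := hG.hs2
  rw [← ENNReal.ofReal_add (by nlinarith) hc.2]
  apply ENNReal.ofReal_le_ofReal
  nlinarith

end Pool.Agent.Lib.MP_8da474_gt
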