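import Mathlib
import Pool.Agent.Lib.MP_8da474_gt.Move

set_option autoImplicit false
set_option linter.unusedSectionVars false
set_option linter.unnecessarySimpa false

open Set Metric InnerProductGeometry
open scoped ENNReal NNReal

namespace Pool.Agent.Lib.MP_8da474_gt

/-- real valued intrinsic distance -/
noncomputable def R (ε : ℝ) (x y : E3) : ℝ := (dI (frontier (Kb ε)) x y).toReal

lemma R_nonneg (ε : ℝ) (x y : E3) : 0 ≤ R ε x y := ENNReal.toReal_nonneg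

lemma R_fin {ε : ℝ} (hε0 : 0 < ε) (hε : ε ≤ 1/1000) {x y : E3}
    (hx : x ∈ frontier (Kb ε)) (hy : y ∈ frontier (Kb ε)) : dI (frontier (Kb ε)) x y ≠ ⊤ := by
  have h := upper_far hε0 hε (norm_dir (ne_zero_of_frontier hε0.le hε hx))
    (norm_dir (ne_zero_of_frontier hε0.le hε hy))
  rw [sig_dir hε0.le hε hx, sig_dir hε0.le hε hy] at h
  exact ne_top_of_le_ne_top ENNReal.ofReal_ne_top h

lemma R_le {ε L : ℝ} {x y : E3} (h : dI (frontier (Kb ε)) x y ≤ ENNReal.ofReal L) (hL : 0 ≤ L) :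
    R ε x y ≤ L := ENNReal.toReal_le_of_le_ofReal hL h

lemma R_comm (ε : ℝ) (x y : E3) : R ε x y = R ε y x := by
  unfold R; rw [dI_comm]

lemma R_tri {ε : ℝ} (hε0 : 0 < ε) (hε : ε ≤ 1/1000) {x y z : E3}
    (hx : x ∈ frontier (Kb ε)) (hy : y ∈ frontier (Kb ε)) (hz : z ∈ frontier (Kb ε)) :
    R ε x z ≤ R ε x y + R ε y z := by
  unfold R
  rw [← ENNReal.toReal_add (R_fin hε0 hε hx hy) (R_fin hε0 hε hy hz)]
  exact ENNReal.toReal_mono (ENNReal.add_ne_top.mpr ⟨R_fin hε0 hε hx hy, R_fin hε0 hε hy hz⟩)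
    (dI_triangle _ _ _ _)

lemma R_chain {ε : ℝ} (hε0 : 0 < ε) (hε : ε ≤ 1/1000) {x y : E3}
    (hx : x ∈ frontier (Kb ε)) (hy : y ∈ frontier (Kb ε)) {L δ : ℝ} (hL : R ε x y < L) (hδ : 0 < δ) :
    ∃ (N : ℕ) (u : ℕ → E3), IsCh ε δ u ∧ u 0 = x ∧ u N = y ∧ clen u N ≤ L := by
  have h : dI (frontier (Kb ε)) x y < ENNReal.ofReal L := by
    rw [ENNReal.lt_ofReal_iff_toReal_lt (R_fin hε0 hε hx hy)]
    exact hL
  obtain ⟨N, u, _, h0, h1, h2, h3, h4⟩ := exists_chain_of_dI_lt h hδ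
  exact ⟨N, u, ⟨h2, h3⟩, h0, h1, h4⟩

lemma R_local {ε : ℝ} (hε0 : 0 < ε) (hε : ε ≤ 1/1000) {x y : E3}
    (hx : x ∈ frontier (Kb ε)) (hy : y ∈ frontier (Kb ε)) (hxy : dist x y ≤ 1/1000) :
    R ε x y ≤ 11 * dist x y := by
  set u : ℕ → E3 := fun i => if i = 0 then x else y with hu
  have hch : IsCh ε (dist x y) u := by
    constructor
    · intro i
      by_cases h : i = 0
      · simp [hu, h, hx]
      · simp [hu, h, hy]
    · intro i
      by_cases h : i = 0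
      · simp [hu, h]
      · simp [hu, h, dist_nonneg]
  have h := dI_le_chain hε0.le hε dist_nonneg hxy hch 1
  have e0 : u 0 = x := by simp [hu]
  have e1 : u 1 = y := by simp [hu]
  have e2 : clen u 1 = dist x y := by simp [clen, e0, e1]
  rw [e0, e1, e2] at h
  have hd : 0 ≤ dist x y := dist_nonneg
  refine (R_le h (by positivity)).trans ?_
  nlinarith

lemma R_lower {ε : ℝ} (hε0 : 0 < ε) (hε : ε ≤ 1/1000) {x y : E3}
    (hx : x ∈ frontier (Kb ε)) (hy : y ∈ frontier (Kb ε)) : (1 - 1.1 * ε) * angle x y ≤ R ε x y := by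
  apply le_of_forall_pos_le_add
  intro η hη
  obtain ⟨N, u, hu, h0, h1, hL⟩ := R_chain hε0 hε hx hy (L := R ε x y + η) (δ := ε^2) (by linarith)
    (by positivity)
  have h2 := Ts_le hε0.le hε (sq_nonneg ε) le_rfl hu N
  have h3 := angle_le_Ts (fun i => ne_zero_of_frontier hε0.le hε (hu.1 i)) (Nat.zero_le N)
  rw [Ts_zero, sub_zero, h0, h1] at h3
  have h4 : (1 - 1.1 * ε) * angle x y ≤ (1 - 1.1 * ε) * Ts u N := by
    apply mul_le_mul_of_nonneg_left h3; linarith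
  linarith

lemma dir_lip {ε : ℝ} (hε0 : 0 ≤ ε) (hε : ε ≤ 1/1000) {x y : E3}
    (hx : x ∈ frontier (Kb ε)) (hy : y ∈ frontier (Kb ε)) : ‖dir x - dir y‖ ≤ 2.1 * ‖x - y‖ := by
  have hx0 := ne_zero_of_frontier hε0 hε hx
  have hy0 := ne_zero_of_frontier hε0 hε hy
  have nx' := frontier_norm_ge hε0 hε hx
  have e : ‖x‖ • (dir x - dir y) = (x - y) + (‖y‖ - ‖x‖) • dir y := by
    rw [smul_sub, smul_dir hx0, sub_smul, smul_dir hy0]; abel
  have h1 : ‖x‖ * ‖dir x - dir y‖ ≤ 2 * ‖x - y‖ := by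
    have : ‖x‖ * ‖dir x - dir y‖ = ‖‖x‖ • (dir x - dir y)‖ := by
      rw [norm_smul, norm_norm]
    rw [this, e]
    refine (norm_add_le _ _).trans ?_
    rw [norm_smul, norm_dir hy0, mul_one, Real.norm_eq_abs]
    have := abs_norm_sub_norm_le y x
    rw [norm_sub_rev y x] at this
    linarith
  have h2 : 0.99 * ‖dir x - dir y‖ ≤ ‖x‖ * ‖dir x - dir y‖ := by gcongr
  have := norm_nonneg (x - y)
  linarith

lemma dir_colip {ε : ℝ} (hε0 : 0 ≤ ε) (hε : ε ≤ 1/1000) {x y : E3}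
    (hx : x ∈ frontier (Kb ε)) (hy : y ∈ frontier (Kb ε)) : 0.98 * ‖x - y‖ ≤ ‖dir x - dir y‖ := by
  have hx0 := ne_zero_of_frontier hε0 hε hx
  have hy0 := ne_zero_of_frontier hε0 hε hy
  have nx := frontier_norm_le hε0 hε hx
  have hd := frontier_norm_diff hε0 hε hx hy
  have e : x - y = ‖x‖ • (dir x - dir y) + (‖x‖ - ‖y‖) • dir y := by
    rw [smul_sub, smul_dir hx0, sub_smul, smul_dir hy0]; abel
  have h1 : ‖x - y‖ ≤ 1.01 * ‖dir x - dir y‖ + 4 * ε * ‖x - y‖ := by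
    conv_lhs => rw [e]
    refine (norm_add_le _ _).trans ?_
    rw [norm_smul, norm_smul, norm_dir hy0, mul_one, Real.norm_eq_abs, Real.norm_eq_abs, abs_norm]
    have : ‖x‖ * ‖dir x - dir y‖ ≤ 1.01 * ‖dir x - dir y‖ := by gcongr
    linarith
  have h2 := norm_nonneg (x - y)
  have h3 : 4 * ε * ‖x - y‖ ≤ 4 * (1/1000) * ‖x - y‖ := by gcongr
  have h4 := norm_nonneg (dir x - dir y)
  linarith

lemma angle_unit_bound {a c : E3} (ha : ‖a‖ = 1) (hc : ‖c‖ = 1) : ‖c + a‖ ≤ Real.pi - angle a c := by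
  set φ := angle a c with hφ
  have hφpi : φ ≤ Real.pi := angle_le_pi _ _
  have hcos := cos_angle_unit ha hc
  rw [← hφ] at hcos
  have h1 : ‖c + a‖^2 = 2 - 2 * Real.cos (Real.pi - φ) := by
    rw [norm_add_sq_real, ha, hc, real_inner_comm, ← hcos, Real.cos_pi_sub]; ring
  have h2 := Real.one_sub_sq_div_two_le_cos (x := Real.pi - φ)
  exact le_of_sq_le_sq (by linarith) (by linarith)

/-- points far from the antipode are not far -/
lemma R_far {ε : ℝ} (hε0 : 0 < ε) (hε : ε ≤ 1/1000) {x y : E3}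
    (hx : x ∈ frontier (Kb ε)) (hy : y ∈ frontier (Kb ε)) (hxy : 22 * ε ≤ ‖dir y + dir x‖) :
    R ε x y ≤ Real.pi - 17 * ε := by
  have hx0 := ne_zero_of_frontier hε0.le hε hx
  have hy0 := ne_zero_of_frontier hε0.le hε hy
  have h := upper_far hε0 hε (norm_dir hx0) (norm_dir hy0)
  rw [sig_dir hε0.le hε hx, sig_dir hε0.le hε hy] at h
  have h2 := angle_unit_bound (norm_dir hx0) (norm_dir hy0)
  have h3 := angle_nonneg (dir x) (dir y)
  refine (R_le h (by positivity)).trans ?_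
  have hpi4 := Real.pi_le_four
  nlinarith

/-- Existence of farthest points. -/
lemma exists_farthest {ε : ℝ} (hε0 : 0 < ε) (hε : ε ≤ 1/1000) {p : E3}
    (hp : p ∈ frontier (Kb ε)) :
    ∃ q ∈ frontier (Kb ε), ∀ z ∈ frontier (Kb ε), R ε p z ≤ R ε p q := by
  have hcomp : IsCompact (frontier (Kb ε)) :=
    (isCompact_Kb ε).of_isClosed_subset isClosed_frontier (isClosed_Kb ε).frontier_subset
  have hcont : ContinuousOn (R ε p) (frontier (Kb ε)) := by
    rw [Metric.continuousOn_iff]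
    intro b hb η hη
    refine ⟨min (1/1000) (η/12), by positivity, fun a ha hab => ?_⟩
    have h1 : dist a b ≤ 1/1000 := hab.le.trans (min_le_left _ _)
    have h2 : dist a b < η/12 := hab.trans_le (min_le_right _ _)
    have h3 := R_local hε0 hε ha hb h1
    have h4 := R_tri hε0 hε hp ha hb
    have h5 := R_tri hε0 hε hp hb ha
    rw [R_comm ε b a] at h5
    rw [Real.dist_eq, abs_lt]
    constructor <;> linarith
  obtain ⟨q, hq, hmax⟩ := hcomp.exists_isMaxOn ⟨p, hp⟩ hcont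
  exact ⟨q, hq, fun z hz => hmax hz⟩

end Pool.Agent.Lib.MP_8da474_gt
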