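import Mathlib
import Pool.Agent.Lib.MP_8da474_gt.Dist

set_option autoImplicit false
set_option linter.unusedSectionVars false
set_option linter.unnecessarySimpa false

open Set Metric InnerProductGeometry
open scoped ENNReal NNReal

namespace Pool.Agent.Lib.MP_8da474_gt

/-- `q` is a farthest point from `p`. -/
structure Ctx (h ε : ℝ) (p q : E3) : Prop where
  hh : 0 < h
  hh1 : h ≤ 1/10^12
  hεh : ε = h^2
  hp : p ∈ frontier (Kb ε)
  hq : q ∈ frontier (Kb ε)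
  hfar : ∀ z ∈ frontier (Kb ε), R ε p z ≤ R ε p q

namespace Ctx

variable {h ε : ℝ} {p q : E3}

lemma e0 (c : Ctx h ε p q) : 0 < ε := by rw [c.hεh]; have := c.hh; positivity

lemma es (c : Ctx h ε p q) : ε ≤ h * (1/10^12) := by
  rw [c.hεh]; have := c.hh; have := c.hh1; nlinarith

lemma e1 (c : Ctx h ε p q) : ε ≤ 1/10^24 := by
  have := c.es; have := c.hh1
  calc ε ≤ h * (1/10^12) := c.es
    _ ≤ 1/10^12 * (1/10^12) := by gcongr
    _ = 1/10^24 := by norm_num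

lemma e2 (c : Ctx h ε p q) : ε ≤ 1/1000 := c.e1.trans (by norm_num)

lemma hh2 (c : Ctx h ε p q) : h ≤ 1/10^6 := c.hh1.trans (by norm_num)

lemma p0 (c : Ctx h ε p q) : p ≠ 0 := ne_zero_of_frontier c.e0.le c.e2 c.hp

lemma q0 (c : Ctx h ε p q) : q ≠ 0 := ne_zero_of_frontier c.e0.le c.e2 c.hq

lemma upper (c : Ctx h ε p q) : R ε p q ≤ Real.pi - 15/100000 * ε + 700 * ε^2 := by
  have h1 := dI_upper c.e0 c.e2 (κ := 15/100000) (by norm_num) (norm_dir c.p0) (norm_dir c.q0)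
    (weights (norm_dir c.p0))
  rw [sig_dir c.e0.le c.e2 c.hp, sig_dir c.e0.le c.e2 c.hq] at h1
  refine R_le h1 ?_
  have := Real.pi_gt_three
  have := c.e0
  have := c.e2
  nlinarith

lemma upper' (c : Ctx h ε p q) : R ε p q ≤ Real.pi := by
  have := c.upper
  have := c.e0
  have := c.e1
  nlinarith

lemma lower (c : Ctx h ε p q) : Real.pi - 5 * ε ≤ R ε p q := by
  have hn : ‖-dir p‖ = 1 := by rw [norm_neg, norm_dir c.p0]
  have hs := sig_mem c.e0.le c.e2 hn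
  have hs0 := ne_zero_of_frontier c.e0.le c.e2 hs
  have h1 := c.hfar _ hs
  have h2 := R_lower c.e0 c.e2 c.hp hs
  have h3 : angle p (sig ε (-dir p)) = Real.pi := by
    rw [sig_eq c.e0.le c.e2 hn, angle_smul_right_of_pos _ _ (norm_pos_iff.mpr hs0),
      angle_neg_right, dir, angle_smul_right_of_pos _ _ (inv_pos.mpr (norm_pos_iff.mpr c.p0)),
      angle_self c.p0, sub_zero]
  rw [h3] at h2
  have := Real.pi_le_four
  have := c.e0
  nlinarith

lemma antip (c : Ctx h ε p q) : ‖dir q + dir p‖ ≤ 9 * ε := by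
  have h1 := upper_far c.e0 c.e2 (norm_dir c.p0) (norm_dir c.q0)
  rw [sig_dir c.e0.le c.e2 c.hp, sig_dir c.e0.le c.e2 c.hq] at h1
  have h0 := c.e0
  have h00 := c.e1
  have h2 := R_le h1 (by have := angle_nonneg (dir p) (dir q); positivity)
  have h3 := c.lower
  have h4 := angle_unit_bound (norm_dir c.p0) (norm_dir c.q0)
  have hpi : Real.pi ≤ 3.15 := by have := Real.pi_lt_d2; linarith
  have h5 := angle_le_pi (dir p) (dir q)
  have h6 : ε * angle (dir p) (dir q) ≤ ε * 3.15 := by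
    apply mul_le_mul_of_nonneg_left _ h0.le; linarith
  nlinarith

end Ctx

/-- good chain with tolerance `τ` and direction `m` -/
def GC (h ε : ℝ) (p q : E3) (τ : ℝ) (m : E3) : Prop :=
  ∃ (x : ℕ → E3) (N k : ℕ), IsCh ε τ x ∧ x 0 = p ∧ ‖x N - q‖ ≤ τ ∧ clen x N ≤ R ε p q + τ ∧
    GoodCh h ε x N k m ∧ ‖dir (x N) + dir (x 0)‖ ≤ 10 * ε

lemma GC.unit {h ε τ : ℝ} {p q m : E3} (hg : GC h ε p q τ m) : ON (dir p) m := by
  obtain ⟨x, N, k, _, h0, _, _, hG, _⟩ := hg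
  rw [← h0]; exact hG.hm

lemma GC.mono {h ε τ τ' : ℝ} {p q m : E3} (hg : GC h ε p q τ m) (hτ : τ ≤ τ') : GC h ε p q τ' m := by
  obtain ⟨x, N, k, hx, h0, h1, h2, hG, h3⟩ := hg
  exact ⟨x, N, k, ⟨hx.1, fun i => (hx.2 i).trans hτ⟩, h0, h1.trans hτ, h2.trans (by linarith), hG, h3⟩

lemma Ctx.crit {h ε : ℝ} {p q : E3} (c : Ctx h ε p q) {w : E3} (hw : ON (dir p) w) {τ : ℝ}
    (hτ : 0 < τ) : ∃ m, GC h ε p q τ m ∧ -(3000 * h) ≤ inner ℝ m w := by
  have h0 := c.e0
  have h1 := c.e1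
  have h2 := c.e2
  have hh := c.hh
  have hh1 := c.hh1
  have hes := c.es
  have hwn : ‖w‖ = 1 := hw.2.1
  have hq1 := frontier_norm_le h0.le h2 c.hq
  have hq2 := frontier_norm_ge h0.le h2 c.hq
  -- the displacement
  obtain ⟨t, ht0, htε, hth, htτ⟩ : ∃ t : ℝ, 0 < t ∧ t ≤ ε/10 ∧ t ≤ h/1000 ∧ t ≤ τ/2 :=
    ⟨min (min (ε/10) (h/1000)) (τ/2), by positivity, (min_le_left _ _).trans (min_le_left _ _),
      (min_le_left _ _).trans (min_le_right _ _), min_le_right _ _⟩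
  have hqw : |inner ℝ q w| ≤ 10 * ε := by
    have e : inner ℝ q w = ‖q‖ * inner ℝ (dir q + dir p) w := by
      conv_lhs => rw [← smul_dir c.q0]
      rw [inner_smul_left, inner_add_left, hw.2.2, add_zero]
      simp
    rw [e, abs_mul, abs_norm]
    have h3 : |inner ℝ (dir q + dir p) w| ≤ 9 * ε := by
      refine (abs_real_inner_le_norm _ _).trans ?_
      rw [hwn, mul_one]; exact c.antip
    calc ‖q‖ * |inner ℝ (dir q + dir p) w| ≤ 1.01 * (9 * ε) := by gcongr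
      _ ≤ 10 * ε := by linarith
  set z := q + t • w with hz
  have hzn : |‖z‖ - ‖q‖| ≤ 22 * ε * t := by
    have h3 : ‖z‖^2 = ‖q‖^2 + 2 * (t * inner ℝ q w) + t^2 := by
      rw [hz, norm_add_sq_real, inner_smul_right, norm_smul, hwn, mul_one, Real.norm_eq_abs, sq_abs]
    have h4 : (‖z‖ - ‖q‖) * (‖z‖ + ‖q‖) = 2 * (t * inner ℝ q w) + t^2 := by linarith
    have h5 : |‖z‖ - ‖q‖| * (‖z‖ + ‖q‖) ≤ 21 * ε * t := by
      rw [← abs_of_nonneg (show (0:ℝ) ≤ ‖z‖ + ‖q‖ by positivity), ← abs_mul, h4]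
      refine (abs_add_le _ _).trans ?_
      rw [abs_mul, abs_mul, abs_of_pos ht0, abs_of_nonneg (sq_nonneg t),
        abs_of_pos (show (0:ℝ) < 2 by norm_num)]
      have h6 : t * |inner ℝ q w| ≤ t * (10 * ε) := by gcongr
      have h7 : t^2 ≤ t * (ε/10) := by nlinarith
      have : 0 ≤ ε * t := by positivity
      linarith
    have h8 : |‖z‖ - ‖q‖| * 0.99 ≤ |‖z‖ - ‖q‖| * (‖z‖ + ‖q‖) := by
      gcongr
      have := norm_nonneg z
      linarith
    have : 0 ≤ ε * t := by positivity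
    linarith
  have hz0 : z ≠ 0 := by
    intro hz0
    rw [hz0, norm_zero, zero_sub, abs_neg, abs_norm] at hzn
    have : 22 * ε * t ≤ 22 * (1/1000) * (1/1000) := by
      have : t ≤ 1/1000 := by linarith
      gcongr
    linarith
  set qt := sig ε (dir z) with hqt
  have hqtm : qt ∈ frontier (Kb ε) := sig_mem h0.le h2 (norm_dir hz0)
  have hqt0 := ne_zero_of_frontier h0.le h2 hqtm
  have hqte : qt = ‖qt‖ • dir z := sig_eq h0.le h2 (norm_dir hz0)
  have hez : qt - q - t • w = (‖qt‖ - ‖z‖) • dir z := by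
    rw [sub_smul, ← hqte, smul_dir hz0, hz]; abel
  set e := qt - q - t • w with he
  have hen : ‖e‖ = |‖qt‖ - ‖z‖| := by rw [hez, norm_smul, norm_dir hz0, mul_one, Real.norm_eq_abs]
  have hqq : qt - q = t • w + e := by rw [he]; abel
  have hqqn : ‖qt - q‖ ≤ t + ‖e‖ := by
    rw [hqq]
    refine (norm_add_le _ _).trans ?_
    rw [norm_smul, hwn, mul_one, Real.norm_eq_abs, abs_of_pos ht0]
  have hee : ‖e‖ ≤ 30 * ε * t := by
    have h3 := frontier_norm_diff h0.le h2 hqtm c.hq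
    have h4 : ‖e‖ ≤ 4 * ε * ‖qt - q‖ + 22 * ε * t := by
      rw [hen]
      have h5 : |‖qt‖ - ‖z‖| ≤ |‖qt‖ - ‖q‖| + |‖z‖ - ‖q‖| := by
        have : ‖qt‖ - ‖z‖ = (‖qt‖ - ‖q‖) - (‖z‖ - ‖q‖) := by ring
        rw [this]; exact abs_sub _ _
      linarith
    have h5 : 4 * ε * ‖qt - q‖ ≤ 4 * ε * (t + ‖e‖) := by gcongr
    have h6 : 4 * ε * ‖e‖ ≤ 4 * (1/1000) * ‖e‖ := by
      have := norm_nonneg e
      gcongr
    have : 0 ≤ ε * t := by positivity
    nlinarith
  have heet : 30 * ε * t ≤ t/10 := by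
    have : 30 * ε ≤ 1/10 := by linarith
    nlinarith
  have hqq2 : ‖qt - q‖ ≤ 2 * t := by linarith
  -- the chain
  obtain ⟨τ', hτ'0, hτ'1, hτ'2, hτ'3⟩ : ∃ τ' : ℝ, 0 < τ' ∧ τ' ≤ ε^2 ∧ τ' ≤ h * t / 1000 ∧ τ' ≤ τ :=
    ⟨min (min (ε^2) (h*t/1000)) τ, by positivity, (min_le_left _ _).trans (min_le_left _ _),
      (min_le_left _ _).trans (min_le_right _ _), min_le_right _ _⟩
  obtain ⟨N, x, hx, hx0, hxN, hxL⟩ := R_chain h0 h2 c.hp hqtm (L := R ε p qt + τ') (δ := τ')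
    (by linarith) hτ'0
  have hfar := c.hfar qt hqtm
  have hL : clen x N ≤ Real.pi + ε := by
    have := c.upper'
    have : ε^2 ≤ ε := by nlinarith
    linarith
  have hend : ‖dir (x N) + dir (x 0)‖ ≤ 10 * ε := by
    rw [hxN, hx0]
    have e1 : dir qt + dir p = (dir qt - dir q) + (dir q + dir p) := by abel
    rw [e1]
    refine (norm_add_le _ _).trans ?_
    have h3 := dir_lip h0.le h2 hqtm c.hq
    have h4 := c.antip
    linarith
  obtain ⟨k, m, hG⟩ := chain_main hh c.hh2 c.hεh hτ'0.le hτ'1 hx hL hend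
  refine ⟨m, ⟨x, N, k, ⟨hx.1, fun i => (hx.2 i).trans hτ'3⟩, hx0, ?_, ?_, hG, hend⟩, ?_⟩
  · rw [hxN]; linarith
  · linarith
  · by_contra hcon
    push Not at hcon
    have hmn : ‖m‖ = 1 := hG.hm.2.1
    have hv : q - x N = -(t • w + e) := by rw [hxN, ← hqq]; abel
    have hvn : ‖q - x N‖ ≤ 2 * t := by rw [hxN, norm_sub_rev]; exact hqq2
    have hmv : 2999 * h * t ≤ inner ℝ m (q - x N) := by
      rw [hv, inner_neg_right, inner_add_right, inner_smul_right]
      have h3 : |inner ℝ m e| ≤ 30 * ε * t := by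
        refine (abs_real_inner_le_norm _ _).trans ?_
        rw [hmn, one_mul]; exact hee
      have h4 := (abs_le.mp h3).2
      have h5 : t * inner ℝ m w ≤ t * (-(3000 * h)) := by gcongr
      have h6 : 30 * ε * t ≤ h * t := by
        have : 30 * ε ≤ h := by linarith
        gcongr
      linarith
    have hht : 0 < h * t := by positivity
    have hM := move_end hh c.hh2 c.hεh hτ'0.le hτ'1 hx hend hG c.hq (by linarith)
      (by linarith)
    rw [hx0] at hM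
    have hRp := R_nonneg ε p q
    have hb1 : 43 * ‖q - x N‖^2 ≤ 43 * (2*t)^2 := by gcongr
    have hb2 : 362 * h * ‖q - x N‖ ≤ 362 * h * (2*t) := by gcongr
    have hb3 : 43 * (2*t)^2 ≤ h * t := by
      have : 172 * t ≤ h := by linarith
      nlinarith
    have hval : clen x N - inner ℝ m (q - x N) / 3 + 43 * ‖q - x N‖^2 + 362 * h * ‖q - x N‖ + 78 * τ'
        ≤ R ε p q - h * t := by
      linarith
    have hM2 := hM.trans (ENNReal.ofReal_le_ofReal hval)
    have hRpi := c.lower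
    have hpi := Real.pi_gt_three
    have : R ε p q ≤ R ε p q - h * t := R_le hM2 (by nlinarith)
    linarith

lemma AA_lip {a b b' : E3} (h : ON a b) (h' : ON a b') : |AA a b - AA a b'| ≤ 19 * ‖b - b'‖ := by
  rw [← Iint_pi, ← Iint_pi]
  have h1 := Iint_lip h h' (φ := Real.pi) Real.pi_pos.le
  rw [sub_self, norm_zero, zero_add] at h1
  have hpi : Real.pi ≤ 3.15 := by have := Real.pi_lt_d2; linarith
  refine h1.trans ?_
  have := norm_nonneg (b - b')
  nlinarith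

/-- Two good directions are never almost opposite. -/
lemma Ctx.excl {h ε : ℝ} {p q : E3} (c : Ctx h ε p q) {τ : ℝ} (hτ : τ ≤ ε^2)
    {m₁ m₂ : E3} (g₁ : GC h ε p q τ m₁) (g₂ : GC h ε p q τ m₂) : 15/1000000 ≤ ‖m₁ + m₂‖ := by
  have h0 := c.e0
  have h1 := c.e1
  have h2 := c.e2
  have hh := c.hh
  have hh1 := c.hh1
  have key : ∀ m, GC h ε p q τ m →
      Real.pi - inner ℝ m (dir q + dir p) - 2.1 * τ - ε/2 * AA (dir p) m - 100 * (ε * h) ≤ R ε p q + τ := by
    intro m g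
    have hun := g.unit
    obtain ⟨x, N, k, hx, hx0, hxN, hxL, hG, _⟩ := g
    have hl := hG.hlen
    rw [hx0] at hl
    have e : inner ℝ m (dir (x N)) = inner ℝ m (dir q + dir p) + inner ℝ m (dir (x N) - dir q) := by
      rw [inner_add_right, inner_sub_right, real_inner_comm (dir p) m, hun.2.2]; ring
    have h3 : |inner ℝ m (dir (x N) - dir q)| ≤ 2.1 * τ := by
      refine (abs_real_inner_le_norm _ _).trans ?_
      rw [hun.2.1, one_mul]
      refine (dir_lip h0.le h2 (hx.1 N) c.hq).trans ?_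
      linarith
    have h4 := (abs_le.mp h3).2
    rw [e] at hl
    linarith
  have k1 := key m₁ g₁
  have k2 := key m₂ g₂
  have hA := AA_lip g₁.unit (g₂.unit).neg
  rw [AA_neg, sub_neg_eq_add, sub_neg_eq_add] at hA
  have hA1 := (abs_le.mp hA).2
  have hin : |inner ℝ m₁ (dir q + dir p) + inner ℝ m₂ (dir q + dir p)| ≤ ‖m₁ + m₂‖ * (9 * ε) := by
    rw [← inner_add_left]
    refine (abs_real_inner_le_norm _ _).trans ?_
    have := c.antip
    gcongr
  have hin1 := (abs_le.mp hin).2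
  have hu := c.upper
  have hM := norm_nonneg (m₁ + m₂)
  have h3 : ε/2 * (AA (dir p) m₁ + AA (dir p) m₂) ≤ ε/2 * (19 * ‖m₁ + m₂‖) := by gcongr
  have h4 : ε * h ≤ ε * (1/10^12) := by gcongr
  have h5 : ε^2 ≤ ε * (1/10^24) := by nlinarith
  have h6 : 29/100000 * ε ≤ 18.5 * ‖m₁ + m₂‖ * ε := by linarith
  have h7 : (29/100000) ≤ 18.5 * ‖m₁ + m₂‖ := le_of_mul_le_mul_right h6 h0
  linarith

lemma ON.symm {a b : E3} (h : ON a b) : ON b a :=
  ⟨h.2.1, h.1, by rw [real_inner_comm]; exact h.2.2⟩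

/-- The planar argument: in every direction `w` there is a good chain leaving that way. -/
lemma Ctx.planar {h ε : ℝ} {p q : E3} (c : Ctx h ε p q) {w : E3} (hw : ON (dir p) w) {τ : ℝ}
    (hτ0 : 0 < τ) (hτ : τ ≤ ε^2) : ∃ m, GC h ε p q τ m ∧ 1/1000000 ≤ inner ℝ m w := by
  by_contra hcon
  push Not at hcon
  have hh := c.hh
  have hh1 := c.hh1
  obtain ⟨f₀, hpf₀, hwf₀, hframe₀⟩ := exists_frame hw
  obtain ⟨m₀, g₀, hm₀⟩ := c.crit hw hτ0
  have hm₀' := hcon m₀ g₀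
  -- choose the sign of `f`
  obtain ⟨f, hpf, hwf, hframe, hf0⟩ : ∃ f, ON (dir p) f ∧ ON w f ∧
      (∀ x : E3, ‖x‖^2 = (inner ℝ (dir p) x)^2 + (inner ℝ w x)^2 + (inner ℝ f x)^2) ∧
      0 ≤ inner ℝ f m₀ := by
    rcases le_total 0 (inner ℝ f₀ m₀) with h1 | h1
    · exact ⟨f₀, hpf₀, hwf₀, hframe₀, h1⟩
    · refine ⟨-f₀, hpf₀.neg, hwf₀.neg, fun x => ?_, ?_⟩
      · rw [hframe₀ x, inner_neg_left]; ring
      · rw [inner_neg_left]; linarith
  have hw2 : ON (dir p) ((89999999999/90000000001 : ℝ) • w + (-600000/90000000001 : ℝ) • f) :=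
    hw.comb hpf hwf (by norm_num)
  obtain ⟨m₂, g₂, hm₂⟩ := c.crit hw2 hτ0
  have hm₂' := hcon m₂ g₂
  have hex := c.excl hτ g₀ g₂
  rw [inner_add_right, inner_smul_right, inner_smul_right, real_inner_comm f m₂,
    real_inner_comm w m₂] at hm₂
  rw [real_inner_comm w m₀] at hm₀ hm₀'
  rw [real_inner_comm w m₂] at hm₂'
  have f0 := hframe m₀
  have f2 := hframe m₂
  have fs := hframe (m₀ + m₂)
  rw [g₀.unit.2.1, g₀.unit.2.2] at f0
  rw [g₂.unit.2.1, g₂.unit.2.2] at f2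
  rw [inner_add_right, inner_add_right, inner_add_right, g₀.unit.2.2, g₂.unit.2.2] at fs
  set A₀ := inner ℝ w m₀ with hA₀
  set B₀ := inner ℝ f m₀ with hB₀
  set A₂ := inner ℝ w m₂ with hA₂
  set B₂ := inner ℝ f m₂ with hB₂
  have hB2le : B₂ ≤ 1 := by nlinarith [sq_nonneg A₂]
  have hB2ge : -1 ≤ B₂ := by nlinarith [sq_nonneg A₂]
  have hB0le : B₀ ≤ 1 := by nlinarith [sq_nonneg A₀]
  have hA2lo : -(8/1000000) ≤ A₂ := by linarith
  have hA2sq : A₂^2 ≤ (8/1000000)^2 := by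
    apply sq_le_sq'
    · linarith
    · linarith
  have hA0sq : A₀^2 ≤ (1/1000000)^2 := by
    apply sq_le_sq'
    · linarith
    · linarith
  have hB2half : B₂ ≤ 1/2 := by linarith
  have hB2neg : B₂ < 0 := by nlinarith
  have hB2' : B₂ ≤ -(1 - 1/10^10) := by nlinarith
  have hB0' : 1 - 1/10^10 ≤ B₀ := by nlinarith
  have hsumA : (A₀ + A₂)^2 ≤ (9/1000000)^2 := by
    apply sq_le_sq'
    · linarith
    · linarith
  have hsumB : (B₀ + B₂)^2 ≤ (1/10^9)^2 := by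
    apply sq_le_sq'
    · linarith
    · linarith
  have hlow : (15/1000000)^2 ≤ ‖m₀ + m₂‖^2 := by gcongr
  rw [fs] at hlow
  norm_num at hlow hsumA hsumB
  linarith

/-- projection of a short chord to the orthogonal complement of `dir p` -/
lemma Ctx.proj {h ε : ℝ} {p q : E3} (c : Ctx h ε p q) {v : E3} (hv0 : v ≠ 0)
    (hpv : |inner ℝ (dir p) v| ≤ 1/100 * ‖v‖) :
    ∃ w, ON (dir p) w ∧ ∀ m, ON (dir p) m → 0 ≤ inner ℝ m w → 9/10 * ‖v‖ * inner ℝ m w ≤ inner ℝ m v := by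
  have hvn : 0 < ‖v‖ := norm_pos_iff.mpr hv0
  have hpn : ‖dir p‖ = 1 := norm_dir c.p0
  set u := v - (inner ℝ (dir p) v) • dir p with hu
  have hun : 9/10 * ‖v‖ ≤ ‖u‖ := by
    have h1 := norm_sub_norm_le v ((inner ℝ (dir p) v) • dir p)
    rw [norm_smul, hpn, mul_one, Real.norm_eq_abs] at h1
    linarith
  have hu0 : 0 < ‖u‖ := by linarith
  refine ⟨‖u‖⁻¹ • u, ⟨hpn, ?_, ?_⟩, fun m hm hmw => ?_⟩
  · rw [norm_smul, norm_inv, norm_norm, inv_mul_cancel₀ hu0.ne']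
  · rw [inner_smul_right, hu, inner_sub_right, inner_smul_right, real_inner_self_eq_norm_sq, hpn]
    ring
  · have hmp : inner ℝ m (dir p) = (0:ℝ) := hm.symm.2.2
    have e : inner ℝ m v = ‖u‖ * inner ℝ m (‖u‖⁻¹ • u) := by
      rw [inner_smul_right, ← mul_assoc, mul_inv_cancel₀ hu0.ne', one_mul, hu, inner_sub_right,
        inner_smul_right, hmp]
      ring
    rw [e]
    gcongr

lemma Ctx.strict_end {h ε : ℝ} {p q : E3} (c : Ctx h ε p q) {a : E3} (ha : a ∈ frontier (Kb ε))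
    (hne : a ≠ q) : R ε p a < R ε p q := by
  have h0 := c.e0
  have h1 := c.e1
  have h2 := c.e2
  have hh := c.hh
  have hh1 := c.hh1
  have hes := c.es
  have hant := c.antip
  set v := a - q with hv
  have hv0 : v ≠ 0 := sub_ne_zero.mpr hne
  have hvn : 0 < ‖v‖ := norm_pos_iff.mpr hv0
  by_cases hfar : 40 * ε ≤ ‖v‖
  · have h3 := dir_colip h0.le h2 ha c.hq
    rw [← hv] at h3
    have h4 : ‖dir a - dir q‖ ≤ ‖dir a + dir p‖ + ‖dir q + dir p‖ := by
      have : dir a - dir q = (dir a + dir p) - (dir q + dir p) := by abel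
      rw [this]; exact norm_sub_le _ _
    have h5 := R_far h0 h2 c.hp ha (by linarith)
    have h6 := c.lower
    linarith
  · push Not at hfar
    have htan := (tangent h0.le h2 c.hq ha).2
    rw [← hv] at htan
    have hpv : |inner ℝ (dir p) v| ≤ 1/100 * ‖v‖ := by
      have e : inner ℝ (dir p) v = inner ℝ (dir q + dir p) v - inner ℝ (dir q) v := by
        rw [inner_add_left]; ring
      rw [e]
      refine (abs_sub _ _).trans ?_
      have h3 : |inner ℝ (dir q + dir p) v| ≤ 9 * ε * ‖v‖ := by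
        refine (abs_real_inner_le_norm _ _).trans ?_
        gcongr
      have h4 : ‖v‖^2 ≤ 40 * ε * ‖v‖ := by nlinarith
      have h5 : (9 * ε + 5 * ε + 24 * ε) * ‖v‖ ≤ 1/100 * ‖v‖ := by
        gcongr
        linarith
      nlinarith
    obtain ⟨w, hw, hproj⟩ := c.proj hv0 hpv
    obtain ⟨τ, hτ0, hτ1, hτ2⟩ : ∃ τ : ℝ, 0 < τ ∧ τ ≤ ε^2 ∧ τ ≤ ‖v‖/10^10 :=
      ⟨min (ε^2) (‖v‖/10^10), by positivity, min_le_left _ _, min_le_right _ _⟩
    obtain ⟨m, g, hmw⟩ := c.planar hw hτ0 hτ1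
    have hun := g.unit
    obtain ⟨x, N, k, hx, hx0, hxN, hxL, hG, hend⟩ := g
    have hmv := hproj m hun (by linarith)
    have hmv2 : 9/10 * ‖v‖ * (1/1000000) ≤ inner ℝ m v := le_trans (by gcongr) hmv
    have hv' : a - x N = v - (x N - q) := by rw [hv]; abel
    have hv'n : ‖a - x N‖ ≤ 2 * ‖v‖ := by
      rw [hv']
      refine (norm_sub_le _ _).trans ?_
      linarith
    have hmv' : 8/10 * ‖v‖ * (1/1000000) ≤ inner ℝ m (a - x N) := by
      rw [hv', inner_sub_right]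
      have h3 : |inner ℝ m (x N - q)| ≤ τ := by
        refine (abs_real_inner_le_norm _ _).trans ?_
        rw [hun.2.1, one_mul]; exact hxN
      have h4 := (abs_le.mp h3).2
      linarith
    have hM := move_end hh c.hh2 c.hεh hτ0.le hτ1 hx hend hG ha (by linarith) (by
      refine le_trans ?_ hmv'
      positivity)
    rw [hx0] at hM
    have hb1 : 43 * ‖a - x N‖^2 ≤ 43 * (2 * ‖v‖)^2 := by gcongr
    have hb2 : 362 * h * ‖a - x N‖ ≤ 362 * h * (2 * ‖v‖) := by gcongr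
    have hb3 : 43 * (2 * ‖v‖)^2 ≤ 1/10^10 * ‖v‖ := by
      have : 172 * ‖v‖ ≤ 1/10^10 := by linarith
      nlinarith
    have hb4 : 362 * h * (2 * ‖v‖) ≤ 1/10^9 * ‖v‖ := by
      have : 724 * h ≤ 1/10^9 := by linarith
      nlinarith
    have hval : clen x N - inner ℝ m (a - x N) / 3 + 43 * ‖a - x N‖^2 + 362 * h * ‖a - x N‖ + 78 * τ
        ≤ R ε p q - 1/10^7 * ‖v‖ := by
      linarith
    have hlow := c.lower
    have hpi := Real.pi_gt_three
    have : R ε p a ≤ R ε p q - 1/10^7 * ‖v‖ :=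
      R_le (hM.trans (ENNReal.ofReal_le_ofReal hval)) (by linarith)
    have : 0 < 1/10^7 * ‖v‖ := by positivity
    linarith

lemma Ctx.strict_start {h ε : ℝ} {p q : E3} (c : Ctx h ε p q) {a : E3} (ha : a ∈ frontier (Kb ε))
    (hne : a ≠ p) : R ε a q < R ε p q := by
  have h0 := c.e0
  have h1 := c.e1
  have h2 := c.e2
  have hh := c.hh
  have hh1 := c.hh1
  have hes := c.es
  have hant := c.antip
  set v := a - p with hv
  have hv0 : v ≠ 0 := sub_ne_zero.mpr hne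
  have hvn : 0 < ‖v‖ := norm_pos_iff.mpr hv0
  by_cases hfar : 40 * ε ≤ ‖v‖
  · have h3 := dir_colip h0.le h2 ha c.hp
    rw [← hv] at h3
    have h4 : ‖dir a - dir p‖ ≤ ‖dir q + dir a‖ + ‖dir q + dir p‖ := by
      have : dir a - dir p = (dir q + dir a) - (dir q + dir p) := by abel
      rw [this]; exact norm_sub_le _ _
    have h5 := R_far h0 h2 ha c.hq (by linarith)
    have h6 := c.lower
    linarith
  · push Not at hfar
    have htan := (tangent h0.le h2 c.hp ha).2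
    rw [← hv] at htan
    have hpv : |inner ℝ (dir p) v| ≤ 1/100 * ‖v‖ := by
      have h4 : ‖v‖^2 ≤ 40 * ε * ‖v‖ := by nlinarith
      have h5 : (5 * ε + 24 * ε) * ‖v‖ ≤ 1/100 * ‖v‖ := by
        gcongr
        linarith
      nlinarith
    obtain ⟨w, hw, hproj⟩ := c.proj hv0 hpv
    obtain ⟨τ, hτ0, hτ1, hτ2⟩ : ∃ τ : ℝ, 0 < τ ∧ τ ≤ ε^2 ∧ τ ≤ ‖v‖/10^10 :=
      ⟨min (ε^2) (‖v‖/10^10), by positivity, min_le_left _ _, min_le_right _ _⟩
    obtain ⟨m, g, hmw⟩ := c.planar hw hτ0 hτ1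
    have hun := g.unit
    obtain ⟨x, N, k, hx, hx0, hxN, hxL, hG, hend⟩ := g
    have hmv := hproj m hun (by linarith)
    have hmv2 : 9/10 * ‖v‖ * (1/1000000) ≤ inner ℝ m v := le_trans (by gcongr) hmv
    have hM := move_start hh c.hh2 c.hεh hτ0.le hτ1 hx hG ha (by rw [hx0, ← hv]; linarith) (by
      rw [hx0, ← hv]
      refine le_trans ?_ hmv2
      positivity)
    rw [hx0, ← hv] at hM
    have hb3 : 43 * ‖v‖^2 ≤ 1/10^10 * ‖v‖ := by
      have : 43 * ‖v‖ ≤ 1/10^10 := by linarith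
      nlinarith
    have hb4 : 362 * h * ‖v‖ ≤ 1/10^9 * ‖v‖ := by
      have : 362 * h ≤ 1/10^9 := by linarith
      nlinarith
    have hval : clen x N - inner ℝ m v / 3 + 43 * ‖v‖^2 + 362 * h * ‖v‖ + 78 * τ
        ≤ R ε p q - 1/10^7 * ‖v‖ := by
      linarith
    have hlow := c.lower
    have hpi := Real.pi_gt_three
    have hR1 : R ε a (x N) ≤ R ε p q - 1/10^7 * ‖v‖ :=
      R_le (hM.trans (ENNReal.ofReal_le_ofReal hval)) (by linarith)
    have hloc := R_local h0 h2 (hx.1 N) c.hq (by rw [dist_eq_norm]; linarith)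
    rw [dist_eq_norm] at hloc
    have htri := R_tri h0 h2 ha (hx.1 N) c.hq
    linarith

/-- the two special points -/
lemma R_ax0 {ε : ℝ} (hε0 : 0 < ε) (hε : ε ≤ 1/10^24) {z : E3} (hz : z ∈ frontier (Kb ε)) :
    dI (frontier (Kb ε)) (sig ε ax0) z ≤ ENNReal.ofReal (Real.pi - 159/1000 * ε) := by
  have h2 : ε ≤ 1/1000 := hε.trans (by norm_num)
  have hz0 := ne_zero_of_frontier hε0.le h2 hz
  have h1 := dI_upper hε0 h2 (κ := 16/100) (by norm_num) norm_ax0 (norm_dir hz0) weights_ax0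
  rw [sig_dir hε0.le h2 hz] at h1
  refine h1.trans (ENNReal.ofReal_le_ofReal ?_)
  nlinarith

lemma R_ax2 {h ε : ℝ} (hh : 0 < h) (hh1 : h ≤ 1/10^12) (hεh : ε = h^2) :
    Real.pi - 134/1000 * ε ≤ R ε (sig ε ax2) (sig ε (-ax2)) := by
  have hε0 : 0 < ε := by rw [hεh]; positivity
  have hε1 : ε ≤ 1/10^24 := by
    rw [hεh]
    calc h^2 ≤ (1/10^12)^2 := by gcongr
      _ = 1/10^24 := by norm_num
  have h2 : ε ≤ 1/1000 := hε1.trans (by norm_num)
  have hn : ‖-ax2‖ = 1 := by rw [norm_neg, norm_ax2]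
  have hp := sig_mem hε0.le h2 norm_ax2
  have hq := sig_mem hε0.le h2 hn
  have hp0 := ne_zero_of_frontier hε0.le h2 hp
  have hq0 := ne_zero_of_frontier hε0.le h2 hq
  have hdp : dir (sig ε ax2) = ax2 := by
    rw [dir]
    conv_lhs => rw [sig_eq hε0.le h2 norm_ax2]
    rw [norm_smul, norm_norm, norm_ax2, mul_one, smul_smul,
      inv_mul_cancel₀ (norm_ne_zero_iff.mpr hp0), one_smul]
  have hdq : dir (sig ε (-ax2)) = -ax2 := by
    rw [dir]
    conv_lhs => rw [sig_eq hε0.le h2 hn]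
    rw [norm_smul, norm_norm, hn, mul_one, smul_smul,
      inv_mul_cancel₀ (norm_ne_zero_iff.mpr hq0), one_smul]
  apply le_of_forall_pos_le_add
  intro η hη
  by_cases hbig : Real.pi ≤ R ε (sig ε ax2) (sig ε (-ax2))
  · linarith
  push Not at hbig
  obtain ⟨N, x, hx, hx0, hxN, hxL⟩ := R_chain hε0 h2 hp hq
    (L := R ε (sig ε ax2) (sig ε (-ax2)) + min η ε) (δ := ε^2)
    (by have : 0 < min η ε := lt_min hη hε0
        linarith) (by positivity)
  have hmin1 := min_le_left η ε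
  have hmin2 := min_le_right η ε
  obtain ⟨k, m, hG⟩ := chain_main hh (hh1.trans (by norm_num)) hεh (sq_nonneg ε) le_rfl hx
    (by linarith) (by rw [hx0, hxN, hdp, hdq]; simp; positivity)
  have hl := hG.hlen
  have hm := hG.hm
  rw [hx0, hdp] at hl hm
  rw [hxN, hdq, inner_neg_right, real_inner_comm ax2 m, hm.2.2] at hl
  have hA := AA_ax2_le hm
  have h3 : ε/2 * AA ax2 m ≤ ε/2 * (4/15) := by gcongr
  have h4 : ε * h ≤ ε * (1/10^12) := by gcongr
  linarith

end Pool.Agent.Lib.MP_8da474_gt
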